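import Pool.Agent.Lib.MP_e63cf8_mp.Defs

/-!
# MP_e63cf8_mp, statements R, U, H, L, A: branches, sums, Gamma weights, the recursion, the main asymptotics

Notation: `M = P.natDegree`, `a_j = P.coeff j`, `ω = om M`, `τ_k = tau M n k = E_k^{-1/M}`, `E_k = 4k(n-k)`, `A_j = a_j / c^j`,
`λ_l = br M c g l`, `h_s = hh M c n s`, `G_s = GG M c g n s`, `y_s = yy M c g n s`.
-/

open Polynomial Filter Topology MeasureTheory Asymptotics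

namespace HillRoots

/-! ## R: branches -/

/-- [R1] the analytic branch function.
Proof: let `A(t) = ∑_{j=1}^M (a_j/a_M) t^{M-j}`, `A(0) = 1`. Near `0`, `A(t)` is in the right half plane, `B(t) = A(t)^{1/M}` (principal `cpow`) is analytic,
`B(0) = 1`, `B^M = A`. `Ψ(t) = t / B(t)` is analytic near `0`, `Ψ(0) = 0`, `Ψ'(0) = 1`; let `G` be its local inverse (inverse function theorem; it is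
complex differentiable near `0`, hence analytic), `G(0) = 0`. Put `g(x) = B(G(x))`: analytic near `0`, `g(0) = 1`, and `G(x) = x B(G(x)) = x g(x)`,
`g(x)^M = A(G(x)) = A(x g(x))`. -/
def S_R1 : Prop := ∀ P : ℂ[X], 1 ≤ P.natDegree → ∃ (r : ℝ) (g : ℂ → ℂ), 0 < r ∧
  AnalyticOnNhd ℂ g (Metric.ball 0 r) ∧ g 0 = 1 ∧ ∀ x ∈ Metric.ball (0 : ℂ) r, g x ^ P.natDegree =
    ∑ j ∈ Finset.Icc 1 P.natDegree, P.coeff j / P.leadingCoeff * (x * g x) ^ (P.natDegree - j)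

/-- [R2] a dominating branch.
Proof: `g` is analytic near `0`, `g(0) = 1`. For `l, l' < M` the function `D(t) = |λ_l(t)|² - |λ_{l'}(t)|²` (with any `c`, `c^M = a_M`) is real analytic near
`t = 0` (`t ↦ g(c ω^l t)` is analytic along `ℝ`; take real and imaginary parts). So (`AnalyticAt.eventually_eq_zero_or_eventually_ne_zero`) `D` is `0` near `0`, or `D ≠ 0`
on some `(0,t₁)`, where it has constant sign by continuity. Hence for every pair, `|λ_l| ≤ |λ_{l'}|` on some `[0,t₁)` or `≥` on some `[0,t₁)`: a total preorder on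
the finite set `{0,…,M-1}`, which has a largest element `l₀`: `|λ_l(t)| ≤ |λ_{l₀}(t)|` for all `l` and `0 ≤ t ≤ t₂`. Replace `c` by `c ω^{l₀}`: the new
`λ_l` is `ω^l g(c ω^{l₀+l} t)`, of modulus the old `|λ_{l₀+l mod M}|`; so the new `λ_0` dominates. -/
def S_R2 : Prop := ∀ (M : ℕ) (g : ℂ → ℂ) (a : ℂ) (r : ℝ), 1 ≤ M → 0 < r → AnalyticOnNhd ℂ g (Metric.ball 0 r) → g 0 = 1 → a ≠ 0 →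
  ∃ (c : ℂ) (t₀ : ℝ), c ^ M = a ∧ 0 < t₀ ∧ ‖c‖ * t₀ < r ∧
    ∀ l < M, ∀ t ∈ Set.Icc 0 t₀, ‖br M c g l t‖ ≤ ‖br M c g 0 t‖

/-- [R3] existence of branch data (take `S_R1`, `S_R2` as hypotheses).
Proof: `r, g` from R1, `c, t₀` from R2 with `a = a_M ≠ 0` (`P ≠ 0` as `natDegree ≥ 1`). For `l < M`, `x = c ω^l t`, `λ_l = ω^l g(x)`: `λ_l(0) = ω^l`;
`λ_l^M = g(x)^M` (`ω^{lM} = 1`) `= 1 + ∑_{1≤j<M} (a_j/a_M)(c ω^l t g)^{M-j} = 1 + ∑ (a_j/a_M) c^{M-j} t^{M-j} λ_l^{M-j}` and `c^{M-j}/a_M = c^{-j}`; this is `LDat.eqn`.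
Lipschitz: `g` is `C¹` on the compact ball of radius `‖c‖τ₀ < r`, so Lipschitz there. `low`, `upp`, `sep`: by continuity at `0` (`g(0) = 1`, `ω^l` pairwise
distinct) for `τ₀` small. -/
def S_R3 : Prop := ∀ P : ℂ[X], 1 ≤ P.natDegree → ∃ (c : ℂ) (g : ℂ → ℂ) (τ₀ K δ : ℝ), Branch P c g τ₀ K δ

/-- [R4] the branches are the solutions of `P(w) = E`.
Proof: let `t = E^{-1/M} ∈ (0,τ₀]`. For `x = c ω^l t` and `ζ = x g(x) = c t λ_l(t) ≠ 0`: `P(1/ζ) = ∑_{j≥1} a_j ζ^{-j} = ζ^{-M} a_M ∑ (a_j/a_M) ζ^{M-j} =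
ζ^{-M} a_M g(x)^M = a_M/x^M = a_M/(c^M t^M) = E` (`P.coeff 0 = 0`). The `M` numbers are distinct (`sep`), and `P - E` has at most `M` roots, so these are all. -/
def S_R4 : Prop := ∀ (P : ℂ[X]) (c : ℂ) (g : ℂ → ℂ) (τ₀ K δ : ℝ), P.coeff 0 = 0 → Branch P c g τ₀ K δ →
  ∀ᶠ E : ℝ in atTop, ∀ w : ℂ, P.eval w = (E : ℂ) ↔
    ∃ l < P.natDegree, w = (c * (E ^ (-(1 / (P.natDegree : ℝ))) : ℝ) * br P.natDegree c g l (E ^ (-(1 / (P.natDegree : ℝ)))))⁻¹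

/-- [R5] `rmin` (take `S_R4` as hypothesis). Proof: the set in `rmin` is the finite set of the `(‖c‖ t ‖λ_l(t)‖)⁻¹`, and `l = 0` gives the smallest by `dom`. -/
def S_R5 : Prop := ∀ (P : ℂ[X]) (c : ℂ) (g : ℂ → ℂ) (τ₀ K δ : ℝ), P.coeff 0 = 0 → Branch P c g τ₀ K δ →
  ∀ᶠ E : ℝ in atTop, rmin P E =
    (‖c‖ * E ^ (-(1 / (P.natDegree : ℝ))) * ‖br P.natDegree c g 0 (E ^ (-(1 / (P.natDegree : ℝ))))‖)⁻¹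

/-! ## U: sums over `τ` -/

/-- [U1] Proof: `E_k ≥ 4(n-1)` for `1 ≤ k ≤ n-1`, and `tau M n 0 = 0` (`0` to a negative power is `0`, `Real.zero_rpow`). -/
def S_U1 : Prop := ∀ (M : ℕ) (ε : ℝ), 1 ≤ M → 0 < ε → ∀ᶠ n : ℕ in atTop, ∀ k : ℕ, k < n → tau M n k ∈ Set.Icc 0 ε

/-- [U2] total variation. Proof: `k ↦ k(n-k)` increases for `k ≤ n/2` and decreases afterwards, so `τ_1 ≥ τ_2 ≥ … ≥ τ_m`, `m = ⌊n/2⌋`, then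
`τ` increases up to `τ_{n-1} = τ_1`; the sum is `≤ τ_1 + (τ_1-τ_m) + (τ_{n-1}-τ_m) + … ≤ 3τ_1 → 0`. -/
def S_U2 : Prop := ∀ M : ℕ, 1 ≤ M → Tendsto (fun n : ℕ => ∑ k ∈ Finset.Icc 1 (n - 1), |tau M n k - tau M n (k - 1)|) atTop (𝓝 0)

/-- [U3] Proof: `1/(k(n-k)) = (1/n)(1/k + 1/(n-k))`, so the sum is `(1/(2n)) H_{n-1} → 0`. -/
def S_U3 : Prop := Tendsto (fun n : ℕ => ∑ k ∈ Finset.Icc 1 (n - 1), 1 / En n k) atTop (𝓝 0)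

/-- [U4] Proof: `m = min(k,n-k)`, `max ≥ n/2`, so `E_k ≥ 2 n m`, `1/k + 1/(n-k) ≤ 2/m`; the sum is `≤ 2·∑_{m≥1} (2nm)^{-θ}·2/m ≤ C n^{-θ}`. -/
def S_U4 : Prop := ∀ θ : ℝ, 0 < θ → Tendsto (fun n : ℕ => ∑ k ∈ Finset.Icc 1 (n - 1),
  (En n k) ^ (-θ) * (1 / (k : ℝ) + 1 / ((n : ℝ) - k))) atTop (𝓝 0)

/-! ## H: the Gamma weights -/

/-- [H0] Gautschi's inequality. Proof: log-convexity (`Real.Gamma_mul_add_mul_le_rpow_Gamma_mul_rpow_Gamma`): `Γ(x+θ) ≤ Γ(x)^{1-θ} Γ(x+1)^θ = Γ(x) x^θ`, and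
`Γ(x+1) ≤ Γ(x+θ)^θ Γ(x+θ+1)^{1-θ} = Γ(x+θ)(x+θ)^{1-θ}`, so `Γ(x) ≤ Γ(x+θ)(x+θ)^{1-θ}/x ≤ Γ(x+θ) x^{-θ} (1+1/x)` (as `(1+θ/x)^{1-θ} ≤ 1+1/x`). -/
def S_H0 : Prop := ∀ x θ : ℝ, 0 < x → 0 ≤ θ → θ ≤ 1 →
  x ^ (-θ) * Real.Gamma (x + θ) ≤ Real.Gamma x ∧ Real.Gamma x ≤ x ^ (-θ) * (1 + 1 / x) * Real.Gamma (x + θ)

/-- [H1] Proof: `h_0 = 1` as `Γ(1) = 1`; all factors are nonzero. For `M ≤ s < n` put `x = s/M ≥ 1`, `y = (n-s)/M > 0`: `h_{s-M} = c^{s-M} (4M²)^{-x+1} Γ(y+1)/(Γ(n/M) Γ(x))`,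
`Γ(y+1) = yΓ(y)`, `Γ(1+x) = xΓ(x)`, `4M²xy = E_s`; so `h_{s-M}/h_s = c^{-M} (4M²) x y = E_s/c^M`. -/
def S_H1 : Prop := ∀ (M n : ℕ) (c : ℂ), 1 ≤ M → c ≠ 0 → 1 ≤ n →
  hh M c n 0 = 1 ∧ (∀ s < n, hh M c n s ≠ 0) ∧
  ∀ s, M ≤ s → s < n → c ^ M * hh M c n (s - M) = (En n s : ℂ) * hh M c n s

/-- [H2] the recursion coefficients (take `S_H0` as hypothesis).
Proof: for `j ≤ s`, with `x = s/M`, `y = (n-s)/M`, `θ = 1 - j/M ∈ (0,1)`: `h_{s-j}/(E_s h_s) = c^{-j} (4M²)^{j/M-1} [Γ(y+1-θ)/Γ(y+1)] [Γ(x)/Γ(x+θ)]`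
(`E_s = 4M²xy`, `yΓ(y) = Γ(y+1)`, `Γ(1+x) = xΓ(x)`, `1 + x - j/M = x + θ`, `(n-s+j)/M = y + 1 - θ`). By H0 (at `x`; and at `y+1-θ` with exponent `θ`, or directly:
`Γ(y+1-θ) ≤ Γ(y)^θ Γ(y+1)^{1-θ} = y^{-θ}Γ(y+1)`, and `Γ(y+1) ≤ Γ(y+1-θ)^{1-θ}Γ(y+2-θ)^θ = (y+1-θ)^θ Γ(y+1-θ) ≤ (y+1)^θ Γ(y+1-θ)`):
`x^{-θ} ≤ Γ(x)/Γ(x+θ) ≤ x^{-θ}(1+1/x)`, `(y+1)^{-θ} ≤ Γ(y+1-θ)/Γ(y+1) ≤ y^{-θ}`. Hence the product `Π` of the two brackets satisfies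
`|Π - (xy)^{-θ}| ≤ (xy)^{-θ}(1/x + 1/y)` (`1-(1+1/y)^{-θ} ≤ 1/y`), and `(4M²)^{-θ}(xy)^{-θ} = E_s^{-θ} = τ_s^{M-j}`. So
`|f_j(s) - A_j τ_s^{M-j}| ≤ |A_j| M E_s^{-θ} (1/s + 1/(n-s))`. For `j > s` the left side is `0` by definition of `ff`. -/
def S_H2 : Prop := ∀ (P : ℂ[X]) (c : ℂ) (n s j : ℕ), c ≠ 0 → 1 ≤ j → j < P.natDegree → 1 ≤ s → s < n →
  ‖ff P c n s j - P.coeff j / c ^ j * (tau P.natDegree n s : ℂ) ^ (P.natDegree - j)‖ ≤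
    ‖P.coeff j / c ^ j‖ * P.natDegree * (En n s) ^ (-(1 - (j : ℝ) / P.natDegree)) * (1 / (s : ℝ) + 1 / ((n : ℝ) - s))

/-- [H3] sizes of the weights (take `S_H0` as hypothesis; `M, c` fixed, constants independent of `n`, `s`).
Proof. (1) `h_{s+1}/h_s = c (4M²)^{-1/M} [Γ(y)/Γ(y+1/M)] [Γ(1+x)/Γ(1+x+1/M)]` with `y = (n-s-1)/M ≥ 1/M`, `x = s/M ≥ 0`; by H0 (`θ = 1/M`) both brackets are bounded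
(`y^{-1/M}(1+1/y) ≤ M^{1/M}(1+M)`). (2) for `1 ≤ j < M`: `|h_{n-j}/h_{n-M}| = C_j Γ(n/M)/Γ(n/M+θ)`, `θ = 1 - j/M ≥ 1/M`, `C_j` independent of `n`; `≤ C (n/M)^{-θ}(1+M/n) ≤ C' n^{-1/M}`.
(3) `n - J ≤ s < n`: if `s ≤ n-M`, iterate (1): `|h_{n-M}| ≤ C^J |h_s|`; if `s = n-i`, `1 ≤ i < M`: `|h_{n-M}/h_{n-i}| = C_i Γ(n/M+θ)/Γ(n/M) ≤ C_i (n/M)^θ ≤ C n`.
(4) `s < M`: `|h_s| = |c|^s (4M²)^{-s/M} Γ((n-s)/M)/(Γ(n/M)Γ(1+s/M))` and with `t = s/M ∈ [0,1)`, `y = (n-s)/M`: `Γ(y)/Γ(y+t) ≥ y^{-t} ≥ 1/n` for `n` large. -/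
def S_H3 : Prop := ∀ (M J : ℕ) (c : ℂ), 1 ≤ M → c ≠ 0 → ∃ (C : ℝ), 1 ≤ C ∧ ∀ᶠ n : ℕ in atTop,
  (∀ s, s + 1 < n → ‖hh M c n (s + 1)‖ ≤ C * ‖hh M c n s‖) ∧
  (∀ j, 1 ≤ j → j < M → ‖hh M c n (n - j)‖ ≤ C * (n : ℝ) ^ (-(1 / (M : ℝ))) * ‖hh M c n (n - M)‖) ∧
  (∀ s, n ≤ s + J → s < n → ‖hh M c n (n - M)‖ ≤ C * n * ‖hh M c n s‖) ∧
  (∀ s, s < M → 1 ≤ C * n * ‖hh M c n s‖)

/-- [H4] the perturbation of the coefficients is summable with sum tending to `0` (take `S_H2`, `S_U4` as hypotheses).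
Proof: sum H2 over `1 ≤ s < n` and the finitely many `j`, `θ = 1 - j/M > 0`, U4. -/
def S_H4 : Prop := ∀ (P : ℂ[X]) (c : ℂ), c ≠ 0 → Tendsto (fun n : ℕ => ∑ s ∈ Finset.Icc 1 (n - 1), ∑ j ∈ Finset.Ico 1 P.natDegree,
  ‖ff P c n s j - P.coeff j / c ^ j * (tau P.natDegree n s : ℂ) ^ (P.natDegree - j)‖) atTop (𝓝 0)

/-! ## L: the recursion -/

/-- [L1] inverse Vandermonde bound and companion diagonalisation.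
Proof: `B(t)` the matrix `B_{il} = L_l(t)^{M-1-i}`: columns are eigenvectors of the companion matrix with first row `(A_1 t^{M-1},…,A_{M-1} t,1)` and
subdiagonal ones; the determinant is (up to sign) the Vandermonde product, of modulus `≥ min(δ,1)^{M²}`, entries are `≤ 2^M` in modulus, so the adjugate entries are bounded by a
constant `C(M)`, and `‖B⁻¹‖` is bounded. `B` is Lipschitz in `t` (`‖L‖ ≤ 2`, `L` Lipschitz). -/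
def S_L1 : Prop := ∀ (M : ℕ) (A : ℕ → ℂ) (L : ℕ → ℝ → ℂ) (τ₀ K δ : ℝ), LDat M A L τ₀ K δ →
  ∃ (C : ℝ) (B Bi : ℝ → Matrix (Fin M) (Fin M) ℂ), 0 < C ∧ ∀ t ∈ Set.Icc 0 τ₀,
    B t * Bi t = 1 ∧ Bi t * B t = 1 ∧ (∀ i l, B t i l = L l t ^ (M - 1 - (i : ℕ))) ∧
    (∀ i l, ‖B t i l‖ ≤ C) ∧ (∀ i l, ‖Bi t i l‖ ≤ C) ∧
    (∀ t' ∈ Set.Icc 0 τ₀, ∀ i l, ‖B t i l - B t' i l‖ ≤ C * |t - t'|) ∧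
    (∀ j ∈ Finset.Ico 1 M, ‖A j * (t : ℂ) ^ (M - j)‖ ≤ C)

/-- [L2] stability of the recursion (take `S_L1` as hypothesis).
Proof: put `D_k = (d_k, d_{k-1}, …, d_{k-M+1})`, `X_k = Bi(t_k) D_k` (`k ≥ 0`, `X_0 = 0`), `Λ_k = diag(L_l(t_k))`, `T_k` the companion matrix with coefficients
`A_j t_k^{M-j}` and last entry `1`; `T_k B(t_k) = B(t_k) Λ_k` by `LDat.eqn`. The recursion is `D_k = T_k D_{k-1} + e_0 ρ_k`, `ρ_k = r_k + ∑_j (f_{kj} - A_j t_k^{M-j}) d_{k-j}`, so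
`X_k = Λ_k X_{k-1} + Λ_k Bi(t_k)(B(t_{k-1}) - B(t_k)) X_{k-1} + Bi(t_k) e_0 ρ_k`. With `|·|` the sup norm, `‖L_l(t_k)‖ ≤ ‖L_0(t_k)‖ ≤ 2`, `‖L_0(t_k)‖ ≥ 1/2`, `|D_{k-1}| ≤ C|X_{k-1}|`:
`|X_k| ≤ ‖L_0(t_k)‖ (1 + C|t_k - t_{k-1}| + C δ_k) |X_{k-1}| + C‖r_k‖`, `δ_k = ∑_j ‖f_{kj} - A_j t_k^{M-j}‖`. Divide by `G_k = ∏_{i≤k}‖L_0(t_i)‖`:
`x_k ≤ (1 + η_k) x_{k-1} + C‖r_k‖/G_k` with `∑ η_k ≤ 2C`, so `x_k ≤ e^{2C} C ∑_{i≤k} ‖r_i‖/G_i` (discrete Gronwall), and `‖d_k‖ ≤ C|X_k| = C G_k x_k`. -/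
def S_L2 : Prop := ∀ (M : ℕ) (A : ℕ → ℂ) (L : ℕ → ℝ → ℂ) (τ₀ K δ : ℝ), LDat M A L τ₀ K δ →
  ∃ C : ℝ, 0 < C ∧ ∀ (N : ℕ) (t : ℕ → ℝ) (f : ℕ → ℕ → ℂ) (d : ℤ → ℂ) (r : ℕ → ℂ),
    t 0 = 0 → (∀ k ≤ N, t k ∈ Set.Icc 0 τ₀) →
    ∑ k ∈ Finset.Icc 1 N, |t k - t (k - 1)| ≤ 1 →
    ∑ k ∈ Finset.Icc 1 N, ∑ j ∈ Finset.Ico 1 M, ‖f k j - A j * (t k : ℂ) ^ (M - j)‖ ≤ 1 →
    (∀ s : ℤ, s ≤ 0 → d s = 0) →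
    (∀ k : ℕ, 1 ≤ k → k ≤ N → d k = d ((k : ℤ) - M) + ∑ j ∈ Finset.Ico 1 M, f k j * d ((k : ℤ) - j) + r k) →
    ∀ k : ℕ, k ≤ N → ‖d k‖ ≤ C * (∏ i ∈ Finset.Icc 1 k, ‖L 0 (t i)‖) *
      ∑ i ∈ Finset.Icc 1 k, ‖r i‖ / ∏ i' ∈ Finset.Icc 1 i, ‖L 0 (t i')‖

/-- [L3] consistency: the sum of the products of the branches almost solves the recursion.
Proof: put `t_i = 0` for `i < 0` and `y^{(l)}_s = ∏_{i=1}^s L_l(t_i)` for `0 ≤ s ≤ N`, `y^{(l)}_s = ω^{ls}` for `-M < s < 0`; then `y_s = (1/M)∑_l y^{(l)}_s` for all `-M < s ≤ N`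
(for `-M < s < 0` the sum of `ω^{ls}` is `0`), and for `1 ≤ k ≤ N`, `0 ≤ j ≤ M`, `k - j > -M`: `y^{(l)}_{k-j} = y^{(l)}_k / ∏_{i=0}^{j-1} L_l(t_{k-i})` (`L_l(0) = ω^l`, `t_i = 0` for `i ≤ 0`). By
`‖L_l‖ ∈ [1/2,2]` and Lipschitz, `|∏_{i<j} L_l(t_{k-i})^{-1} - L_l(t_k)^{-j}| ≤ C ∑_{k-M < i ≤ k, i ≥ 1} |t_i - t_{i-1}|` (each `|t_{k-i} - t_k|` is bounded by this sum). With the exact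
identity `1 = L_l(t_k)^{-M} + ∑_j A_j t_k^{M-j} L_l(t_k)^{-j}` (`LDat.eqn`), `‖A_j t^{M-j}‖ ≤ C`, `‖y^{(l)}_k‖ ≤ G_k` (`dom`), `‖y_{k-j}‖ ≤ 2^M G_k`: claim. -/
def S_L3 : Prop := ∀ (M : ℕ) (A : ℕ → ℂ) (L : ℕ → ℝ → ℂ) (τ₀ K δ : ℝ), LDat M A L τ₀ K δ →
  ∃ C : ℝ, 0 < C ∧ ∀ (N : ℕ) (t : ℕ → ℝ) (f : ℕ → ℕ → ℂ) (y : ℤ → ℂ),
    t 0 = 0 → (∀ k ≤ N, t k ∈ Set.Icc 0 τ₀) →
    (∀ s : ℤ, s < 0 → y s = 0) →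
    (∀ s : ℕ, s ≤ N → y s = (1 / (M : ℂ)) * ∑ l ∈ Finset.range M, ∏ i ∈ Finset.Icc 1 s, L l (t i)) →
    ∀ k : ℕ, 1 ≤ k → k ≤ N →
      ‖y k - y ((k : ℤ) - M) - ∑ j ∈ Finset.Ico 1 M, f k j * y ((k : ℤ) - j)‖ ≤
        C * (∏ i ∈ Finset.Icc 1 k, ‖L 0 (t i)‖) *
          (∑ j ∈ Finset.Ico 1 M, ‖f k j - A j * (t k : ℂ) ^ (M - j)‖ + ∑ i ∈ Finset.Ioc (k - M) k, |t i - t (i - 1)|)

/-- [L4] the two together (take `S_L2`, `S_L3` as hypotheses).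
Proof: `d = u - γ y` vanishes for `s ≤ 0` (`y_0 = 1`), and satisfies the recursion with `r'_k = r_k - γ(y_k - y_{k-M} - ∑ f y)`; by L3, `∑_k ‖r'_k‖/G_k ≤ ∑‖r_k‖/G_k + ‖γ‖ C (Δ + M V)` (each difference
`|t_i - t_{i-1}|` occurs for at most `M` values of `k`); apply L2. -/
def S_L4 : Prop := ∀ (M : ℕ) (A : ℕ → ℂ) (L : ℕ → ℝ → ℂ) (τ₀ K δ : ℝ), LDat M A L τ₀ K δ →
  ∃ C : ℝ, 0 < C ∧ ∀ (N : ℕ) (t : ℕ → ℝ) (f : ℕ → ℕ → ℂ) (u : ℤ → ℂ) (r : ℕ → ℂ) (γ : ℂ) (V Δ : ℝ),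
    t 0 = 0 → (∀ k ≤ N, t k ∈ Set.Icc 0 τ₀) →
    ∑ k ∈ Finset.Icc 1 N, |t k - t (k - 1)| ≤ V → V ≤ 1 →
    ∑ k ∈ Finset.Icc 1 N, ∑ j ∈ Finset.Ico 1 M, ‖f k j - A j * (t k : ℂ) ^ (M - j)‖ ≤ Δ → Δ ≤ 1 →
    (∀ s : ℤ, s < 0 → u s = 0) → u 0 = γ →
    (∀ k : ℕ, 1 ≤ k → k ≤ N → u k = u ((k : ℤ) - M) + ∑ j ∈ Finset.Ico 1 M, f k j * u ((k : ℤ) - j) + r k) →
    ∀ k : ℕ, k ≤ N → ‖u k - γ * ((1 / (M : ℂ)) * ∑ l ∈ Finset.range M, ∏ i ∈ Finset.Icc 1 k, L l (t i))‖ ≤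
      C * (∏ i ∈ Finset.Icc 1 k, ‖L 0 (t i)‖) *
        (∑ i ∈ Finset.Icc 1 k, ‖r i‖ / ∏ i' ∈ Finset.Icc 1 i, ‖L 0 (t i')‖ + ‖γ‖ * (V + Δ))

/-! ## A: the main asymptotics -/

/-- the hypotheses on the forcing term `φ`, of size `Φ` relative to the weights -/
def Forc (P : ℂ[X]) (c : ℂ) (g : ℂ → ℂ) (n : ℕ) (Φ : ℝ) (φ : ℤ → ℂ) : Prop :=
  (∀ s : ℕ, 1 ≤ s → s < n → ‖φ s‖ ≤ Φ * (‖hh P.natDegree c n s‖ * GG P.natDegree c g n s)) ∧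
  (∀ s : ℤ, s < 0 → ‖φ s‖ ≤ Φ) ∧
  (∀ s : ℤ, (n : ℤ) < s → ‖φ s‖ ≤ Φ * (‖hh P.natDegree c n (n - P.natDegree)‖ * GG P.natDegree c g n (n - P.natDegree)))

/-- `x` is bounded by `A` times the weights on `[0,n)` -/
def Wbd (P : ℂ[X]) (c : ℂ) (g : ℂ → ℂ) (n : ℕ) (A : ℝ) (x : ℤ → ℂ) : Prop :=
  ∀ s : ℕ, s < n → ‖x s‖ ≤ A * (‖hh P.natDegree c n s‖ * GG P.natDegree c g n s)

/-- [A1] outside `[0,n]` (take `S_H1`, `S_H3`, `S_U1` as hypotheses).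
Proof: `M = deg P`, `J = deg Q`, `ν = nu P Q`. For `n` large all `τ_k ≤ τ₀`, so `1/2 ≤ ‖λ_0(τ_k)‖ ≤ 2`, and `|E_s + z| ≥ 2n` for `s < 0` and `s > n` (`|E_s| ≥ 4(n+1)`).
Note `‖γ‖ = ‖x 0‖ ≤ A` (`h_0 = 1`, `G_0 = 1`).
`s < 0`: let `B = sup_{s<0}‖x s‖`. `Vop x s` involves indices `< s ≤ -1` and `s + j ≤ J - 1`; for `0 ≤ i ≤ J`, `i < n`: `‖x i‖ ≤ A‖h_i‖G_i ≤ A C^J 2^J`. So
`B ≤ (1/2n)(ν (B + A C') + Φ)`, hence `B ≤ (C''/n)(A + Φ)` for `n ≥ ν`.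
`s > n`: `B = sup_{s>n}‖x s‖`; indices involved: `> n`, `n` (`x_n = 0`), and `n - M < i < n`, where `‖x i‖ ≤ A‖h_i‖G_i ≤ A C^M 2^M ‖h_{n-M}‖G_{n-M}` (H3 (1) iterated). So
`B ≤ (1/2n)(ν(B + A C' h G) + Φ h G)`, `h G = ‖h_{n-M}‖G_{n-M}`. -/
def S_A1 : Prop := ∀ (P Q : ℂ[X]) (c : ℂ) (g : ℂ → ℂ) (τ₀ K δ Z : ℝ), Branch P c g τ₀ K δ →
  ∃ C : ℝ, 0 < C ∧ ∀ᶠ n : ℕ in atTop, ∀ (z γ : ℂ) (Φ A : ℝ) (φ x : ℤ → ℂ), ‖z‖ ≤ Z → 0 ≤ Φ → 0 ≤ A →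
    Sol P Q n z γ 0 φ x → Forc P c g n Φ φ → Wbd P c g n A x →
    (∀ s : ℤ, s < 0 → ‖x s‖ ≤ C / n * (A + Φ)) ∧
    (∀ s : ℤ, (n : ℤ) < s → ‖x s‖ ≤ C / n * (A + Φ) * (‖hh P.natDegree c n (n - P.natDegree)‖ * GG P.natDegree c g n (n - P.natDegree)))

/-- [A2] the forcing in the normalised recursion (take `S_H1`, `S_H3`, `S_U1`, `S_U3`, `S_A1` as hypotheses).
Proof: `u s = x s/h_s` for `0 ≤ s < n`, `u s = 0` for `s < 0`. For `1 ≤ s < n` divide `(E_s + z)x_s = ∑_{j=1}^M a_j x_{s-j} + ∑_{j=1}^{J} b_j x_{s+j} + φ_s` by `E_s h_s`: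
by H1 (`c^M = a_M`) and the definition of `ff`, `u_s = u_{s-M} + ∑_{1≤j<M} f_j(s) u_{s-j} + r_s`,
`r_s = -(z/E_s)u_s + ∑_{s<j≤M} a_j x_{s-j}/(E_s h_s) + ∑_j b_j x_{s+j}/(E_s h_s) + φ_s/(E_s h_s)`. Bounds for `‖r_s‖/G_s`:
`|z/E_s|‖u_s‖/G_s ≤ Z A/E_s`; second sum only for `s < M`: `≤ ν (C/n)(A+Φ)/(E_s‖h_s‖G_s) ≤ C'(A+Φ)/n` by A1, H3 (4) (`1/‖h_s‖ ≤ Cn`), `E_s ≥ 4(n-1)`, `G_s ≥ 2^{-M}`; third: for `s+j < n`,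
`‖x_{s+j}‖ ≤ A‖h_{s+j}‖G_{s+j} ≤ A C^J 2^J ‖h_s‖G_s` (H3 (1)), `s + j = n`: `0`, `s+j > n` (so `n ≤ s + J`): by A1 and H3 (3), `‖x_{s+j}‖ ≤ (C/n)(A+Φ)‖h_{n-M}‖G_{n-M} ≤ C'(A+Φ)‖h_s‖G_s`
(`G_{n-M} ≤ 2^{J+M}·2^{M} G_s`), total `≤ C''(A+Φ)/E_s`; last `≤ Φ/E_s`. Sum over `s`: `≤ ρ_n (A+Φ)` with `ρ_n = C(∑1/E_s + 1/n) → 0` (U3). -/
def S_A2 : Prop := ∀ (P Q : ℂ[X]) (c : ℂ) (g : ℂ → ℂ) (τ₀ K δ Z : ℝ), P.coeff 0 = 0 → Q.coeff 0 = 0 → Branch P c g τ₀ K δ →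
  ∃ ρ : ℕ → ℝ, Tendsto ρ atTop (𝓝 0) ∧ ∀ᶠ n : ℕ in atTop, ∀ (z γ : ℂ) (Φ A : ℝ) (φ x : ℤ → ℂ), ‖z‖ ≤ Z → 0 ≤ Φ → 0 ≤ A →
    Sol P Q n z γ 0 φ x → Forc P c g n Φ φ → Wbd P c g n A x →
    ∃ (u : ℤ → ℂ) (r : ℕ → ℂ), (∀ s : ℤ, s < 0 → u s = 0) ∧ (∀ s : ℕ, s < n → u s = x s / hh P.natDegree c n s) ∧
      (∀ s : ℕ, 1 ≤ s → s < n → u s = u ((s : ℤ) - P.natDegree) + ∑ j ∈ Finset.Ico 1 P.natDegree, ff P c n s j * u ((s : ℤ) - j) + r s) ∧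
      ∑ s ∈ Finset.Icc 1 (n - 1), ‖r s‖ / GG P.natDegree c g n s ≤ ρ n * (A + Φ)

/-- [A3] the main estimate (take `S_H1`, `S_H4`, `S_U1`, `S_U2`, `S_L4`, `S_A1`, `S_A2` as hypotheses).
Proof: let `A = max_{0≤s<n} ‖x_s‖/(‖h_s‖G_s)` (a finite maximum, `n ≥ 1`), so `Wbd … A x`. Apply A2 and L4 with `N = n-1`, `t k = τ_k`, `f = ff P c n`, `V, Δ` the sums of U2, H4 (`→ 0`),
`u 0 = x 0/h_0 = γ`: `‖u_s - γ y_s‖ ≤ C G_s (ρ_n(A+Φ) + ‖γ‖(V+Δ))`. As `‖y_s‖ ≤ G_s` (`dom`): `A ≤ ‖γ‖ + C(ρ_n(A+Φ) + ‖γ‖(V+Δ))`, so `A ≤ 2(‖γ‖+Φ)` for `n` large. Insert this back (first claim, with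
`ρ' = C(3ρ + V + Δ)`), and A1 gives the other two claims. -/
def S_A3 : Prop := ∀ (P Q : ℂ[X]) (c : ℂ) (g : ℂ → ℂ) (τ₀ K δ Z : ℝ), P.coeff 0 = 0 → Q.coeff 0 = 0 → Branch P c g τ₀ K δ →
  ∃ ρ : ℕ → ℝ, Tendsto ρ atTop (𝓝 0) ∧ ∀ᶠ n : ℕ in atTop, ∀ (z γ : ℂ) (Φ : ℝ) (φ x : ℤ → ℂ), ‖z‖ ≤ Z → 0 ≤ Φ →
    Sol P Q n z γ 0 φ x → Forc P c g n Φ φ →
    (∀ s : ℕ, s < n → ‖x s - γ * hh P.natDegree c n s * yy P.natDegree c g n s‖ ≤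
      ρ n * (‖γ‖ + Φ) * (‖hh P.natDegree c n s‖ * GG P.natDegree c g n s)) ∧
    (∀ s : ℤ, s < 0 → ‖x s‖ ≤ ρ n * (‖γ‖ + Φ)) ∧
    (∀ s : ℤ, (n : ℤ) < s → ‖x s‖ ≤ ρ n * (‖γ‖ + Φ) * (‖hh P.natDegree c n (n - P.natDegree)‖ * GG P.natDegree c g n (n - P.natDegree)))

/-- [A4] the value at `n` (take `S_A3`, `S_H3`, `S_U1` as hypotheses).
Proof: `Vop x n = a_M x_{n-M} + ∑_{1≤j<M} a_j x_{n-j} + ∑_{j≥1} b_j x_{n+j}`. By A3: `‖x_{n-M} - γ h y‖ ≤ ρ(‖γ‖+Φ) h G`; for `1 ≤ j < M`, `‖x_{n-j}‖ ≤ (1+ρ)(‖γ‖+Φ)‖h_{n-j}‖G_{n-j}` (`‖y‖ ≤ G`) and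
`‖h_{n-j}‖G_{n-j} ≤ C n^{-1/M} 2^M ‖h_{n-M}‖G_{n-M}` (H3 (2)); `‖x_{n+j}‖ ≤ ρ(‖γ‖+Φ)‖h_{n-M}‖G_{n-M}`. -/
def S_A4 : Prop := ∀ (P Q : ℂ[X]) (c : ℂ) (g : ℂ → ℂ) (τ₀ K δ Z : ℝ), P.coeff 0 = 0 → Q.coeff 0 = 0 → Branch P c g τ₀ K δ →
  ∃ ρ : ℕ → ℝ, Tendsto ρ atTop (𝓝 0) ∧ ∀ᶠ n : ℕ in atTop, ∀ (z γ : ℂ) (Φ : ℝ) (φ x : ℤ → ℂ), ‖z‖ ≤ Z → 0 ≤ Φ →
    Sol P Q n z γ 0 φ x → Forc P c g n Φ φ →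
    ‖Vop P Q x n - γ * (P.leadingCoeff * hh P.natDegree c n (n - P.natDegree) * yy P.natDegree c g n (n - P.natDegree))‖ ≤
      ρ n * (‖γ‖ + Φ) * RR P c g n

/-- [A5] asymptotics of `beta` (take `S_F1` of `StmB`, `S_A3`, `S_A4` as hypotheses).
Proof: first claim: A4 for `x = C0 P Q n z`, `γ = 1`, `φ = 0`, `Φ = 0`. Second: `w = C0(z) - C0(z')` solves the Feshbach problem for `z` with `γ = 0` and `φ_s = -(z-z') C0(z')_s`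
(off `{0,n}`; `Vop` is linear): by A3 for `C0(z')`, `Forc` holds with `Φ = 2|z-z'|` for `n` large (`‖C0(z')_s‖ ≤ (‖y_s‖ + ρ G_s)‖h_s‖ ≤ 2‖h_s‖G_s`, etc.); by A4
`‖beta(z) - beta(z')‖ = ‖Vop w n‖ ≤ ρ_n 2|z-z'| R_n`. -/
def S_A5 : Prop := ∀ (P Q : ℂ[X]) (c : ℂ) (g : ℂ → ℂ) (τ₀ K δ : ℝ), P.coeff 0 = 0 → Q.coeff 0 = 0 → Branch P c g τ₀ K δ →
  ∀ η : ℝ, 0 < η → ∀ᶠ n : ℕ in atTop, ∀ z z' : ℂ, ‖z‖ ≤ 1 → ‖z'‖ ≤ 1 →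
    ‖beta P Q n z - P.leadingCoeff * hh P.natDegree c n (n - P.natDegree) * yy P.natDegree c g n (n - P.natDegree)‖ ≤ η * RR P c g n ∧
    ‖beta P Q n z - beta P Q n z'‖ ≤ η * ‖z - z'‖ * RR P c g n

end HillRoots
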