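import Pool.Agent.Lib.MP_e63cf8_mp.Defs

/-!
# MP_e63cf8_mp, statements N, C, X: cancellation, comparison of the two sides, explicit conditions

Notation as in `StmC`.
-/

open Polynomial Filter Topology MeasureTheory Asymptotics

namespace HillRoots

/-! ## N: no cancellation -/

/-- [N1] (take `S_R4`, `S_U1` as hypotheses).
Proof: let `W_l(E) = (c t λ_l(t))⁻¹`, `t = E^{-1/M}`, `l < M`, continuous on `[E₁,∞)`, pairwise distinct, and for `E ≥ E₁` every solution of `P(w) = E` is one of them (R4). For a continuous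
branch `w_l` of `NoCancelOn`, `E ≥ max(E₀,E₁)`, there is exactly one index `i` with `w_l(E) = W_i(E)`, and `{E : w_l(E) = W_i(E)}` is closed for each `i`; these finitely many disjoint closed sets
cover a ray (connected), so `i = σ(l)` does not depend on `E`; `σ` is injective, hence a bijection `Fin M → {0..M-1}`. For `n ∈ S` large, `1 ≤ k ≤ n-M`: `E_k ≥ 4(n-1) ≥ E₁`, so
`∏ (w_l(E_k))⁻¹ = ∏_k (c τ_k) · ∏_k λ_{σ(l)}(τ_k)`; take absolute values, choose `l` with `σ(l) = 0`, cancel `∏|c τ_k| > 0`: `ε G_{n-M} ≤ |∑_l ∏ λ_l(τ_k)| = M |y_{n-M}|`. -/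
def S_N1 : Prop := ∀ (P : ℂ[X]) (c : ℂ) (g : ℂ → ℂ) (τ₀ K δ : ℝ) (S : Set ℕ), P.coeff 0 = 0 → Branch P c g τ₀ K δ → NoCancelOn P S →
  ∃ ε : ℝ, 0 < ε ∧ ∀ᶠ n : ℕ in atTop, n ∈ S →
    ε * GG P.natDegree c g n (n - P.natDegree) ≤ ‖yy P.natDegree c g n (n - P.natDegree)‖

/-- [N2] (take `S_A5` of `StmC`, `S_N1`, `S_U1`, `S_H1` as hypotheses).
Proof: `‖y_{n-M}‖ ≤ G_{n-M}` (`dom`), so by A5 with `η ≤ 1`, `η ≤ ε/2`: `‖beta‖ ≤ (1+η)R_n ≤ 2R_n` and `‖beta‖ ≥ (ε-η) R_n ≥ (ε/2) R_n`; `R_n > 0` (`a_M ≠ 0`, `h ≠ 0` by H1, `‖λ_0‖ ≥ 1/2`).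
The Lipschitz bound is A5. -/
def S_N2 : Prop := ∀ (P Q : ℂ[X]) (c : ℂ) (g : ℂ → ℂ) (τ₀ K δ : ℝ) (S : Set ℕ), P.coeff 0 = 0 → Q.coeff 0 = 0 → Branch P c g τ₀ K δ →
  NoCancelOn P S → Reg (beta P Q) (RR P c g) S

/-! ## C: comparison -/

/-- [C1] the logarithm of the quotient for equal degrees (take `S_R5`, `S_U1`, `S_H1` as hypotheses).
Proof: `‖h_{n-M}‖ = ‖c‖^{n-M}·(the same real factor for both)`, `R = ‖a_M‖‖h_{n-M}‖ ∏_{k=1}^{n-M}‖λ_0(τ_k)‖`; and by R5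
`log rmin P E_k = -log(‖c‖ τ_k ‖λ_0(τ_k)‖)` for `n` large (`E_k ≥ 4(n-1)`, `(E_k)^{-1/M} = τ_k`), the same for `Q`. -/
def S_C1 : Prop := ∀ (P Q : ℂ[X]) (c c' : ℂ) (g g' : ℂ → ℂ) (τ₀ K δ τ₀' K' δ' : ℝ), P.coeff 0 = 0 → Q.coeff 0 = 0 →
  P.natDegree = Q.natDegree → Branch P c g τ₀ K δ → Branch Q c' g' τ₀' K' δ' →
  ∀ᶠ n : ℕ in atTop, Real.log (RR P c g n / RR Q c' g' n) = Real.log (‖P.leadingCoeff‖ / ‖Q.leadingCoeff‖) -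
    ∑ k ∈ Finset.Icc 1 (n - P.natDegree), Real.log (rmin P (En n k) / rmin Q (En n k))

/-- [C2] the criterion bounds the quotient (take `S_C1`, `S_U1` as hypotheses).
Proof: `|log(rmin P E/rmin Q E)| ≤ K E^{-1/2}` for `E ≥ E₁`, and `∑_{k=1}^{n-1} (4k(n-k))^{-1/2} ≤ C`: by symmetry `≤ 2∑_{k ≤ n/2} (2kn)^{-1/2} ≤ 2 (2n)^{-1/2} 2√n`. -/
def S_C2 : Prop := ∀ (P Q : ℂ[X]) (c c' : ℂ) (g g' : ℂ → ℂ) (τ₀ K δ τ₀' K' δ' : ℝ), P.coeff 0 = 0 → Q.coeff 0 = 0 →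
  P.natDegree = Q.natDegree → Branch P c g τ₀ K δ → Branch Q c' g' τ₀' K' δ' → Crit P Q →
  ∃ C : ℝ, ∀ᶠ n : ℕ in atTop, |Real.log (RR P c g n / RR Q c' g' n)| ≤ C

/-- [C3] the failure of the criterion (take `S_C1`, `S_R5`, `S_U1` as hypotheses).
Proof: `D(t) = log(‖c‖‖λ_0(t)‖) - log(‖c'‖‖λ'_0(t)‖)` is real analytic at `t = 0` (`log‖f‖ = Re log (f/f(0)) + log‖f(0)‖` with `f` analytic, `f(0) ≠ 0`), and
`log(rmin P E/rmin Q E) = -D(E^{-1/M})` for `E` large (R5). If `D` is `0` near `0`, or `D(t) = O(t^r)` with `2r ≥ M`, then `Crit` holds (`E^{-r/M} ≤ E^{-1/2}` for `E ≥ 1`). So `¬Crit` gives `r`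
with `2r < M` and `D(t) = t^r k(t)`, `k` continuous, `k(0) ≠ 0` (`AnalyticAt.exists_eventuallyEq_pow_smul_nonzero_iff`). For `t` small `D` has the sign of `k(0)` and `|D(t)| ≥ (|k(0)|/2) t^r`. By C1
`|log(R/R')| ≥ (|k(0)|/2) ∑_{k=1}^{n-M} τ_k^r - C ≥ (|k(0)|/2)(n-M) n^{-2r/M} - C → ∞` (`E_k ≤ n²`, so `τ_k^r ≥ n^{-2r/M}`). -/
def S_C3 : Prop := ∀ (P Q : ℂ[X]) (c c' : ℂ) (g g' : ℂ → ℂ) (τ₀ K δ τ₀' K' δ' : ℝ), P.coeff 0 = 0 → Q.coeff 0 = 0 →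
  P.natDegree = Q.natDegree → Branch P c g τ₀ K δ → Branch Q c' g' τ₀' K' δ' → ¬ Crit P Q →
  Tendsto (fun n : ℕ => |Real.log (RR P c g n / RR Q c' g' n)|) atTop atTop

/-- [C4] different degrees (take `S_R5`, `S_U1`, `S_H1` as hypotheses).
Proof: first claim: by R5 `log rmin P E = (1/M) log E + O(1)`, so `log(rmin P/rmin Q) = (1/M - 1/M') log E + O(1)` is not `O(E^{-1/2})`. Second: `‖h_{n-M}‖ = ‖c‖^{n-M}(4M²)^{-(n-M)/M}/Γ(n/M)²`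
(`Γ(1) = 1`, `1 + (n-M)/M = n/M`) and `2^{-n} ≤ G_{n-M} ≤ 2^n`, so `log R_n = -2 log Γ(n/M) + O(n)`; and `log Γ(x) = x log x + O(x)` for `x ≥ 1` (from `Γ(x+1) ≥ ⌊x⌋!`-type bounds and
`N log N - N ≤ log N! ≤ N log N`), so `log R_n = -(2/M) n log n + O(n)` and `|log(R/R')| ≥ |2/M - 2/M'| n log n - C n → ∞`. -/
def S_C4 : Prop := ∀ (P Q : ℂ[X]) (c c' : ℂ) (g g' : ℂ → ℂ) (τ₀ K δ τ₀' K' δ' : ℝ), P.coeff 0 = 0 → Q.coeff 0 = 0 →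
  P.natDegree ≠ Q.natDegree → Branch P c g τ₀ K δ → Branch Q c' g' τ₀' K' δ' →
  ¬ Crit P Q ∧ Tendsto (fun n : ℕ => |Real.log (RR P c g n / RR Q c' g' n)|) atTop atTop

/-! ## X: explicit conditions -/

/-- [X1] a dominating solution excludes cancellation (take `S_R3`, `S_R4` of `StmC` as hypotheses).
Proof: branch data (R3), `M = deg P`, `W_l(E) = (c t λ_l(t))⁻¹`, `t = E^{-1/M}`, `E ≥ E₁`: continuous, distinct, all solutions, `‖W_0‖` minimal (`dom`). `g ∣ M`; put `q = M/g` and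
`L₀ = {l : q ∣ l}` (`g` elements). (1) For `l = q i ∈ L₀`: `ω^{-l} W_0(E)` is a solution of `P(w) = E` (`(ω^{-l})^g = 1` and all exponents are multiples of `g`), it is `≈ (c ω^l t)⁻¹`, so it is `W_l(E)` for
`E` large (the `W_j(E) c t ω^j → 1` are separated). (2) For `l ∉ L₀`, `W_l^g ≠ W_0^g` for `E` large (the quotient tends to `ω^{-lg} ≠ 1`). (3) Let `w₀` be as in `Dominant`; then `w₀^g = W_0^g` (otherwise
`‖W_0‖ ≥ (1+cE^{-θ})‖w₀‖ > ‖w₀‖`, contradicting minimality; `w₀ ≠ 0` as `P.coeff 0 = 0`, `E ≠ 0`), so `‖w₀‖ = ‖W_0‖` and `‖W_l‖ ≥ (1+cE^{-θ})‖W_0‖` for `l ∉ L₀`. Now for `n` with `g ∣ n`: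
`∑_l ∏_{k ≤ n-M} W_l(E_k)⁻¹ = ∑_{l∈L₀} ω^{l(n-M)} ∏ W_0⁻¹ + rest = g ∏ W_0⁻¹ + rest` (`q g = M ∣ l g`, and `g ∣ n - M`, so `ω^{l(n-M)} = 1`), and `|rest| ≤ M ∏‖W_0‖⁻¹ ∏_k (1+cE_k^{-θ})⁻¹`, where
`∏ (1+cE_k^{-θ}) ≥ 1 + c∑_{k=1}^{n-M} E_k^{-θ} → ∞` (`E_k ≤ n²`: for `0 ≤ θ < 1/2` the sum is `≥ (n-M) n^{-2θ}`, for `θ < 0` it is `≥ n-M`). So the modulus is `≥ (g - 1/2)∏‖W_0‖⁻¹ ≥ ½∏‖W_l‖⁻¹`.
(`g ≥ 1`; if `n < M` the products are empty.) Choose `E₀` large so that everything holds for `n ≥ E₀`. -/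
def S_X1 : Prop := ∀ (P : ℂ[X]) (g : ℕ), P.coeff 0 = 0 → P ≠ 0 → 0 < g → SuppMul g P → Dominant g P → NoCancelOn P (evenMul g)

/-- [X2] Lemma on `M`-th roots. Proof: let `ξ = |ξ| e^{iφ}`, `-π < φ ≤ π`, `ξ ≠ 0`. Maximality of the real part among `ξ ω^l` gives `|φ| ≤ π/M` (choose `l` rotating `ξ` into the sector
`|arg| ≤ π/M`: it has the largest cosine among all arguments `φ + 2πl/M`). If `Re(ξω^l) = Re ξ` with `0 < l < M`, then `ξω^l = conj ξ` (same modulus, same real part, different), so `2φ ∈ (2π/M)ℤ`, `ξ ≠ conj ξ`,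
so `2|φ| = 2π/M`, `φ = ±π/M`, and `ξ^M = -|ξ|^M` is not in the slit plane. -/
def S_X2 : Prop := ∀ (M : ℕ) (ξ : ℂ), 1 ≤ M → ξ ^ M ∈ Complex.slitPlane → (∀ l < M, (ξ * om M ^ l).re ≤ ξ.re) →
  ∀ l, 0 < l → l < M → (ξ * om M ^ l).re < ξ.re

/-- [X3] the generic case (take `S_R3`, `S_R4`, `S_X2` as hypotheses).
Proof: branch data; differentiating `g(x)^M = 1 + (a_{M-1}/a_M) x g(x) + O(x²)` at `0`: `g'(0) = a_{M-1}/(M a_M)`. Let `ξ = g'(0) c`: `ξ^M = a_{M-1}^M a_M/(M^M a_M^M)` is in the slit plane.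
`‖λ_l(t)‖ = |g(c ω^l t)| = 1 + t Re(ξω^l) + O(t²)`. By `dom`, `Re(ξω^l) ≤ Re ξ`, so by X2 `Re ξ - Re(ξω^l) ≥ 2δ' > 0` for `0 < l < M`, and `‖λ_l(t)‖ ≤ ‖λ_0(t)‖(1 - δ' t)` for small `t`, i.e.
`‖W_l‖ ≥ ‖W_0‖/(1-δ't) ≥ (1+δ't)‖W_0‖`, `t = E^{-1/M}`, `θ = 1/M ≤ 1/3 < 1/2`. -/
def S_X3 : Prop := ∀ P : ℂ[X], P.coeff 0 = 0 → 3 ≤ P.natDegree →
  P.coeff (P.natDegree - 1) ^ P.natDegree / P.leadingCoeff ^ (P.natDegree - 1) ∈ Complex.slitPlane → Dominant 1 P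

/-- [X4] `P(X^g)`. Proof: the solutions of `P(w^g) = E` are the `g`-th roots of the solutions of `P(v) = E`: take `w₀` with `w₀^g = v₀`; if `w^g ≠ w₀^g` then
`‖w‖^g ≥ (1+cE^{-θ})‖w₀‖^g`, and `(1+x)^{1/g} ≥ 1 + x/(g 2^g)`-type bound for `0 ≤ x ≤ 1`; replace `c` by `min(c,1)` and `θ` by `max(θ,0)` first so that `x = cE^{-θ} ≤ 1` (`E ≥ 1`): then
`(1 + x/(2g))^g ≤ e^{x/2} ≤ 1 + x`. -/
def S_X4 : Prop := ∀ (P : ℂ[X]) (g : ℕ), 0 < g → Dominant 1 P → Dominant g (expand ℂ g P)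

/-- [X5] monomials. Proof: all solutions of `a w^g = E` have the same `w^g`. -/
def S_X5 : Prop := ∀ (a : ℂ) (g : ℕ), 0 < g → a ≠ 0 → Dominant g (C a * X ^ g)

/-- [X6] the sum `∑ E_k^{-1/2}`. Proof: `f(x) = 1/√(x(1-x))` is decreasing on `(0,1/2]` and increasing on `[1/2,1)` with `∫_0^1 f = π` (antiderivative `arcsin(2x-1)`), so the Riemann sums
`(1/n)∑_{k=1}^{n-1} f(k/n)` tend to `π` (monotone comparison on both halves; the extreme terms are `O(n^{-1/2})`); and `(4k(n-k))^{-1/2} = (1/2)(1/n) f(k/n)`. -/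
def S_X6 : Prop := Tendsto (fun n : ℕ => ∑ k ∈ Finset.Icc 1 (n - 2), (En n k) ^ (-(1 / 2) : ℝ)) atTop (𝓝 (Real.pi / 2))

/-- [X7] degree two (take `S_X6` as hypothesis).
Proof: `P = a X² + b X`. Fix `c` with `c² = a`. `L(x) = log(x + √(1+x²))` (principal branches) is analytic near `0`, `L(x) = x + O(x³)` and `e^{L} = x + √(1+x²)`, `e^{-L} = -x + √(1+x²)`. With
`x = b/(2c√E)`, the solutions of `P(w) = E` are `w_± = 1/ζ_±`, `ζ_+ = (c/√E) e^{L(x)}`, `ζ_- = -(c/√E) e^{-L(x)}` (roots of `Eζ² = bζ + a`: sum `b/E = (c/√E)·2x`, product `-a/E`). Continuous and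
distinct for `E ≥ E₀`. For even `n`, with `Σ_n = ∑_{k=1}^{n-2} L(x_k)`: `∏ζ_+ + ∏ζ_- = ∏(c/√E_k)·2cosh Σ_n`, while `|∏ζ_±| = ∏|c/√E_k| e^{±Re Σ_n}`. `Σ_n → (b/2c)(π/2) = πb/(4c) =: κ` (X6, and
`∑ E_k^{-3/2} ≤ max_k E_k^{-1}·∑E_k^{-1/2} → 0`). `cosh κ = 0` iff `κ = iπ(l+1/2)`, iff `b²/(16a) = -(2l+1)²/4`, which is excluded; so `|2cosh Σ_n| ≥ |cosh κ|` for `n` large and
`e^{±Re Σ_n}` is bounded. -/
def S_X7 : Prop := ∀ P : ℂ[X], P.coeff 0 = 0 → P.natDegree = 2 →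
  (∀ l : ℤ, P.coeff 1 ^ 2 ≠ -4 * (2 * (l : ℂ) + 1) ^ 2 * P.coeff 2) → NoCancelOn P (evenMul 1)

/-- [X8] nonnegative coefficients: domination (take `S_R3`, `S_R4` as hypotheses).
Proof: `P(w) = ∑ p_j w^j`, `p_j ≥ 0`, `M = deg P`, `p_M > 0`. For `E > 0` let `x₀ > 0` be the positive solution (`P` is strictly increasing on `[0,∞)`, `P(0) = 0`); `x₀ → ∞`, `E = P(x₀) ≤ C x₀^M` for `x₀ ≥ 1`, so
`x₀^j ≥ c E^{j/M}`. Let `J = {j : p_j > 0, M < 2j}` (`M ∈ J`), `θ = max_{j∈J} (1 - j/M) ∈ [0,1/2)`. Branch data (R3, R4): for `E` large the solutions are `W_l(E) = (c t λ_l(t))⁻¹`, `t = E^{-1/M}`, and `W_l(E) c t → ω^{-l}` as `E → ∞`;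
so the arguments converge. The positive solution is `W_{l₀}` for one `l₀` (for all large `E`, `c ω^{l₀} > 0`). Take `w₀ = x₀`. Let `w = W_l(E)`, `m = l - l₀`. If `ω^{mg} = 1` then `ω^{-m}x₀` is a solution (all exponents are multiples of `g`), close to
`W_l` relative to the distance of the branches, so `w = ω^{-m}x₀` and `w^g = x₀^g`. If `ω^{mg} ≠ 1` there is `j ∈ J` with `ω^{mj} ≠ 1`: otherwise `d = M/gcd(M,m)` divides all `j ∈ J`, hence `g`, so `ω^{mg} = 1`. Then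
`w^j/‖w‖^j → ω^{-mj} ≠ 1`, so `Re(w^j) ≤ (1-κ)‖w‖^j` for `E` large with a constant `κ > 0`. Hence `E = Re P(w) ≤ P(‖w‖) - κp_j‖w‖^j`. As `E = |P(w)| ≤ P(‖w‖)`, `‖w‖ ≥ x₀`; write `‖w‖ = (1+s)x₀`, `s ≥ 0`: `P(‖w‖) ≤ (1+s)^M P(x₀) = (1+s)^M E`, so
`(1+s)^M ≥ 1 + κp_jx₀^j/E ≥ 1 + c'E^{-(1-j/M)} ≥ 1 + c'E^{-θ}` for `E ≥ 1`, and `s ≥ c''E^{-θ}`. -/
def S_X8 : Prop := ∀ (P : ℂ[X]) (p : ℕ → ℝ) (g : ℕ), (∀ j, P.coeff j = (p j : ℂ)) → (∀ j, 0 ≤ p j) → P.coeff 0 = 0 → P ≠ 0 → 0 < g →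
  SuppMul g P → (∀ d : ℕ, (∀ j, P.natDegree < 2 * j → P.coeff j ≠ 0 → d ∣ j) → d ∣ g) → Dominant g P

/-- [X9] nonnegative coefficients: the criterion.
Proof: for `E > 0`, `rmin P E = x_P(E)`, the positive solution (`|P(w)| ≤ P(‖w‖)`, `P` increasing). (←) `M = deg P = deg Q`: the leading coefficients agree, `|P(x) - Q(x)| ≤ C x^{M/2}` for `x ≥ 1`. Say `x = x_P ≤ x' = x_Q` (the other case is
symmetric): `Q(x') - Q(x) = P(x) - Q(x) ≤ C x^{M/2}` and `Q(x') - Q(x) ≥ q_M(x'^M - x^M) ≥ q_M x^M M log(x'/x)`, so `0 ≤ log(x'/x) ≤ C' x^{-M/2} ≤ C''E^{-1/2}`.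
(→) If `deg P ≠ deg Q` then `log(x_P/x_Q) = (1/M - 1/M')log E + O(1)` is not `O(E^{-1/2})`; so the degrees agree. Let `j₀` be the largest index with `p_{j₀} ≠ q_{j₀}`, suppose `M < 2j₀` and `p_{j₀} > q_{j₀}` (else exchange). For large `x`,
`P(x) - Q(x) ≥ c₁x^{j₀} > 0`; with `x = x_P`, `x' = x_Q`: `Q(x') - Q(x) = P(x) - Q(x) ≥ c₁x^{j₀}`, so `x < x'`, and `Q(x') - Q(x) ≤ M Q(x') log(x'/x) = M E log(x'/x)` (the derivative of `s ↦ Q(e^s)` is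
`∑ j q_j e^{js} ≤ M Q(e^s)`). So `log(x'/x) ≥ c₂E^{j₀/M - 1}`, and `O(E^{-1/2})` would give `E^{j₀/M-1/2} = O(1)`, a contradiction. -/
def S_X9 : Prop := ∀ (P Q : ℂ[X]) (p q : ℕ → ℝ), (∀ j, P.coeff j = (p j : ℂ)) → (∀ j, 0 ≤ p j) → (∀ j, Q.coeff j = (q j : ℂ)) → (∀ j, 0 ≤ q j) →
  P.coeff 0 = 0 → Q.coeff 0 = 0 → P ≠ 0 → Q ≠ 0 →
  (Crit P Q ↔ P.natDegree = Q.natDegree ∧ ∀ j, P.natDegree < 2 * j → P.coeff j = Q.coeff j)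

/-- [X10] degrees `1` and `2` (take `S_R3`, `S_R5` as hypotheses).
Proof: with branch data `(c,g)`, `(c',g')`: `log(rmin P E/rmin Q E) = log(‖c'‖/‖c‖) + log‖λ'_0(t)‖ - log‖λ_0(t)‖ = log(‖c'‖/‖c‖) + O(t)`, `t = E^{-1/M}`, and `t ≤ E^{-1/2}` for `M ≤ 2`. So `Crit` iff `‖c‖ = ‖c'‖` iff
`‖a_M‖ = ‖b_M‖`. -/
def S_X10 : Prop := ∀ P Q : ℂ[X], P.coeff 0 = 0 → Q.coeff 0 = 0 → P.natDegree = Q.natDegree → 1 ≤ P.natDegree → P.natDegree ≤ 2 →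
  (Crit P Q ↔ ‖P.leadingCoeff‖ = ‖Q.leadingCoeff‖)

/-- [X11] degrees `3` and `4` (take `S_R3`, `S_R5` as hypotheses).
Proof: as in X3, `g'(0) = a_{M-1}/(M a_M)` and `log‖λ_0(t)‖ = t Re(g'(0)c) + O(t²)`. By `dom`, `Re(g'(0)cω^l) ≤ Re(g'(0)c)` for all `l` (compare the first order terms), so `M Re(g'(0)c) = Re(c a_{M-1}/a_M)` is the maximum over all `M`-th roots of
`a_M` (they are the `cω^l`), that is `muP P`. Hence `log(rmin P E/rmin Q E) = log(‖c'‖/‖c‖) + (t/M)(muP Q - muP P) + O(t²)`, `t = E^{-1/M}`, `t² ≤ E^{-1/2}` (`M ≤ 4`), but `1` and `t` are not `O(E^{-1/2})` (`M ≥ 3`). -/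
def S_X11 : Prop := ∀ P Q : ℂ[X], P.coeff 0 = 0 → Q.coeff 0 = 0 → P.natDegree = Q.natDegree → 3 ≤ P.natDegree → P.natDegree ≤ 4 →
  (Crit P Q ↔ ‖P.leadingCoeff‖ = ‖Q.leadingCoeff‖ ∧ muP P = muP Q)

/-- [X12] degree `≥ 3`: necessary conditions (take `S_R3`, `S_R5` as hypotheses). Proof: the expansion of X11 for every `M ≥ 3`: `t² = O(t^2)`, and `t^0`, `t^1` are not `O(E^{-1/2})`; if
`‖c‖ ≠ ‖c'‖` the limit is not `0`; if `‖c‖ = ‖c'‖` and `muP P ≠ muP Q` the quotient by `t` has a nonzero limit, while `E^{-1/2}/t → 0`. -/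
def S_X12 : Prop := ∀ P Q : ℂ[X], P.coeff 0 = 0 → Q.coeff 0 = 0 → P.natDegree = Q.natDegree → 3 ≤ P.natDegree →
  Crit P Q → ‖P.leadingCoeff‖ = ‖Q.leadingCoeff‖ ∧ muP P = muP Q

/-- [X13] restriction of the index set. Proof: immediate from the definition. -/
def S_X13 : Prop := ∀ (P : ℂ[X]) (S T : Set ℕ), T ⊆ S → NoCancelOn P S → NoCancelOn P T

end HillRoots
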