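import Pool.Agent.Lib.MP_e63cf8_mp.StmC
import Pool.Agent.Lib.MP_e63cf8_mp.StmD

/-!
# MP_e63cf8_mp, statements V, E: oscillation; the criterion is necessary; exactly one cancelling side

Notation: `M = P.natDegree`, `x_l = c ω^l`, `γ_r` the Taylor coefficients of `log g` at `0`.
-/

open Polynomial Filter Topology MeasureTheory Asymptotics

namespace HillRoots

/-- the exponent `q_l(n) = ∑_{1 ≤ r, 2r < M} γ_r (c ω^l)^r B_r n^{1-2r/M}` -/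
noncomputable def qq (M : ℕ) (c : ℂ) (γ : ℕ → ℂ) (B : ℕ → ℝ) (l n : ℕ) : ℂ :=
  ∑ r ∈ (Finset.Ico 1 M).filter (fun r => 2 * r < M),
    γ r * (c * om M ^ l) ^ r * ((B r * (n : ℝ) ^ (1 - 2 * (r : ℝ) / M) : ℝ) : ℂ)

/-- the constant `K_l = γ_{M/2} (c ω^l)^{M/2} π/2` for even `M`, `0` for odd `M` -/
noncomputable def KK (M : ℕ) (c : ℂ) (γ : ℕ → ℂ) (l : ℕ) : ℂ :=
  if Even M then γ (M / 2) * (c * om M ^ l) ^ (M / 2) * (Real.pi / 2) else 0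

/-- `γ, B` describe the products of the branches. -/
def Expo (M : ℕ) (c : ℂ) (g : ℂ → ℂ) (γ : ℕ → ℂ) (B : ℕ → ℝ) : Prop :=
  (∀ r, 1 ≤ r → 2 * r < M → 0 < B r) ∧
  ∀ l < M, Tendsto (fun n : ℕ => (∏ k ∈ Finset.Icc 1 (n - M), g (c * om M ^ l * (tau M n k : ℂ))) *
    Complex.exp (-(qq M c γ B l n + KK M c γ l))) atTop (𝓝 1)

/-- [V1a] Proof: `f(x) = (4x(n-x))^{-s}` decreases on `(0,n/2]` and increases on `[n/2,n)`; `∫_0^n f = B n^{1-2s}`, `B = 4^{-s}∫_0^1 (u(1-u))^{-s} du > 0`. By monotone comparison on both halves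
`|∑_{k=1}^{n-1} f(k) - ∫_0^n f| ≤ 4 f(1) + ∫_0^1 f + ∫_{n-1}^n f ≤ C n^{-s}`; the terms with `n-M < k ≤ n-1` contribute at most `M (4(n-1))^{-s} → 0`. -/
def S_V1a : Prop := ∀ s : ℝ, 0 < s → s < 1 / 2 → ∃ B : ℝ, 0 < B ∧ ∀ M : ℕ, 1 ≤ M →
  Tendsto (fun n : ℕ => ∑ k ∈ Finset.Icc 1 (n - M), (En n k) ^ (-s) - B * (n : ℝ) ^ (1 - 2 * s)) atTop (𝓝 0)

/-- [V1b] Proof: as X6: `(4k(n-k))^{-1/2} = (1/2)(1/n) f(k/n)`, `f(x) = (x(1-x))^{-1/2}`, `∫_0^1 f = π`, monotone comparison; finitely many terms at the end contribute `O(n^{-1/2})`. -/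
def S_V1b : Prop := ∀ M : ℕ, 1 ≤ M →
  Tendsto (fun n : ℕ => ∑ k ∈ Finset.Icc 1 (n - M), (En n k) ^ (-(1 / 2) : ℝ)) atTop (𝓝 (Real.pi / 2))

/-- [V1c] Proof: `E_k ≥ 1`, so we may assume `1/2 < s < 1`; `E_k ≥ 2 n min(k,n-k)`, so the sum is `≤ 2 (2n)^{-s} ∑_{m ≤ n} m^{-s} ≤ C n^{-s} n^{1-s} → 0`. -/
def S_V1c : Prop := ∀ (s : ℝ) (M : ℕ), 1 / 2 < s → 1 ≤ M →
  Tendsto (fun n : ℕ => ∑ k ∈ Finset.Icc 1 (n - M), (En n k) ^ (-s)) atTop (𝓝 0)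

/-- [V2] asymptotics of the products (take `S_V1a`, `S_V1b`, `S_V1c`, `S_U1` as hypotheses).
Proof: `log g` (principal, `g(0) = 1`) is analytic near `0`: `log g(x) = ∑_{r=1}^R γ_r x^r + O(|x|^{R+1})`, `R = ⌊M/2⌋`. With `x = c ω^l τ_k`, `τ_k^r = E_k^{-r/M}`: sum over `k`; for `2r < M` use V1a with `s = r/M` (defines `B r`), for
`2r = M` V1b, and the remainder is `≤ C ∑ E_k^{-(R+1)/M} → 0` by V1c (`(R+1)/M > 1/2`). Exponentiate. For `M ≥ 2`, differentiating `g(x)^M = 1 + (a_{M-1}/a_M) x g(x) + …` at `0`: `M γ_1 = M g'(0) = a_{M-1}/a_M`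
(for `M = 1`, `g = 1` near `0`). -/
def S_V2 : Prop := ∀ (P : ℂ[X]) (c : ℂ) (g : ℂ → ℂ) (τ₀ K δ : ℝ), Branch P c g τ₀ K δ →
  ∃ (γ : ℕ → ℂ) (B : ℕ → ℝ), Expo P.natDegree c g γ B ∧
    (2 ≤ P.natDegree → γ 1 = P.coeff (P.natDegree - 1) / (P.natDegree * P.leadingCoeff))

/-- [V3] comparison of the branches (take `S_U1` as hypothesis).
Proof: `Re (q_l - q_0)(n) = ∑_r e_r n^{1-2r/M}`, `e_r = B_r Re(γ_r (cω^l)^r - γ_r c^r)`. If some `e_r ≠ 0`, let `r₀` be the least such: the sum is `e_{r₀} n^{1-2r₀/M}(1+o(1))`, exponent `> 0`, so it tends to `±∞`. As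
`∏|g(cω^lτ_k)| ≤ ∏|g(cτ_k)|` for `n` large (`dom`, `|ω| = 1`), `Re(q_l - q_0)(n)` is bounded above, so it tends to `-∞`. -/
def S_V3 : Prop := ∀ (P : ℂ[X]) (c : ℂ) (g : ℂ → ℂ) (τ₀ K δ : ℝ) (γ : ℕ → ℂ) (B : ℕ → ℝ), Branch P c g τ₀ K δ → Expo P.natDegree c g γ B →
  ∀ l < P.natDegree,
    (∀ r, 1 ≤ r → 2 * r < P.natDegree → (γ r * (c * om P.natDegree ^ l) ^ r).re = (γ r * c ^ r).re) ∨
    Tendsto (fun n : ℕ => (qq P.natDegree c γ B l n - qq P.natDegree c γ B 0 n).re) atTop atBot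

/-- the generalised polynomial `φ(n) = ∑_a b_a n^a` -/
noncomputable def gp (φ : ℝ →₀ ℝ) (n : ℕ) : ℝ := φ.sum fun a b => b * (n : ℝ) ^ a

/-- the trigonometric sum `∑_φ A_φ e^{iφ(n)}` -/
noncomputable def trig (A : (ℝ →₀ ℝ) →₀ ℂ) (n : ℕ) : ℂ := A.sum fun φ x => x * Complex.exp (Complex.I * (gp φ n : ℂ))

/-- `z` is asymptotic, along the multiples of `D`, to a nonzero trigonometric sum with generalised polynomials as phases (exponents in `(0,1)`). -/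
def Osc (D : ℕ) (z : ℕ → ℂ) : Prop :=
  ∃ A : (ℝ →₀ ℝ) →₀ ℂ, A ≠ 0 ∧ (∀ φ ∈ A.support, ∀ a ∈ φ.support, 0 < a ∧ a < 1) ∧
    ∀ ε : ℝ, 0 < ε → ∀ᶠ n : ℕ in atTop, D ∣ n → ‖z n - trig A n‖ ≤ ε

/-- [V4] mean value zero.
Proof: let `φ(x) = ∑ b_a x^a`, `a₀` the largest exponent with `b ≠ 0`, `p(x) = φ(Dx)`. `p'(x) ~ a₀ b D^{a₀} x^{a₀-1}`, `p''` has constant sign for `x ≥ x₀` (`~ a₀(a₀-1)…`, `0 < a₀ < 1`), so `p'` is monotone there, `|p'(x)| ≤ C x^{a₀-1}` and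
`|p'(x)| ≥ c x^{a₀-1}`. `|∑_{x₀≤m<X} e^{ip(m)} - ∫_{x₀}^X e^{ip}| ≤ ∑ sup|p'| ≤ C X^{a₀}`, and `∫_{x₀}^X e^{ip} = [e^{ip}/(ip')] - ∫ e^{ip} (1/(ip'))' `, bounded by `3/ min|p'| ≤ C X^{1-a₀}` as `1/p'` is monotone. Divide by `X`. -/
def S_V4 : Prop := ∀ (φ : ℝ →₀ ℝ) (D : ℕ), φ ≠ 0 → (∀ a ∈ φ.support, 0 < a ∧ a < 1) → 0 < D →
  Tendsto (fun N : ℕ => (1 / (N : ℂ)) * ∑ m ∈ Finset.range N, Complex.exp (Complex.I * (gp φ (D * m) : ℂ))) atTop (𝓝 0)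

/-- [V5] two oscillating quantities are simultaneously not small (take `S_V4` as hypothesis).
Proof: let `A, A'` be the coefficient functions of `z, z'`, regarded as elements of the group ring `AddMonoidAlgebra ℂ (ℝ →₀ ℝ)`, which has no zero divisors (`ℝ →₀ ℝ` is a torsion free abelian group / rational vector space: `UniqueSums`; or choose the
lexicographically largest elements of the two supports). So `C = A * A' ≠ 0`; for each `n` the map `A ↦ trig A n` is a ring homomorphism, so `z z' - trig C n → 0` along multiples of `D D'` (both factors are bounded). The exponents of `C` are in `(0,1)` (a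
phase may be `0`). Mean square over `n = 2DD'm`: `(1/N)∑_{m<N} |trig C (2DD'm)|² → ∑_φ |C_φ|² > 0` by V4 applied to the differences of distinct phases. Hence `|z z'| ≥ ε₀` for infinitely many such `n`, and as `|z|, |z'| ≤ C₁` eventually, `|z|,|z'| ≥ ε₀/C₁`. -/
def S_V5 : Prop := ∀ (D D' : ℕ) (z z' : ℕ → ℂ), 0 < D → 0 < D' → Osc D z → Osc D' z' →
  ∃ ε : ℝ, 0 < ε ∧ ∃ᶠ n : ℕ in atTop, 2 * D * D' ∣ n ∧ ε ≤ ‖z n‖ ∧ ε ≤ ‖z' n‖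

/-- the class of polynomials treated in W: odd degree, or degree `≥ 3` and `a_{M-1} ≠ 0`, or degree `2` and not exceptional -/
def Tame (P : ℂ[X]) : Prop :=
  Odd P.natDegree ∨ (3 ≤ P.natDegree ∧ P.coeff (P.natDegree - 1) ≠ 0) ∨
  (P.natDegree = 2 ∧ ∀ l : ℤ, P.coeff 1 ^ 2 ≠ -4 * (2 * (l : ℂ) + 1) ^ 2 * P.coeff 2)

/-- [V6] (take `S_V2`, `S_V3`, `S_U1` as hypotheses).
Proof: for `M ∣ n`: `ω^{l(n-M)} = 1`, so `M y_{n-M} = ∑_l ∏_k g(cω^lτ_k) = ∑_l e^{q_l(n)+K_l}(1+o(1))`, `G_{n-M} = |∏ g(cτ_k)| = e^{Re(q_0(n)+K_0)}(1+o(1))`. By V3 the terms with `Re q_l ≠ Re q_0` are negligible, so with `Dom = {l : Re(γ_r(cω^l)^r) = Re(γ_rc^r)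
for all r, 2r < M}`: `y/G = (1/M)∑_{l∈Dom} e^{K_l - Re K_0} e^{i Im q_l(n)} + o(1)` (`Im q_l(n) = ∑_r Im(γ_r(cω^l)^r) B_r n^{1-2r/M}`, exponents in `(0,1)`, distinct for distinct `r`). Let `A` be the corresponding element. `A ≠ 0`: its coefficient at
`φ_0 = Im q_0` is `(1/M)∑ e^{K_l - Re K_0}` over `l ∈ Dom`, `Im q_l = Im q_0`, i.e. `γ_r(cω^l)^r = γ_rc^r` for all `r` with `2r < M`. `M` odd: `K = 0`, so it is a positive integer over `M`. `M ≥ 3`, `a_{M-1} ≠ 0`: `γ_1 ≠ 0` (V2) and `r = 1` gives `ω^l = 1`,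
`l = 0`, one nonzero term. `M = 2`: the coefficient is `(1/2)(e^{K_0}+e^{-K_0})e^{-Re K_0}`, `K_0 = γ_1 c π/2 = b c π/(4a)` (`γ_1 = b/(2a)`), and `cosh K_0 = 0` would give `K_0² = -(π/2)²(2l+1)²`, i.e. `b² c² /(4a²) = -(2l+1)²`, `c² = a`: `b² = -4(2l+1)² a`. -/
def S_V6 : Prop := ∀ (P : ℂ[X]) (c : ℂ) (g : ℂ → ℂ) (τ₀ K δ : ℝ), Branch P c g τ₀ K δ → Tame P →
  Osc P.natDegree (fun n => yy P.natDegree c g n (n - P.natDegree) / (GG P.natDegree c g n (n - P.natDegree) : ℂ))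

/-- [V7] dichotomy for `a_{M-1} ≠ 0`, `M ≥ 3` (take `S_V2`, `S_V3`, `S_U1` as hypotheses).
Proof: `γ_1 ≠ 0`. `Dom` as in V6. For `l ∈ Dom`, `Re(γ_1cω^l) = Re(γ_1c)`, so `ω^l ∈ {1, conj(γ_1c)/(γ_1c)}`: `Dom = {0}` or `Dom = {0,l₁}`. For all `n` (not only `M ∣ n`):
`y_{n-M}/G_{n-M} = (1/M)(e^{K_0-Re K_0}e^{i Im q_0(n)} + ω^{l₁n}e^{K_{l₁}-Re K_0}e^{i Im q_{l₁}(n)}) + o(1)` (the second term absent if `Dom = {0}`). If `Dom = {0}` or `Re K_{l₁} ≠ Re K_0`, the modulus is `≥ ε` eventually. If `Dom = {0,l₁}` and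
`Re K_{l₁} = Re K_0`, then for `2M ∣ n` the modulus is `(1/M)|1 + e^{iψ(n)}| + o(1)`, `ψ(n) = Im(q_{l₁}-q_0)(n) + const`, where `Im(q_{l₁}-q_0)(n) = ∑_r e_r n^{1-2r/M}` with `e_1 ≠ 0` (`Im(γ_1cω^{l₁}) = -Im(γ_1c) ≠ Im(γ_1 c)` as `ω^{l₁} ≠ 1`), so
`|ψ(n)| → ∞` while `ψ(n+2M)-ψ(n) → 0`: the values `ψ(n) mod 2π`, `2M ∣ n`, are dense mod `2π`, so for `0 < δ < 1/M` there are infinitely many `n` with `(1/M)|1+e^{iψ(n)}|` in `(2δ/3, 5δ/6)`. -/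
def S_V7 : Prop := ∀ (P : ℂ[X]) (c : ℂ) (g : ℂ → ℂ) (τ₀ K δ : ℝ), Branch P c g τ₀ K δ → 3 ≤ P.natDegree → P.coeff (P.natDegree - 1) ≠ 0 →
  (∃ ε : ℝ, 0 < ε ∧ ∀ᶠ n : ℕ in atTop, ε * GG P.natDegree c g n (n - P.natDegree) ≤ ‖yy P.natDegree c g n (n - P.natDegree)‖) ∨
  (∃ δ₀ : ℝ, 0 < δ₀ ∧ ∀ d : ℝ, 0 < d → d < δ₀ → ∃ᶠ n : ℕ in atTop, Even n ∧
    d / 2 * GG P.natDegree c g n (n - P.natDegree) ≤ ‖yy P.natDegree c g n (n - P.natDegree)‖ ∧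
    ‖yy P.natDegree c g n (n - P.natDegree)‖ ≤ d * GG P.natDegree c g n (n - P.natDegree))

/-- [N3] regularity from a lower bound (take `S_A5`, `S_U1`, `S_H1` as hypotheses). Proof: as in N2: `‖y‖ ≤ G` by `dom`; A5 with `η ≤ min(1, ε/2)`. -/
def S_N3 : Prop := ∀ (P Q : ℂ[X]) (c : ℂ) (g : ℂ → ℂ) (τ₀ K δ : ℝ) (S : Set ℕ) (ε : ℝ), P.coeff 0 = 0 → Q.coeff 0 = 0 → Branch P c g τ₀ K δ → 0 < ε →
  (∀ᶠ n : ℕ in atTop, n ∈ S → ε * GG P.natDegree c g n (n - P.natDegree) ≤ ‖yy P.natDegree c g n (n - P.natDegree)‖) →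
  Reg (beta P Q) (RR P c g) S

/-- [N4] the converse of N1 (take `S_R4`, `S_U1` as hypotheses).
Proof: `w l E = (c t λ_l(t))⁻¹`, `t = E^{-1/M}`, for `E ≥ E₀`: continuous (`g` is continuous on the ball, `λ_l ≠ 0`), injective in `l` (`sep`), solutions (R4). For `n ≥ E₀`, `1 ≤ k ≤ n-M`, `E_k ≥ 4(n-1) ≥ E₀`, `E_k^{-1/M} = τ_k`; so
`∏(w_l(E_k))⁻¹ = ∏(cτ_k)∏λ_l(τ_k)`, `|∏λ_l(τ_k)| ≤ G_{n-M}` (`dom`) and `|∑_l ∏λ_l| = M‖y‖ ≥ Mε G`. Enlarge `E₀` so that the eventual statement holds for `n ≥ E₀`. -/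
def S_N4 : Prop := ∀ (P : ℂ[X]) (c : ℂ) (g : ℂ → ℂ) (τ₀ K δ : ℝ) (S : Set ℕ) (ε : ℝ), P.coeff 0 = 0 → Branch P c g τ₀ K δ → 0 < ε →
  (∀ᶠ n : ℕ in atTop, n ∈ S → ε * GG P.natDegree c g n (n - P.natDegree) ≤ ‖yy P.natDegree c g n (n - P.natDegree)‖) →
  NoCancelOn P S

/-- [E1] pairs of eigenvectors, with constants independent of `S` (take `S_F1`, `S_F3`, `S_F4`, `S_F5`, `S_F6` of `StmB` as hypotheses).
Proof: identical to F7; `K` is the constant of F5 and only `n₀` depends on `S, R, R'`; `|r₀|² = |a 0|/|b 0|` is the output of F6. -/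
def S_E1 : Prop := ∀ P Q : ℂ[X], P.coeff 0 = 0 → Q.coeff 0 = 0 → ∃ K : ℝ, 0 < K ∧
  ∀ (R R' : ℕ → ℝ) (S : Set ℕ), Reg (beta P Q) R S → Reg (beta Q P) R' S → ∃ n₀ : ℕ, ∀ k : ℕ, 2 * k ∈ S → n₀ ≤ k →
    0 < ‖beta P Q (2 * k) 0‖ ∧ 0 < ‖beta Q P (2 * k) 0‖ ∧
    ∃ (x x' : Hs) (z z' r r' r₀ : ℂ), z ≠ z' ∧ ‖z‖ ≤ 1 ∧ ‖z'‖ ≤ 1 ∧ r₀ ≠ 0 ∧
      ‖r - r₀‖ ≤ ‖r₀‖ / 4 ∧ ‖r' + r₀‖ ≤ ‖r₀‖ / 4 ∧ ‖r₀‖ ^ 2 = ‖beta P Q (2 * k) 0‖ / ‖beta Q P (2 * k) 0‖ ∧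
      x ∈ seqRoot P Q (4 * (k : ℂ) ^ 2 + z) ∧ x' ∈ seqRoot P Q (4 * (k : ℂ) ^ 2 + z') ∧
      ‖x - ee (-(k : ℤ)) - r • ee k‖ ≤ K / k * (1 + ‖r‖) ∧ ‖x' - ee (-(k : ℤ)) - r' • ee k‖ ≤ K / k * (1 + ‖r'‖)

/-- [E2] arbitrarily unequal sizes give bad pairs (take `S_E1` and `S_B7` of `StmA` as hypotheses).
Proof: given `ε` take `C` large and `S, R, R'` from the hypothesis, `k` large with `2k ∈ S`, and the pair of E1. If `log(‖β_P‖/‖β_Q‖) ≤ -C`, `|r₀|² ≤ e^{-C}`, `|r|,|r'| ≤ 2|r₀|` small and `‖x - e_{-k}‖ ≤ |r| + (K/k)(1+|r|) ≤ ε`, the same for `x'`. If it is `≥ C`, divide by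
`r`, `r'` (`|r|, |r'| ≥ |r₀|/2`, `seqRoot` is closed under scalars) and compare with `e_k`. -/
def S_E2 : Prop := ∀ P Q : ℂ[X], P.coeff 0 = 0 → Q.coeff 0 = 0 →
  (∀ C : ℝ, ∃ (S : Set ℕ) (R R' : ℕ → ℝ), S.Infinite ∧ (∀ n ∈ S, Even n) ∧ Reg (beta P Q) R S ∧ Reg (beta Q P) R' S ∧
    ∀ n ∈ S, C ≤ |Real.log (‖beta P Q n 0‖ / ‖beta Q P n 0‖)|) → BadPairs P Q

/-- [E3] exactly one cancelling side, comparable sizes (take `S_E2`, `S_N3`, `S_A5`, `S_U1`, `S_H1` as hypotheses).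
Proof: given `C`, choose `d` small, `S = {n even, n ≥ n₀ : (d/2) G ≤ ‖y‖ ≤ d G}` (for `P`), infinite; `Reg (beta P Q) (RR P c g) S` (N3 with `ε = d/2`) and `Reg (beta Q P) (RR Q c' g') S` (N3 with the lower bound for `Q`). By A5 (with `η = d`, resp. `η = ε/2`), for `n ∈ S` large
`‖beta P Q n 0‖ ≤ 2d RR P n` and `‖beta Q P n 0‖ ≥ (ε/2) RR Q n`; with `|log(RR P/RR Q)| ≤ C₁`: the quotient is `≤ 4d e^{C₁}/ε ≤ e^{-C}` (`n₀` is chosen so that all this holds for `n ≥ n₀`).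
Apply E2 to `(P,Q)` and to `(Q,P)` (the hypothesis of E2 is symmetric: `|log(a/b)| = |log(b/a)|`, exchange `R, R'`). -/
def S_E3 : Prop := ∀ (P Q : ℂ[X]) (c c' : ℂ) (g g' : ℂ → ℂ) (τ₀ K δ τ₀' K' δ' C₁ ε δ₀ : ℝ), P.coeff 0 = 0 → Q.coeff 0 = 0 →
  Branch P c g τ₀ K δ → Branch Q c' g' τ₀' K' δ' →
  (∀ᶠ n : ℕ in atTop, |Real.log (RR P c g n / RR Q c' g' n)| ≤ C₁) → 0 < ε → 0 < δ₀ →
  (∀ᶠ n : ℕ in atTop, Even n → ε * GG Q.natDegree c' g' n (n - Q.natDegree) ≤ ‖yy Q.natDegree c' g' n (n - Q.natDegree)‖) →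
  (∀ d : ℝ, 0 < d → d < δ₀ → ∃ᶠ n : ℕ in atTop, Even n ∧
    d / 2 * GG P.natDegree c g n (n - P.natDegree) ≤ ‖yy P.natDegree c g n (n - P.natDegree)‖ ∧
    ‖yy P.natDegree c g n (n - P.natDegree)‖ ≤ d * GG P.natDegree c g n (n - P.natDegree)) →
  BadPairs P Q ∧ BadPairs Q P

end HillRoots
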