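import Pool.Agent.Lib.MP_e63cf8_mp.Defs

/-!
# MP_e63cf8_mp, statements F: the Feshbach problem and eigenvector pairs

Throughout `ν = nu P Q` and `E_s = 4 s (n - s)`; for `s ≠ 0, n`: `|E_s| = 4|s||n-s| ≥ 4(n-1)`.
-/

open Polynomial Filter Topology MeasureTheory Asymptotics

namespace HillRoots

/-- [F1] existence, decay and uniqueness of the solutions of the Feshbach problem.
Proof: let `n₀` be such that `4(n-1) - Z ≥ 2(ν+1)` and `|E_s + z| ≥ |E_s|/2` for `n ≥ n₀`, `s ≠ 0,n` (as `|E_s| ≥ 4(n-1) ≥ 2Z`). On the bounded sequences `y` with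
`y 0 = y n = 0` the map `y ↦ (s ↦ (Vop (y + p e_0 + q e_n) s)/(E_s+z))` for `s ≠ 0,n` (and `0` for `s = 0,n`) is a contraction with constant
`ν/(2(ν+1)) ≤ 1/2` in the sup norm (bounded functions `ℤ → ℂ`, e.g. `BoundedContinuousFunction` on discrete `ℤ` or `lp _ ∞`); its fixed point gives the
solution for `p = 1, q = 0` (so `C0` is a solution, by `Classical.epsilon_spec`), with `‖x s‖ ≤ 1` for all `s` (sup over `s ≠ 0,n` is at most half of the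
total sup, so the total sup is `max(|p|,|q|)`), and then `‖x s‖ ≤ ν/|E_s + z| ≤ 2ν/(4|s||n-s|)`. Uniqueness: for a solution with `p = q = 0`, `φ = 0` the sup is at
most half of itself, so it is `0`. -/
def S_F1 : Prop := ∀ (P Q : ℂ[X]) (Z : ℝ), ∃ (n₀ : ℕ) (K : ℝ), 0 < K ∧ ∀ n : ℕ, n₀ ≤ n → ∀ z : ℂ, ‖z‖ ≤ Z →
  Sol P Q n z 1 0 0 (C0 P Q n z) ∧
  (∀ s : ℤ, s ≠ 0 → s ≠ n → ‖C0 P Q n z s‖ ≤ K / (|(s : ℝ)| * |(n : ℝ) - s|)) ∧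
  (∀ x : ℤ → ℂ, Sol P Q n z 0 0 0 x → x = 0)

/-- [F2] reflection `s ↦ n - s` exchanges `P` and `Q`.
Proof: `E_{n-s} = E_s`, and `Vop Q P (x ∘ (n - ·)) s = Vop P Q x (n - s)` (unfold, commute the two sums). -/
def S_F2 : Prop := ∀ (P Q : ℂ[X]) (n : ℕ) (z p q : ℂ) (φ x : ℤ → ℂ), Sol P Q n z p q φ x →
  Sol Q P n z q p (fun s => φ (n - s)) (fun s => x (n - s))

/-- [F3] the diagonal entries agree (take `S_F1`, `S_F2` as hypotheses).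
Proof: let `x = C0 P Q n z` and `y s = C0 Q P n z (n - s)`, a solution for `(P,Q)` with `y 0 = 0`, `y n = 1` (F2). Both are bounded with
`|x_s|, |y_s| ≤ K/(|s||n-s|)` off `{0,n}`, so summable. Consider `Σ = ∑_s (Vop P Q x s) y_{n-s} `. Reindexing (`t = s ∓ j`)
`∑_s (Vop P Q x s) y_{n-s} = ∑_t x_t (Vop P Q y (n-t))` [since `∑_s v_j x_{s-j} y_{n-s} = ∑_t x_t v_j y_{n-t-j}`]. Insert the equations: the left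
side is `∑_{s≠0,n} (E_s+z) x_s y_{n-s} + (Vop x 0) y_n + (Vop x n) y_0 = A + Vop P Q x 0`, the right side
`∑_{t ≠ 0,n} x_t (E_{n-t}+z) y_{n-t} + x_0 (Vop y n) + x_n (Vop y 0) = A + Vop P Q y n` with the same absolutely convergent
`A = ∑_{s≠0,n} (E_s+z) x_s y_{n-s}` (terms `O(1/(|s||n-s|))²·|E_s|`). So `alpha P Q n z = Vop P Q y n = Vop Q P (C0 Q P n z) 0 = alpha Q P n z`. -/
def S_F3 : Prop := ∀ (P Q : ℂ[X]) (Z : ℝ), ∃ n₀ : ℕ, ∀ n : ℕ, n₀ ≤ n → ∀ z : ℂ, ‖z‖ ≤ Z → alpha P Q n z = alpha Q P n z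

/-- [F4] bounds for `alpha` and `beta` (take `S_F1` as hypothesis).
Proof: `P.coeff 0 = Q.coeff 0 = 0`, so `alpha = ∑_{j≥1} P_j x_{-j} + ∑_{j≥1} Q_j x_j` with `x = C0`, indices `0 < |s| ≤ D`, `D` the maximum of the degrees; for `n ≥ 2D`,
`|x_s| ≤ K/(|s||n-s|) ≤ 2K/n`. `beta = ∑ P_j x_{n-j} + ∑ Q_j x_{n+j}`: indices `0 < |s-n| ≤ D`, again `|x_s| ≤ 2K/n`. Lipschitz: `w = C0(z) - C0(z')` has
`w_0 = w_n = 0` and `(E_s + z) w_s = Vop w s - (z-z') C0(z')_s` off `{0,n}`, `|C0(z')_s| ≤ K/(|s||n-s|) ≤ K`, so with `S = sup|w|` (finite):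
with `|E_s+z| ≥ n` for `n` large: `S ≤ (νS + K|z-z'|)/n`, so `S ≤ 2K|z-z'|/n` for `n ≥ 2ν`; hence
`|alpha(z)-alpha(z')| ≤ ν S`. -/
def S_F4 : Prop := ∀ (P Q : ℂ[X]) (Z : ℝ), P.coeff 0 = 0 → Q.coeff 0 = 0 → ∃ (n₀ : ℕ) (K : ℝ), 0 < K ∧ ∀ n : ℕ, n₀ ≤ n →
  ∀ z z' : ℂ, ‖z‖ ≤ Z → ‖z'‖ ≤ Z →
    ‖alpha P Q n z‖ ≤ K / n ∧ ‖beta P Q n z‖ ≤ K / n ∧ ‖alpha P Q n z - alpha P Q n z'‖ ≤ K / n * ‖z - z'‖

/-- the sequence with block components `p` at `-k`, `q` at `k` -/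
noncomputable def vec (P Q : ℂ[X]) (k : ℕ) (z p q : ℂ) (s : ℤ) : ℂ :=
  p * C0 P Q (2 * k) z (s + k) + q * C0 Q P (2 * k) z (k - s)

/-- [F5] eigenvectors (take `S_F1`, `S_F2`, `S_F3` as hypotheses).
Proof: put `n = 2k`, `x = vec P Q k z p q`, `c s = x (s - k) = p C0 P Q n z s + q C0 Q P n z (n - s)`: by F1, F2 a solution of the Feshbach problem with
`c 0 = p`, `c n = q`. Since `4k² - 4(s-k)² = 4s(2k-s) = E_s`, the equation `Top P Q x (s-k) = (4k²+z) x (s-k)` is `(E_s + z) c_s = Vop P Q c s` (translation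
invariance of `Vop`), which holds for `s ≠ 0, n`. For `s = 0`: it is `z p = Vop c 0 = p α + q Vop Q P (C0 Q P n z) n = pα + q β_{QP}`
(with F2 for `Vop`: `Vop P Q (C0 Q P n z (n - ·)) 0 = Vop Q P (C0 Q P n z) n`), and for `s = n`: `z q = Vop c n = p β_{PQ} + q Vop Q P (C0 Q P n z) 0 =
p β_{PQ} + q α` by F3. Both hold by hypothesis. `x ∈ ℓ²` and the norm bound: `|C0_s| ≤ K/(|s||n-s|)` off `{0,n}`, and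
`1/(|s||n-s|) ≤ (1/n)(1/|s| + 1/|n-s|)` (check `0<s<n`, `s<0`, `s>n`), so the `ℓ²` norm of `C0` off `{0,n}` is `≤ K'/n`. Hence
`‖x - p e_{-k} - q e_k‖ ≤ (K'/n)(|p|+|q|)`; `Tsh x = 0` for `μ = 4k²+z`, so `x ∈ seqRoot`. -/
def S_F5 : Prop := ∀ (P Q : ℂ[X]) (Z : ℝ), ∃ (n₀ : ℕ) (K : ℝ), 0 < K ∧ ∀ k : ℕ, n₀ ≤ k → 1 ≤ k →
  ∀ z p q : ℂ, ‖z‖ ≤ Z →
    (z - alpha P Q (2 * k) z) * p = beta Q P (2 * k) z * q → (z - alpha P Q (2 * k) z) * q = beta P Q (2 * k) z * p →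
    ∃ x : Hs, x ∈ seqRoot P Q (4 * (k : ℂ) ^ 2 + z) ∧ (∀ s, x s = vec P Q k z p q s) ∧
      ‖x - p • ee (-(k : ℤ)) - q • ee k‖ ≤ K / k * (‖p‖ + ‖q‖)

/-- [F6] the fixed point lemma.
Proof: let `B` be the closed unit disc. `S_a(z) = (a(z)/a 0)^{1/2}` (principal branch, `a(z)/a(0) ∈ ball 1 (1/16)`): `S_a² = a/a(0)`, `|S_a - 1| ≤ 1/16`
(as `|√w - 1| = |w-1|/|√w+1| ≤ |w-1|`, `Re √w ≥ 0`), and `|S_a(z)-S_a(z')| = |w-w'|/|√w+√w'| ≤ |w-w'| ≤ |z-z'|/16`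
(`|√w + √w'| ≥ Re ≥ 15/16·2 ≥ 1`). The same for `b`. Let `A, B₀` be square roots of `a 0`, `b 0`
(`|A|, |B₀| ≤ 1/2`), `q(z) = A B₀ S_a(z) S_b(z)`, so `q² = a b`, `|q| ≤ (1/4)(17/16)² ≤ 1/3`, `Lip q ≤ (1/4)·2·(1/16)(17/16) ≤ 1/16`. So `z ↦ α(z) ± q(z)` maps `B`
into itself (`1/8 + 1/3 ≤ 1`) and is a contraction (`1/8+1/16 < 1`): fixed points `z₊`, `z₋`; if they were equal, `q = -q`, `q(z₊)² = a b = 0`, but `a, b ≠ 0`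
(`|a/a(0) - 1| ≤ 1/16`). Put `r₀ = A/B₀`, `r₊ = q(z₊)/b(z₊) = (A/B₀) S_a/S_b (z₊)`, `r₋ = -q(z₋)/b(z₋)`. Then `(z₊ - α) = q = b r₊`,
`(z₊ - α) r₊ = q²/b = a`, the same for `z₋`; `|S_a/S_b - 1| ≤ (2/16)/(15/16) ≤ 1/4`, and `|r₀|² = |a 0|/|b 0|`. -/
def S_F6 : Prop := ∀ (a b α : ℂ → ℂ), a 0 ≠ 0 → b 0 ≠ 0 → ‖a 0‖ ≤ 1 / 4 → ‖b 0‖ ≤ 1 / 4 →
  (∀ z z', ‖z‖ ≤ 1 → ‖z'‖ ≤ 1 → ‖α z‖ ≤ 1 / 8 ∧ ‖α z - α z'‖ ≤ 1 / 8 * ‖z - z'‖ ∧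
    ‖a z - a z'‖ ≤ 1 / 16 * ‖a 0‖ * ‖z - z'‖ ∧ ‖b z - b z'‖ ≤ 1 / 16 * ‖b 0‖ * ‖z - z'‖) →
  ∃ z z' r r' r₀ : ℂ, z ≠ z' ∧ ‖z‖ ≤ 1 ∧ ‖z'‖ ≤ 1 ∧ r₀ ≠ 0 ∧ ‖r - r₀‖ ≤ ‖r₀‖ / 4 ∧ ‖r' + r₀‖ ≤ ‖r₀‖ / 4 ∧
    ‖r₀‖ ^ 2 = ‖a 0‖ / ‖b 0‖ ∧
    z - α z = b z * r ∧ (z - α z) * r = a z ∧ z' - α z' = b z' * r' ∧ (z' - α z') * r' = a z'

/-- [F7] pairs of eigenvectors along `S` (take `S_F1`, `S_F3`, `S_F4`, `S_F5`, `S_F6` as hypotheses).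
Proof: let `ε, ε'` be the constants of the two `Reg`'s. For `n = 2k ∈ S` large apply F6 with `a = beta P Q n`, `b = beta Q P n`, `α = alpha P Q n`: by F4
`|α| ≤ K/n ≤ 1/8`, `Lip α ≤ 1/8`, `|a 0|, |b 0| ≤ K/n ≤ 1/4`; by `Reg` with `η = ε/16`: `|a z - a z'| ≤ (ε/16)|z-z'|R ≤ (1/16)|a 0||z-z'|` and `a 0 ≠ 0`; the same for
`b`. Then F5 with `p = 1`, `q = r`: `(z - α)·1 = b r`, `(z-α) r = a·1`, gives `x`; the same for `z', r'`. Finally `|r₀|² = |a 0|/|b 0|` and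
`ε R ≤ |a 0| ≤ 2R`, `ε' R' ≤ |b 0| ≤ 2R'`. -/
def S_F7 : Prop := ∀ (P Q : ℂ[X]) (R R' : ℕ → ℝ) (S : Set ℕ), P.coeff 0 = 0 → Q.coeff 0 = 0 →
  Reg (beta P Q) R S → Reg (beta Q P) R' S →
  ∃ (K : ℝ) (n₀ : ℕ), 0 < K ∧ ∀ k : ℕ, 2 * k ∈ S → n₀ ≤ k → 0 < R (2 * k) ∧ 0 < R' (2 * k) ∧
    ∃ (x x' : Hs) (z z' r r' r₀ : ℂ), z ≠ z' ∧ ‖z‖ ≤ 1 ∧ ‖z'‖ ≤ 1 ∧ r₀ ≠ 0 ∧
      ‖r - r₀‖ ≤ ‖r₀‖ / 4 ∧ ‖r' + r₀‖ ≤ ‖r₀‖ / 4 ∧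
      ‖r₀‖ ^ 2 ≤ K * (R (2 * k) / R' (2 * k)) ∧ R (2 * k) / R' (2 * k) ≤ K * ‖r₀‖ ^ 2 ∧
      x ∈ seqRoot P Q (4 * (k : ℂ) ^ 2 + z) ∧ x' ∈ seqRoot P Q (4 * (k : ℂ) ^ 2 + z') ∧
      ‖x - ee (-(k : ℤ)) - r • ee k‖ ≤ K / k * (1 + ‖r‖) ∧ ‖x' - ee (-(k : ℤ)) - r' • ee k‖ ≤ K / k * (1 + ‖r'‖)

/-- [F8] double eigenvalues when `g ∤ 2k` (take `S_F1`, `S_F3`, `S_F4`, `S_F5` as hypotheses).
Proof: let `n = 2k`, `x = C0 P Q n z`. The sequence `x'_s = x_s` for `g ∣ s`, `0` otherwise, is again a solution of the Feshbach problem with `x'_0 = 1`, `x'_n = 0`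
(`Vop` only couples `s` with `s ± j`, `g ∣ j`, and `g ∤ n`), so `x - x' = 0` by uniqueness: `x_s = 0` for `g ∤ s`. Hence
`beta P Q n z = ∑ P_j x_{n-j} + ∑ Q_j x_{n+j} = 0` (`g ∤ n ± j`), and in the same way `beta Q P n z = 0`. `z ↦ alpha P Q n z` is a contraction of the closed unit disc
(F4, `n` large), with a fixed point `z`; F5 with `(p,q) = (1,0)` and `(0,1)`. -/
def S_F8 : Prop := ∀ (P Q : ℂ[X]) (g : ℕ), P.coeff 0 = 0 → Q.coeff 0 = 0 → SuppMul g P → SuppMul g Q →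
  ∃ (K : ℝ) (n₀ : ℕ), 0 < K ∧ ∀ k : ℕ, ¬ g ∣ 2 * k → n₀ ≤ k →
    ∃ (x x' : Hs) (z : ℂ), ‖z‖ ≤ 1 ∧ x ∈ seqRoot P Q (4 * (k : ℂ) ^ 2 + z) ∧ x' ∈ seqRoot P Q (4 * (k : ℂ) ^ 2 + z) ∧
      ‖x - ee (-(k : ℤ))‖ ≤ K / k ∧ ‖x' - ee k‖ ≤ K / k

/-- [F9] one-sided potentials: the only eigenvalue near `4k²` is `4k²` (take `S_F1`, `S_F2` as hypotheses).
Proof: let `Z = K`. Let `x ∈ Hs`, `x ≠ 0`, `Top x = (4k² + z) x`, `|z| ≤ K`, and `c s = x (s - k)`, `n = 2k`, a solution of the Feshbach problem with `p = c 0`, `q = c n`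
for which also `z c_0 = Vop c 0`, `z c_n = Vop c n`. Suppose `z ≠ 0`. Case `Q = 0` (so `Vop c s = ∑_{j≥1} P_j c_{s-j}`): first `c_s = 0` for `s < 0`: for
`s < 0`, `|c_s| ≤ ν sup_{t<0}|c_t|/|E_s+z| ≤ ½ sup_{t<0}|c_t|`. Then `z c_0 = Vop c 0 = 0`, so `c_0 = 0`. Then `c_s = 0` for `0 < s < n` by induction. Then
`z c_n = Vop c n = 0`, so `c_n = 0`. So `c` is a solution with `p = q = 0`, hence `c = 0` by F1. Contradiction. Case `P = 0`: reflect (F2), or the same argument from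
the right. -/
def S_F9 : Prop := ∀ (P Q : ℂ[X]) (K : ℝ), P.coeff 0 = 0 → Q.coeff 0 = 0 → (P = 0 ∨ Q = 0) →
  ∃ n₀ : ℕ, ∀ k : ℕ, n₀ ≤ k → ∀ (z : ℂ) (x : Hs), ‖z‖ ≤ K → x ≠ 0 →
    (∀ s, Top P Q x s = (4 * (k : ℂ) ^ 2 + z) * x s) → z = 0

/-- [F10] one-sided potentials have good pairs (take `S_B3`, `S_B5`, `S_B6`, `S_F9` as hypotheses; statements in `StmA`).
Proof: take `N, W, Y` with `BD` (B3, `N ≥ N₀` of B5), `k > N` large. By B6 for `m = k` the space `W span(e_k,e_{-k})` is spanned by two root vectors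
`ψ_i ∈ seqRoot (ev_i)`, nonzero; by B5 `|4k² - ev_i| ≤ 2ν` (the block of `ψ_i` is `{±k}`). If `ψ ∈ seqRoot μ` is nonzero there is a nonzero true eigenvector
`Tsh^[r] ψ` (last nonzero iterate, in `Hs`), so `μ - 4k² = 0` by F9 (`K = 2ν`) for `k ≥ n₀`. So both `ev_i = 4k²` and `W e_k, W e_{-k} ∈ seqRoot (4k²)` (a
submodule). Take `f = W e_{-k}`, `g = W e_k`, `a = b = 4k²`, `p = q' = 1`, `q = p' = 0` and `near`. -/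
def S_F10 : Prop := ∀ P Q : ℂ[X], P.coeff 0 = 0 → Q.coeff 0 = 0 → (P = 0 ∨ Q = 0) → GoodPairs P Q

/-- [F11] comparable sizes give good pairs (take `S_F7`, `S_F8` as hypotheses).
Proof: for `k` with `g ∣ 2k`, `2k ∈ evenMul g`: F7 gives `x, x', r, r', r₀` with `K⁻¹e^{-C} ≤ |r₀|² ≤ K e^{C}`; take `f = x`, `g = x'`, `(p,q) = (1,r)`, `(p',q') = (1,r')`:
`|pq'-p'q| = |r'-r| ≥ 2|r₀| - |r₀|/2 ≥ |r₀|`, `|r|,|r'| ≤ 2|r₀|`. For `g ∤ 2k`: F8, `(p,q) = (1,0)`, `(p',q') = (0,1)`. `|z| ≤ 1` bounds the eigenvalues. Enlarge the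
constant. -/
def S_F11 : Prop := ∀ (P Q : ℂ[X]) (R R' : ℕ → ℝ) (g : ℕ) (C : ℝ), P.coeff 0 = 0 → Q.coeff 0 = 0 →
  SuppMul g P → SuppMul g Q → Reg (beta P Q) R (evenMul g) → Reg (beta Q P) R' (evenMul g) →
  (∀ᶠ n in atTop, |Real.log (R n / R' n)| ≤ C) → GoodPairs P Q

/-- [F12] incomparable sizes give bad pairs (take `S_F7` as hypothesis).
Proof: along `S` (infinite, of even numbers) `R/R' → 0` or `∞` along a subsequence: given `ε`, choose `n = 2k ∈ S` large with `|log(R/R')| ≥ L`, `L` large. If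
`log(R/R') ≤ -L`: `|r₀|² ≤ K e^{-L}`, so `|r|,|r'| ≤ 2|r₀|` are small, and `‖x - e_{-k}‖ ≤ |r| + (K/k)(1+|r|) ≤ ε`, the same for `x'`; `a = 4k²+z`, `b = 4k²+z'`,
`j = -k`. If `log(R/R') ≥ L`: `|r₀|² ≥ e^L/K`, so `|r|, |r'| ≥ |r₀|/2` are large; take `f = r⁻¹ x`, `g = r'⁻¹ x'` (`seqRoot` is closed under scalars):
`‖f - e_k‖ ≤ 1/|r| + (K/k)(1+|r|)/|r| ≤ ε`, `j = k`. -/
def S_F12 : Prop := ∀ (P Q : ℂ[X]) (R R' : ℕ → ℝ) (S : Set ℕ), P.coeff 0 = 0 → Q.coeff 0 = 0 →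
  S.Infinite → (∀ n ∈ S, Even n) → Reg (beta P Q) R S → Reg (beta Q P) R' S →
  Tendsto (fun n => |Real.log (R n / R' n)|) atTop atTop → BadPairs P Q

end HillRoots
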