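import Pool.Agent.Lib.MP_e63cf8_mp.StmC
import Pool.Agent.Lib.MP_e63cf8_mp.StmD

/-!
# MP_e63cf8_mp, statements Y: the criterion in algebraic form, for every degree

For `P = a_M X^M + … + a_1 X` let `A(t) = ∑_{j=1}^M (a_j/a_M) t^{M-j}` (`= P.reverse / a_M`, `A(0) = 1`).
`gam P r = (1/r) [t^r] A(t)^{r/M}`, a polynomial in `a_{M-1}/a_M, …, a_{M-r}/a_M`.
-/

open Polynomial Filter Topology MeasureTheory Asymptotics

namespace HillRoots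

/-- `γ_r(P) = (1/r) [t^r] A(t)^{r/M}`, `A^{s} = ∑_i binom(s,i) (A-1)^i`. -/
noncomputable def gam (P : ℂ[X]) (r : ℕ) : ℂ :=
  (1 / (r : ℂ)) * ∑ i ∈ Finset.range (r + 1),
    (∏ k ∈ Finset.range i, ((r : ℂ) / P.natDegree - k)) / (i.factorial : ℂ) *
      ((C P.leadingCoeff⁻¹ * P.reverse - 1) ^ i).coeff r

/-- The vector `(Re (γ_r c^r))_{1 ≤ r < M/2}`, in lexicographic order. -/
noncomputable def lexvec (P : ℂ[X]) (c : ℂ) : Lex (Fin ((P.natDegree - 1) / 2) → ℝ) :=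
  toLex fun i => (gam P (i + 1) * c ^ ((i : ℕ) + 1)).re

/-- `c` is an `M`-th root of `a_M` for which this vector is (lexicographically) largest. -/
def IsTop (P : ℂ[X]) (c : ℂ) : Prop :=
  c ^ P.natDegree = P.leadingCoeff ∧ ∀ c' : ℂ, c' ^ P.natDegree = P.leadingCoeff → lexvec P c' ≤ lexvec P c

/-- [Y1] Lagrange inversion for the branch function.
Proof: let `φ(t) = A(t)^{1/M}` (principal, analytic near `0`, `φ(0) = 1`), `Ψ(t) = t/φ(t)`. The hypothesis on `g` says `(g x)^M = A(x g x)`, and `g 0 = 1`, so by continuity `g x = φ(x g x)` near `0`; with `G(x) = x g(x)`, `Ψ(G(x)) = x`, and `G` is the local inverse of `Ψ`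
(`Ψ'(0) = 1`), so `G(Ψ(t)) = t`, `g(Ψ(t)) = t/Ψ(t) = φ(t)` near `0`. Let `L = log ∘ g = ∑_{j≥1} l_j x^j` near `0` (`L(0) = 0`). Differentiating `L(Ψ(t)) = log φ(t)` and `log Ψ = log t - log φ`: for `t ≠ 0` near `0`,
`1/t = Ψ'/Ψ + φ'/φ = Ψ'/Ψ + L'(Ψ)Ψ'`. Multiply by `Ψ^{-r} = φ^r t^{-r}` (`r ≥ 1`) and integrate over a small circle: `∮ φ^r t^{-r-1} dt = ∮ Ψ^{-r-1}Ψ' dt + ∮ Ψ^{-r}L'(Ψ)Ψ' dt`. The first integrand is the derivative of `-Ψ^{-r}/r`, so its integral is `0`. Write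
`L'(x) = ∑_{j≤r} j l_j x^{j-1} + x^r H(x)`, `H` analytic: `Ψ^{-r}L'(Ψ)Ψ' = ∑_{j≤r} j l_j Ψ^{j-1-r}Ψ' + H(Ψ)Ψ'`; for `j < r` the term is a derivative, `H(Ψ)Ψ'` is analytic, and `∮Ψ'/Ψ = ∮ dt/t - ∮φ'/φ = 2πi`. So `∮ φ^r t^{-r-1}dt = 2πi r l_r`, that is
`l_r = (1/r)[t^r] φ^r = (1/r)[t^r] A^{r/M}`, and `A^{s} = (1+(A-1))^{s} = ∑_{i≤r} binom(s,i)(A-1)^i + O(t^{r+1})` (`A - 1 = O(t)`), which gives `l_r = gam P r` (`C a_M⁻¹ * P.reverse - 1 = A - 1` since `P.coeff 0 = 0`: `P.reverse = ∑_j a_j X^{M-j}`). The claim is the Taylor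
expansion of `L` of order `R`. (Any other proof of the Lagrange inversion formula is fine, for instance with formal power series.) -/
def S_Y1 : Prop := ∀ (P : ℂ[X]) (g : ℂ → ℂ) (ρ : ℝ), P.coeff 0 = 0 → 1 ≤ P.natDegree → 0 < ρ → AnalyticOnNhd ℂ g (Metric.ball 0 ρ) → g 0 = 1 →
  (∀ x : ℂ, ‖x‖ < ρ → g x ^ P.natDegree =
    ∑ j ∈ Finset.Icc 1 P.natDegree, P.coeff j / P.leadingCoeff * (x * g x) ^ (P.natDegree - j)) →
  ∀ R : ℕ, ∃ (C r₀ : ℝ), 0 < r₀ ∧ ∀ x : ℂ, ‖x‖ ≤ r₀ →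
    ‖Complex.log (g x) - ∑ r ∈ Finset.Icc 1 R, gam P r * x ^ r‖ ≤ C * ‖x‖ ^ (R + 1)

/-- [Y2] the modulus of a branch (take `S_Y1` as hypothesis).
Proof: `‖λ_l(t)‖ = ‖g(cω^lt)‖`, `log‖g(x)‖ = Re log g(x)`; Y1 with `R = (M-1)/2` (all `r` with `1 ≤ r`, `2r < M`), `x = cω^lt`, `‖x‖ = ‖c‖t` (Branch.eqn gives the equation on a ball: take `ρ = ‖c‖τ₀`). -/
def S_Y2 : Prop := ∀ (P : ℂ[X]) (c : ℂ) (g : ℂ → ℂ) (τ₀ K δ : ℝ), P.coeff 0 = 0 → Branch P c g τ₀ K δ →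
  ∃ (C t₀ : ℝ), 0 < t₀ ∧ ∀ l < P.natDegree, ∀ t ∈ Set.Icc 0 t₀,
    |Real.log ‖br P.natDegree c g l t‖ -
      ∑ r ∈ Finset.Icc 1 ((P.natDegree - 1) / 2), (gam P r * (c * om P.natDegree ^ l) ^ r).re * t ^ r| ≤
      C * t ^ ((P.natDegree - 1) / 2 + 1)

/-- [Y3] the dominating branch is the lexicographically largest (take `S_Y2` as hypothesis).
Proof: every `c'` with `c'^M = a_M` is `cω^l`, `l < M`. By `dom`, `log‖λ_l(t)‖ ≤ log‖λ_0(t)‖`, so `∑_{r≤R} e_r t^r ≤ C't^{R+1}` for small `t`, `e_r = Re(γ_r(c')^r) - Re(γ_rc^r)`, `R = (M-1)/2`. If not all `e_r` vanish, the first nonzero one is negative, which is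
`lexvec P c' < lexvec P c`; otherwise they are equal. -/
def S_Y3 : Prop := ∀ (P : ℂ[X]) (c : ℂ) (g : ℂ → ℂ) (τ₀ K δ : ℝ), P.coeff 0 = 0 → Branch P c g τ₀ K δ → IsTop P c

/-- [Y4] the criterion in terms of the expansions (take `S_R5` of `StmC` and `S_Y2` as hypotheses).
Proof: by R5, for `E` large, `t = E^{-1/M}`: `log(rmin P E/rmin Q E) = log(‖c'‖/‖c‖) + log‖λ'_0(t)‖ - log‖λ_0(t)‖ = log(‖c'‖/‖c‖) + ∑_{r≤R}(Re(γ'_rc'^r) - Re(γ_rc^r))t^r + O(t^{R+1})`, `R = (M-1)/2`, and `t^{R+1} = O(E^{-1/2})` since `2(R+1) ≥ M`, while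
`t^r/E^{-1/2} → ∞` for `2r < M`. So it is `O(E^{-1/2})` iff all coefficients vanish (look at the first nonzero one), i.e. `‖c‖ = ‖c'‖`, equivalently `‖a_M‖ = ‖b_M‖`, and equality of the vectors. -/
def S_Y4 : Prop := ∀ (P Q : ℂ[X]) (c c' : ℂ) (g g' : ℂ → ℂ) (τ₀ K δ τ₀' K' δ' : ℝ), P.coeff 0 = 0 → Q.coeff 0 = 0 → P.natDegree = Q.natDegree →
  Branch P c g τ₀ K δ → Branch Q c' g' τ₀' K' δ' →
  (Crit P Q ↔ ‖P.leadingCoeff‖ = ‖Q.leadingCoeff‖ ∧ ∀ r, 1 ≤ r → 2 * r < P.natDegree → (gam P r * c ^ r).re = (gam Q r * c' ^ r).re)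

/-- [Y5] the algebraic criterion (take `S_R3`, `S_C4`, `S_Y3`, `S_Y4` as hypotheses).
Proof: branch data exist for both (R3; degrees `≥ 1` as the polynomials are nonzero without constant term). If the degrees differ both sides are false (C4). If they agree: `IsTop P c`, `IsTop Q c'` (Y3); any two tops of the same polynomial have the same vector
(`≤` both ways in a linear order), so the right side is equivalent to `‖a_M‖ = ‖b_M‖` and equality of the vectors for these `c, c'`, which is Y4. -/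
def S_Y5 : Prop := ∀ P Q : ℂ[X], P.coeff 0 = 0 → Q.coeff 0 = 0 → P ≠ 0 → Q ≠ 0 →
  (Crit P Q ↔ P.natDegree = Q.natDegree ∧ ‖P.leadingCoeff‖ = ‖Q.leadingCoeff‖ ∧
    ∃ c c' : ℂ, IsTop P c ∧ IsTop Q c' ∧ ∀ r, 1 ≤ r → 2 * r < P.natDegree → (gam P r * c ^ r).re = (gam Q r * c' ^ r).re)

end HillRoots
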