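import Pool.Agent.Lib.MP_e63cf8_mp.StmE
import Pool.Agent.Lib.MP_e63cf8_mp.StmF

/-!
# MP_e63cf8_mp, statements Z: algebraic conditions for the absence of cancellation
-/

open Polynomial Filter Topology MeasureTheory Asymptotics

namespace HillRoots

/-- The algebraic criterion: equal degrees `M`, `|a_M| = |b_M|`, and the largest vectors `(Re(γ_r c^r))_{1 ≤ r < M/2}` of the two sides agree. -/
def AlgCrit (P Q : ℂ[X]) : Prop :=
  P.natDegree = Q.natDegree ∧ ‖P.leadingCoeff‖ = ‖Q.leadingCoeff‖ ∧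
    ∃ c c' : ℂ, IsTop P c ∧ IsTop Q c' ∧ ∀ r, 1 ≤ r → 2 * r < P.natDegree → (gam P r * c ^ r).re = (gam Q r * c' ^ r).re

/-- All top roots have the same `g`-th power. -/
def UniqueTop (g : ℕ) (P : ℂ[X]) : Prop := ∀ c c₁ : ℂ, IsTop P c → IsTop P c₁ → c ^ g = c₁ ^ g

/-- `P = a₂ X² + a₁ X` with `a₁² ≠ -4 (2l+1)² a₂` for all integers `l`. -/
def NonExc2 (P : ℂ[X]) : Prop :=
  P.natDegree = 2 ∧ ∀ l : ℤ, P.coeff 1 ^ 2 ≠ -4 * (2 * (l : ℂ) + 1) ^ 2 * P.coeff 2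

/-- Two different top roots whose branches have asymptotically the same modulus. -/
def Cancels (P : ℂ[X]) : Prop :=
  ∃ c c₁ : ℂ, IsTop P c ∧ IsTop P c₁ ∧ c ≠ c₁ ∧
    (Even P.natDegree → (gam P (P.natDegree / 2) * c ^ (P.natDegree / 2)).re = (gam P (P.natDegree / 2) * c₁ ^ (P.natDegree / 2)).re)

/-- [Z0] the exponents of the products in algebraic form (take `S_Y1`, `S_V1a`, `S_V1b`, `S_V1c`, `S_U1` as hypotheses).
Proof: as V2, with the Taylor expansion of `log g` from Y1 (`R = M/2` rounded down; `Branch.an`, `Branch.eqn` give the equation on the ball of radius `ρ = ‖c‖τ₀`): for `x = cω^lτ_k`, `log g(x) = ∑_{1≤r≤R} γ_r x^r + O(|x|^{R+1})`, `τ_k^r = E_k^{-r/M}`; sum over `k`; V1a with `s = r/M`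
for `2r < M` (defines `B r`), V1b for `2r = M`, V1c for the remainder (`(R+1)/M > 1/2`). Exponentiate. -/
def S_Z0 : Prop := ∀ (P : ℂ[X]) (c : ℂ) (g : ℂ → ℂ) (τ₀ K δ : ℝ), P.coeff 0 = 0 → Branch P c g τ₀ K δ →
  ∃ B : ℕ → ℝ, Expo P.natDegree c g (gam P) B

/-- [Z1] unique top: no cancellation along the multiples of `g` (take `S_Z0`, `S_V3`, `S_Y3`, `S_U1` as hypotheses).
Proof: let `M = deg P`; `g ∣ M` (`SuppMul`, `a_M ≠ 0`). (1) `gam P r = 0` unless `g ∣ r`: `A - 1 = C a_M⁻¹ * P.reverse - 1` has only exponents divisible by `g` (`P.reverse.coeff i = P.coeff (M-i)`), and so have its powers. So if `ω^{lg} = 1` then `γ_r(cω^l)^r = γ_rc^r` for all `r`, hence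
`qq l = qq 0`, `KK l = KK 0`. (2) By Y3, `IsTop P c`. Let `l < M` with the first alternative of V3, i.e. `cω^l` has the same vector as `c`: then `IsTop P (cω^l)`, so `c^g ω^{lg} = c^g` by `UniqueTop`, `ω^{lg} = 1`. So for all `l` with `ω^{lg} ≠ 1`, `Re(q_l - q_0) → -∞` by V3 and
`∏|g(cω^lτ_k)|/∏|g(cτ_k)| → 0`. (3) For `g ∣ n`, `n` large: `M y_{n-M} = ∑_l ω^{l(n-M)} ∏ g(cω^lτ_k)`; the `g` indices `l` with `ω^{lg} = 1` (`l ∈ (M/g)ℤ`) contribute `(g + o(1)) e^{q_0+K_0}` (`ω^{l(n-M)} = 1`), the others `o(1) e^{Re(q_0+K_0)}`, and `G_{n-M} = e^{Re(q_0+K_0)}(1+o(1))`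
(both from `Expo`). So `‖y‖ ≥ (g/(2M)) G`. -/
def S_Z1 : Prop := ∀ (P : ℂ[X]) (c : ℂ) (f : ℂ → ℂ) (τ₀ K δ : ℝ) (g : ℕ), P.coeff 0 = 0 → Branch P c f τ₀ K δ → 0 < g →
  SuppMul g P → UniqueTop g P →
  ∃ ε : ℝ, 0 < ε ∧ ∀ᶠ n : ℕ in atTop, g ∣ n → ε * GG P.natDegree c f n (n - P.natDegree) ≤ ‖yy P.natDegree c f n (n - P.natDegree)‖

/-- [Z2] the dichotomy of V7 in algebraic form (take `S_Z0`, `S_V3`, `S_Y3`, `S_U1` as hypotheses).
Proof: as V7 with `γ_r = gam P r`; `gam P 1 = a_{M-1}/(M a_M) ≠ 0` (`r = 1`: `(1/M)·coeff (A-1) 1`). The indices `l` of the first alternative of V3 are those with `IsTop P (cω^l)` (Y3). There are at most two: `l = 0` and possibly one `l₁` (`Re(γ_1cω^l) = Re(γ_1c)` gives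
`ω^l ∈ {1, conj(γ_1c)/(γ_1c)}`). If `Cancels P` fails then there is only `l = 0`, or `M` is even and `Re K_{l₁} ≠ Re K_0` (`K_l = γ_{M/2}(cω^l)^{M/2}π/2`): `‖y_{n-M}‖ ≥ εG_{n-M}` eventually. If `Cancels P` holds (with `c₀, c₁` tops, `c₀ ≠ c₁`; both are among `c, cω^{l₁}`), then
`l₁` exists and `Re K_{l₁} = Re K_0` (trivially if `M` is odd), and the second part of the proof of V7 applies. -/
def S_Z2 : Prop := ∀ (P : ℂ[X]) (c : ℂ) (g : ℂ → ℂ) (τ₀ K δ : ℝ), P.coeff 0 = 0 → Branch P c g τ₀ K δ → 3 ≤ P.natDegree → P.coeff (P.natDegree - 1) ≠ 0 →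
  (¬ Cancels P → ∃ ε : ℝ, 0 < ε ∧ ∀ᶠ n : ℕ in atTop, ε * GG P.natDegree c g n (n - P.natDegree) ≤ ‖yy P.natDegree c g n (n - P.natDegree)‖) ∧
  (Cancels P → ∃ δ₀ : ℝ, 0 < δ₀ ∧ ∀ d : ℝ, 0 < d → d < δ₀ → ∃ᶠ n : ℕ in atTop, Even n ∧
    d / 2 * GG P.natDegree c g n (n - P.natDegree) ≤ ‖yy P.natDegree c g n (n - P.natDegree)‖ ∧
    ‖yy P.natDegree c g n (n - P.natDegree)‖ ≤ d * GG P.natDegree c g n (n - P.natDegree))

/-- [Z3] the generic case (take `S_X2` as hypothesis).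
Proof: let `c` be a top and `ξ = gam P 1 * c = a_{M-1}c/(M a_M)` (`gam P 1 = (1/M)·(a_{M-1}/a_M)`: in the sum `i = 0` gives `coeff 1 1 = 0`, `i = 1` gives `(1/M) coeff (A-1) 1 = (1/M) a_{M-1}/a_M`). `ξ^M = a_{M-1}^M/(M^M a_M^{M-1})` is in the slit plane. The first entry of the vector of a top is the
largest among the `Re(ξω^l)` (all roots are `cω^l`), so `Re(ξω^l) ≤ Re ξ`, and by X2 `<` for `0 < l < M`. So the top is unique (`M ≥ 3`, so the vector has a first entry, and a lexicographically largest vector has the largest first entry). -/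
def S_Z3 : Prop := ∀ P : ℂ[X], P.coeff 0 = 0 → 3 ≤ P.natDegree →
  P.coeff (P.natDegree - 1) ^ P.natDegree / P.leadingCoeff ^ (P.natDegree - 1) ∈ Complex.slitPlane → UniqueTop 1 P

end HillRoots
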