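import Pool.Agent.Lib.MP_e63cf8_mp.StmA
import Pool.Agent.Lib.MP_e63cf8_mp.StmB
import Pool.Agent.Lib.MP_e63cf8_mp.StmC
import Pool.Agent.Lib.MP_e63cf8_mp.StmD
import Pool.Agent.Lib.MP_e63cf8_mp.StmE
import Pool.Agent.Lib.MP_e63cf8_mp.StmF
import Pool.Agent.Lib.MP_e63cf8_mp.StmG
import Pool.Agent.Lib.MP_e63cf8_mp.P.T0
import Pool.Agent.Lib.MP_e63cf8_mp.P.T1
import Pool.Agent.Lib.MP_e63cf8_mp.P.T2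
import Pool.Agent.Lib.MP_e63cf8_mp.P.T3
import Pool.Agent.Lib.MP_e63cf8_mp.P.T4
import Pool.Agent.Lib.MP_e63cf8_mp.P.T5
import Pool.Agent.Lib.MP_e63cf8_mp.P.T6
import Pool.Agent.Lib.MP_e63cf8_mp.P.T7
import Pool.Agent.Lib.MP_e63cf8_mp.P.S1
import Pool.Agent.Lib.MP_e63cf8_mp.P.B0
import Pool.Agent.Lib.MP_e63cf8_mp.P.B1
import Pool.Agent.Lib.MP_e63cf8_mp.P.B2
import Pool.Agent.Lib.MP_e63cf8_mp.P.B3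
import Pool.Agent.Lib.MP_e63cf8_mp.P.B4
import Pool.Agent.Lib.MP_e63cf8_mp.P.B5
import Pool.Agent.Lib.MP_e63cf8_mp.P.B6
import Pool.Agent.Lib.MP_e63cf8_mp.P.B7
import Pool.Agent.Lib.MP_e63cf8_mp.P.G1
import Pool.Agent.Lib.MP_e63cf8_mp.P.G2
import Pool.Agent.Lib.MP_e63cf8_mp.P.S2
import Pool.Agent.Lib.MP_e63cf8_mp.P.G3
import Pool.Agent.Lib.MP_e63cf8_mp.P.F1
import Pool.Agent.Lib.MP_e63cf8_mp.P.F2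
import Pool.Agent.Lib.MP_e63cf8_mp.P.F3
import Pool.Agent.Lib.MP_e63cf8_mp.P.F4
import Pool.Agent.Lib.MP_e63cf8_mp.P.F5
import Pool.Agent.Lib.MP_e63cf8_mp.P.F6
import Pool.Agent.Lib.MP_e63cf8_mp.P.F7
import Pool.Agent.Lib.MP_e63cf8_mp.P.F8
import Pool.Agent.Lib.MP_e63cf8_mp.P.F11
import Pool.Agent.Lib.MP_e63cf8_mp.P.F12
import Pool.Agent.Lib.MP_e63cf8_mp.P.R1
import Pool.Agent.Lib.MP_e63cf8_mp.P.R2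
import Pool.Agent.Lib.MP_e63cf8_mp.P.R3
import Pool.Agent.Lib.MP_e63cf8_mp.P.R4
import Pool.Agent.Lib.MP_e63cf8_mp.P.U1
import Pool.Agent.Lib.MP_e63cf8_mp.P.N1
import Pool.Agent.Lib.MP_e63cf8_mp.P.H1
import Pool.Agent.Lib.MP_e63cf8_mp.P.H0
import Pool.Agent.Lib.MP_e63cf8_mp.P.H2
import Pool.Agent.Lib.MP_e63cf8_mp.P.U4
import Pool.Agent.Lib.MP_e63cf8_mp.P.H4
import Pool.Agent.Lib.MP_e63cf8_mp.P.U2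
import Pool.Agent.Lib.MP_e63cf8_mp.P.L1
import Pool.Agent.Lib.MP_e63cf8_mp.P.L2
import Pool.Agent.Lib.MP_e63cf8_mp.P.L3
import Pool.Agent.Lib.MP_e63cf8_mp.P.L4
import Pool.Agent.Lib.MP_e63cf8_mp.P.H3
import Pool.Agent.Lib.MP_e63cf8_mp.P.A1
import Pool.Agent.Lib.MP_e63cf8_mp.P.U3
import Pool.Agent.Lib.MP_e63cf8_mp.P.A2
import Pool.Agent.Lib.MP_e63cf8_mp.P.A3
import Pool.Agent.Lib.MP_e63cf8_mp.P.A4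
import Pool.Agent.Lib.MP_e63cf8_mp.P.A5
import Pool.Agent.Lib.MP_e63cf8_mp.P.N3
import Pool.Agent.Lib.MP_e63cf8_mp.P.R5
import Pool.Agent.Lib.MP_e63cf8_mp.P.C1
import Pool.Agent.Lib.MP_e63cf8_mp.P.C2
import Pool.Agent.Lib.MP_e63cf8_mp.P.C3
import Pool.Agent.Lib.MP_e63cf8_mp.P.C4
import Pool.Agent.Lib.MP_e63cf8_mp.P.X6
import Pool.Agent.Lib.MP_e63cf8_mp.P.X7
import Pool.Agent.Lib.MP_e63cf8_mp.P.V4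
import Pool.Agent.Lib.MP_e63cf8_mp.P.V5
import Pool.Agent.Lib.MP_e63cf8_mp.P.V1a
import Pool.Agent.Lib.MP_e63cf8_mp.P.V1b
import Pool.Agent.Lib.MP_e63cf8_mp.P.V1c
import Pool.Agent.Lib.MP_e63cf8_mp.P.V2
import Pool.Agent.Lib.MP_e63cf8_mp.P.V3
import Pool.Agent.Lib.MP_e63cf8_mp.P.V6
import Pool.Agent.Lib.MP_e63cf8_mp.P.E1
import Pool.Agent.Lib.MP_e63cf8_mp.P.E2
import Pool.Agent.Lib.MP_e63cf8_mp.P.E3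
import Pool.Agent.Lib.MP_e63cf8_mp.P.Y1
import Pool.Agent.Lib.MP_e63cf8_mp.P.Y2
import Pool.Agent.Lib.MP_e63cf8_mp.P.Y3
import Pool.Agent.Lib.MP_e63cf8_mp.P.Y4
import Pool.Agent.Lib.MP_e63cf8_mp.P.Y5
import Pool.Agent.Lib.MP_e63cf8_mp.P.Z0
import Pool.Agent.Lib.MP_e63cf8_mp.P.Z1
import Pool.Agent.Lib.MP_e63cf8_mp.P.Z2
import Pool.Agent.Lib.MP_e63cf8_mp.P.X2
import Pool.Agent.Lib.MP_e63cf8_mp.P.Z3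

/-!
# MP_e63cf8_mp, all pieces together
-/

namespace HillRoots

theorem t_T0 : S_T0 := p_T0
theorem t_T1 : S_T1 := p_T1
theorem t_T2 : S_T2 := p_T2
theorem t_T3 : S_T3 := p_T3
theorem t_T4 : S_T4 := p_T4
theorem t_T5 : S_T5 := p_T5
theorem t_T6 : S_T6 := p_T6
theorem t_T7 : S_T7 := p_T7 t_T1 t_T2 t_T3 t_T4 t_T5 t_T6
theorem t_S1 : S_S1 := p_S1
theorem t_B0 : S_B0 := p_B0
theorem t_B1 : S_B1 := p_B1 t_B0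
theorem t_B2 : S_B2 := p_B2
theorem t_B3 : S_B3 := p_B3 t_B0 t_B1 t_B2
theorem t_B4 : S_B4 := p_B4 t_B0
theorem t_B5 : S_B5 := p_B5 t_B4
theorem t_B6 : S_B6 := p_B6
theorem t_B7 : S_B7 := p_B7
theorem t_G1 : S_G1 := p_G1
theorem t_G2 : S_G2 := p_G2 t_S1 t_B3 t_B5 t_B6 t_B7 t_G1
theorem t_S2 : S_S2 := p_S2
theorem t_G3 : S_G3 := p_G3 t_S2 t_B3 t_B5 t_B7
theorem t_F1 : S_F1 := p_F1
theorem t_F2 : S_F2 := p_F2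
theorem t_F3 : S_F3 := p_F3 t_F1 t_F2
theorem t_F4 : S_F4 := p_F4 t_F1
theorem t_F5 : S_F5 := p_F5 t_F1 t_F2 t_F3
theorem t_F6 : S_F6 := p_F6
theorem t_F7 : S_F7 := p_F7 t_F1 t_F3 t_F4 t_F5 t_F6
theorem t_F8 : S_F8 := p_F8 t_F1 t_F3 t_F4 t_F5
theorem t_F11 : S_F11 := p_F11 t_F7 t_F8
theorem t_F12 : S_F12 := p_F12 t_F7 t_B7
theorem t_R1 : S_R1 := p_R1
theorem t_R2 : S_R2 := p_R2
theorem t_R3 : S_R3 := p_R3 t_R1 t_R2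
theorem t_R4 : S_R4 := p_R4
theorem t_U1 : S_U1 := p_U1
theorem t_N1 : S_N1 := p_N1 t_R4 t_U1
theorem t_H1 : S_H1 := p_H1
theorem t_H0 : S_H0 := p_H0
theorem t_H2 : S_H2 := p_H2 t_H0
theorem t_U4 : S_U4 := p_U4
theorem t_H4 : S_H4 := p_H4 t_H2 t_U4
theorem t_U2 : S_U2 := p_U2
theorem t_L1 : S_L1 := p_L1
theorem t_L2 : S_L2 := p_L2 t_L1
theorem t_L3 : S_L3 := p_L3
theorem t_L4 : S_L4 := p_L4 t_L2 t_L3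
theorem t_H3 : S_H3 := p_H3 t_H0
theorem t_A1 : S_A1 := p_A1 t_H1 t_H3 t_U1
theorem t_U3 : S_U3 := p_U3
theorem t_A2 : S_A2 := p_A2 t_H1 t_H3 t_U1 t_U3 t_A1
theorem t_A3 : S_A3 := p_A3 t_H1 t_H4 t_U1 t_U2 t_L4 t_A1 t_A2
theorem t_A4 : S_A4 := p_A4 t_A3 t_H3 t_U1
theorem t_A5 : S_A5 := p_A5 t_F1 t_A3 t_A4
theorem t_N3 : S_N3 := p_N3 t_A5 t_U1 t_H1
theorem t_R5 : S_R5 := p_R5 t_R4
theorem t_C1 : S_C1 := p_C1 t_R5 t_U1 t_H1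
theorem t_C2 : S_C2 := p_C2 t_C1 t_U1
theorem t_C3 : S_C3 := p_C3 t_C1 t_R5 t_U1
theorem t_C4 : S_C4 := p_C4 t_R5 t_U1 t_H1
theorem t_X6 : S_X6 := p_X6
theorem t_X7 : S_X7 := p_X7 t_X6
theorem t_V4 : S_V4 := p_V4
theorem t_V5 : S_V5 := p_V5 t_V4
theorem t_V1a : S_V1a := p_V1a
theorem t_V1b : S_V1b := p_V1b
theorem t_V1c : S_V1c := p_V1c
theorem t_V2 : S_V2 := p_V2 t_V1a t_V1b t_V1c t_U1
theorem t_V3 : S_V3 := p_V3 t_U1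
theorem t_V6 : S_V6 := p_V6 t_V2 t_V3 t_U1
theorem t_E1 : S_E1 := p_E1 t_F1 t_F3 t_F4 t_F5 t_F6
theorem t_E2 : S_E2 := p_E2 t_E1 t_B7
theorem t_E3 : S_E3 := p_E3 t_E2 t_N3 t_A5 t_U1 t_H1
theorem t_Y1 : S_Y1 := p_Y1
theorem t_Y2 : S_Y2 := p_Y2 t_Y1
theorem t_Y3 : S_Y3 := p_Y3 t_Y2
theorem t_Y4 : S_Y4 := p_Y4 t_R5 t_Y2
theorem t_Y5 : S_Y5 := p_Y5 t_R3 t_C4 t_Y3 t_Y4
theorem t_Z0 : S_Z0 := p_Z0 t_Y1 t_V1a t_V1b t_V1c t_U1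
theorem t_Z1 : S_Z1 := p_Z1 t_Z0 t_V3 t_Y3 t_U1
theorem t_Z2 : S_Z2 := p_Z2 t_Z0 t_V3 t_Y3 t_U1
theorem t_X2 : S_X2 := p_X2
theorem t_Z3 : S_Z3 := p_Z3 t_X2

end HillRoots
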