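import Pool.Agent.Lib.MP_e63cf8_mp.StmA
import Pool.Agent.Lib.MP_e63cf8_mp.StmB
import Pool.Agent.Lib.MP_e63cf8_mp.StmC
import Pool.Agent.Lib.MP_e63cf8_mp.StmD

/-!
# MP_e63cf8_mp, assembly of the criterion from the pieces
-/

open Polynomial Filter Topology MeasureTheory Asymptotics

namespace HillRoots

theorem natDegree_pos_of (P : ℂ[X]) (h0 : P.coeff 0 = 0) (hP : P ≠ 0) : 1 ≤ P.natDegree := by
  by_contra h
  have h1 : P.natDegree = 0 := by omega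
  apply hP
  rw [Polynomial.eq_C_of_natDegree_eq_zero h1, h0, map_zero]

theorem evenMul_infinite (g : ℕ) (hg : 0 < g) : (evenMul g).Infinite := by
  apply Set.infinite_of_not_bddAbove
  rintro ⟨b, hb⟩
  have h1 : 2 * g * (b + 1) ∈ evenMul g := by
    refine ⟨⟨g * (b + 1), by ring⟩, ⟨2 * (b + 1), by ring⟩⟩
  have h2 := hb h1
  nlinarith

theorem asm_oneSided (hT0 : S_T0) (hT7 : S_T7) (hG2 : S_G2) (hF10 : S_F10)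
    (v₀ : ℂ) (P Q : ℂ[X]) (hP : P.coeff 0 = 0) (hQ : Q.coeff 0 = 0) (h : P = 0 ∨ Q = 0) :
    HasRootBasis v₀ P Q :=
  (hT0 v₀ P Q).2 ((hT7 P Q).2 (hG2 P Q (hF10 P Q hP hQ h)))

theorem asm_not (hT0 : S_T0) (hT7 : S_T7) (hG3 : S_G3) (hF12 : S_F12) (hR3 : S_R3) (hN2 : S_N2)
    (hC3 : S_C3) (hC4 : S_C4)
    (v₀ : ℂ) (P Q : ℂ[X]) (S : Set ℕ) (hP : P.coeff 0 = 0) (hQ : Q.coeff 0 = 0) (hP0 : P ≠ 0) (hQ0 : Q ≠ 0)
    (hS : S.Infinite) (hE : ∀ n ∈ S, Even n) (hPS : NoCancelOn P S) (hQS : NoCancelOn Q S) (hcr : ¬ Crit P Q) :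
    ¬ HasRootBasis v₀ P Q := by
  obtain ⟨c, g, τ₀, K, δ, hb⟩ := hR3 P (natDegree_pos_of P hP hP0)
  obtain ⟨c', g', τ₀', K', δ', hb'⟩ := hR3 Q (natDegree_pos_of Q hQ hQ0)
  have r1 := hN2 P Q c g τ₀ K δ S hP hQ hb hPS
  have r2 := hN2 Q P c' g' τ₀' K' δ' S hQ hP hb' hQS
  have ht : Tendsto (fun n : ℕ => |Real.log (RR P c g n / RR Q c' g' n)|) atTop atTop := by
    by_cases hd : P.natDegree = Q.natDegree
    · exact hC3 P Q c c' g g' τ₀ K δ τ₀' K' δ' hP hQ hd hb hb' hcr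
    · exact (hC4 P Q c c' g g' τ₀ K δ τ₀' K' δ' hP hQ hd hb hb').2
  have hbad := hF12 P Q _ _ S hP hQ hS hE r1 r2 ht
  intro hB
  exact hG3 P Q hbad ((hT7 P Q).1 ((hT0 v₀ P Q).1 hB))

theorem asm_yes (hT0 : S_T0) (hT7 : S_T7) (hG2 : S_G2) (hF11 : S_F11) (hR3 : S_R3) (hN2 : S_N2)
    (hC2 : S_C2) (hC4 : S_C4)
    (v₀ : ℂ) (P Q : ℂ[X]) (g : ℕ) (hP : P.coeff 0 = 0) (hQ : Q.coeff 0 = 0) (hP0 : P ≠ 0) (hQ0 : Q ≠ 0)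
    (hPg : SuppMul g P) (hQg : SuppMul g Q)
    (hPS : NoCancelOn P (evenMul g)) (hQS : NoCancelOn Q (evenMul g)) (hcr : Crit P Q) :
    HasRootBasis v₀ P Q := by
  obtain ⟨c, f, τ₀, K, δ, hb⟩ := hR3 P (natDegree_pos_of P hP hP0)
  obtain ⟨c', f', τ₀', K', δ', hb'⟩ := hR3 Q (natDegree_pos_of Q hQ hQ0)
  have r1 := hN2 P Q c f τ₀ K δ _ hP hQ hb hPS
  have r2 := hN2 Q P c' f' τ₀' K' δ' _ hQ hP hb' hQS
  have hd : P.natDegree = Q.natDegree := by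
    by_contra hd
    exact (hC4 P Q c c' f f' τ₀ K δ τ₀' K' δ' hP hQ hd hb hb').1 hcr
  obtain ⟨C, hC⟩ := hC2 P Q c c' f f' τ₀ K δ τ₀' K' δ' hP hQ hd hb hb' hcr
  have hgood := hF11 P Q _ _ g C hP hQ hPg hQg r1 r2 hC
  exact (hT0 v₀ P Q).2 ((hT7 P Q).2 (hG2 P Q hgood))

end HillRoots
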