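import Pool.Agent.Lib.MP_e63cf8_mp.Asm
import Pool.Agent.Lib.MP_e63cf8_mp.StmE

/-!
# MP_e63cf8_mp, assembly of the additional parts
-/

open Polynomial Filter Topology MeasureTheory Asymptotics

namespace HillRoots

theorem asm_necessary (hT0 : S_T0) (hT7 : S_T7) (hG3 : S_G3) (hF12 : S_F12) (hR3 : S_R3) (hN3 : S_N3)
    (hC3 : S_C3) (hC4 : S_C4) (hV5 : S_V5) (hV6 : S_V6)
    (v₀ : ℂ) (P Q : ℂ[X]) (hP : P.coeff 0 = 0) (hQ : Q.coeff 0 = 0) (hP0 : P ≠ 0) (hQ0 : Q ≠ 0)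
    (htP : Tame P) (htQ : Tame Q) (hcr : ¬ Crit P Q) :
    ¬ HasRootBasis v₀ P Q := by
  have hdP := natDegree_pos_of P hP hP0
  have hdQ := natDegree_pos_of Q hQ hQ0
  obtain ⟨c, g, τ₀, K, δ, hb⟩ := hR3 P hdP
  obtain ⟨c', g', τ₀', K', δ', hb'⟩ := hR3 Q hdQ
  have o1 := hV6 P c g τ₀ K δ hb htP
  have o2 := hV6 Q c' g' τ₀' K' δ' hb' htQ
  obtain ⟨ε, hε, hfr⟩ := hV5 _ _ _ _ hdP hdQ o1 o2
  set S : Set ℕ := {n | 2 * P.natDegree * Q.natDegree ∣ n ∧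
    ε ≤ ‖yy P.natDegree c g n (n - P.natDegree) / (GG P.natDegree c g n (n - P.natDegree) : ℂ)‖ ∧
    ε ≤ ‖yy Q.natDegree c' g' n (n - Q.natDegree) / (GG Q.natDegree c' g' n (n - Q.natDegree) : ℂ)‖} with hSdef
  have hSinf : S.Infinite := Nat.frequently_atTop_iff_infinite.1 hfr
  have hEv : ∀ n ∈ S, Even n := by
    rintro n ⟨⟨t, ht⟩, -, -⟩
    exact ⟨P.natDegree * Q.natDegree * t, by rw [ht]; ring⟩
  have key : ∀ (y : ℂ) (G : ℝ), ε ≤ ‖y / (G : ℂ)‖ → 0 ≤ G → ε * G ≤ ‖y‖ := by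
    intro y G h hG
    rw [norm_div, Complex.norm_real, Real.norm_of_nonneg hG] at h
    rcases hG.eq_or_lt with h0 | h0
    · rw [← h0]; simp
    · rwa [le_div_iff₀ h0] at h
  have hG1 : ∀ n, 0 ≤ GG P.natDegree c g n (n - P.natDegree) := fun n => Finset.prod_nonneg fun _ _ => norm_nonneg _
  have hG2 : ∀ n, 0 ≤ GG Q.natDegree c' g' n (n - Q.natDegree) := fun n => Finset.prod_nonneg fun _ _ => norm_nonneg _
  have r1 := hN3 P Q c g τ₀ K δ S ε hP hQ hb hε (Eventually.of_forall fun n hn => key _ _ hn.2.1 (hG1 n))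
  have r2 := hN3 Q P c' g' τ₀' K' δ' S ε hQ hP hb' hε (Eventually.of_forall fun n hn => key _ _ hn.2.2 (hG2 n))
  have ht : Tendsto (fun n : ℕ => |Real.log (RR P c g n / RR Q c' g' n)|) atTop atTop := by
    by_cases hd : P.natDegree = Q.natDegree
    · exact hC3 P Q c c' g g' τ₀ K δ τ₀' K' δ' hP hQ hd hb hb' hcr
    · exact (hC4 P Q c c' g g' τ₀ K δ τ₀' K' δ' hP hQ hd hb hb').2
  have hbad := hF12 P Q _ _ S hP hQ hSinf hEv r1 r2 ht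
  intro hB
  exact hG3 P Q hbad ((hT7 P Q).1 ((hT0 v₀ P Q).1 hB))

theorem GG_pos_ev (hU1 : S_U1) (P : ℂ[X]) (c : ℂ) (g : ℂ → ℂ) (τ₀ K δ : ℝ) (hb : Branch P c g τ₀ K δ) :
    ∀ᶠ n : ℕ in atTop, 0 < GG P.natDegree c g n (n - P.natDegree) := by
  have hM := hb.ld.hM
  filter_upwards [hU1 P.natDegree τ₀ hM hb.ld.ht, eventually_ge_atTop 1] with n hn hn1
  apply Finset.prod_pos
  intro i hi
  rw [Finset.mem_Icc] at hi
  have h1 := hb.ld.low 0 (by omega) _ (hn i (by omega))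
  linarith

theorem asm_one (hU1 : S_U1) (hT0 : S_T0) (hT7 : S_T7) (hG3 : S_G3) (hF12 : S_F12) (hR3 : S_R3) (hN1 : S_N1) (hN3 : S_N3)
    (hN4 : S_N4) (hC2 : S_C2) (hC3 : S_C3) (hC4 : S_C4) (hV5 : S_V5) (hV6 : S_V6) (hV7 : S_V7) (hE3 : S_E3)
    (v₀ : ℂ) (P Q : ℂ[X]) (hP : P.coeff 0 = 0) (hQ : Q.coeff 0 = 0) (hP3 : 3 ≤ P.natDegree) (hQ3 : 3 ≤ Q.natDegree)
    (hPc : P.coeff (P.natDegree - 1) ≠ 0) (hQc : Q.coeff (Q.natDegree - 1) ≠ 0)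
    (hne : ¬ (NoCancelOn P (evenMul 1) ↔ NoCancelOn Q (evenMul 1))) :
    ¬ HasRootBasis v₀ P Q := by
  have hP0 : P ≠ 0 := by rintro rfl; simp at hPc
  have hQ0 : Q ≠ 0 := by rintro rfl; simp at hQc
  have tP : Tame P := Or.inr (Or.inl ⟨hP3, hPc⟩)
  have tQ : Tame Q := Or.inr (Or.inl ⟨hQ3, hQc⟩)
  by_cases hcr : Crit P Q
  swap
  · exact asm_necessary hT0 hT7 hG3 hF12 hR3 hN3 hC3 hC4 hV5 hV6 v₀ P Q hP hQ hP0 hQ0 tP tQ hcr
  obtain ⟨c, g, τ₀, K, δ, hb⟩ := hR3 P (by omega)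
  obtain ⟨c', g', τ₀', K', δ', hb'⟩ := hR3 Q (by omega)
  have hd : P.natDegree = Q.natDegree := by
    by_contra hd
    exact (hC4 P Q c c' g g' τ₀ K δ τ₀' K' δ' hP hQ hd hb hb').1 hcr
  obtain ⟨C, hC⟩ := hC2 P Q c c' g g' τ₀ K δ τ₀' K' δ' hP hQ hd hb hb' hcr
  have hC' : ∀ᶠ n : ℕ in atTop, |Real.log (RR Q c' g' n / RR P c g n)| ≤ C := by
    filter_upwards [hC] with n hn
    rwa [← abs_neg, ← Real.log_inv, inv_div]
  have ev1 : ∀ n, n ∈ evenMul 1 ↔ Even n := fun n => ⟨fun h => h.1, fun h => ⟨h, one_dvd _⟩⟩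
  have hbad : BadPairs P Q := by
    rcases hV7 P c g τ₀ K δ hb hP3 hPc with ⟨ε, hε, h1⟩ | ⟨δ₀, hδ₀, h1⟩
    · have nP : NoCancelOn P (evenMul 1) :=
        hN4 P c g τ₀ K δ _ ε hP hb hε (h1.mono fun n hn _ => hn)
      rcases hV7 Q c' g' τ₀' K' δ' hb' hQ3 hQc with ⟨ε', hε', h2⟩ | ⟨δ₀', hδ₀', h2⟩
      · have nQ : NoCancelOn Q (evenMul 1) :=
          hN4 Q c' g' τ₀' K' δ' _ ε' hQ hb' hε' (h2.mono fun n hn _ => hn)
        exact absurd ⟨fun _ => nQ, fun _ => nP⟩ hne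
      · exact (hE3 Q P c' c g' g τ₀' K' δ' τ₀ K δ C ε δ₀' hQ hP hb' hb hC' hε hδ₀' (h1.mono fun n hn _ => hn) h2).2
    · have nQ : NoCancelOn Q (evenMul 1) := by
        by_contra nQ
        have nP : ¬ NoCancelOn P (evenMul 1) := by
          intro nP
          obtain ⟨ε, hε, h2⟩ := hN1 P c g τ₀ K δ _ hP hb nP
          have hd0 : 0 < min (ε / 2) (δ₀ / 2) := by positivity
          have h3 := h1 (min (ε / 2) (δ₀ / 2)) hd0 (lt_of_le_of_lt (min_le_right _ _) (by linarith))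
          obtain ⟨n, ⟨hev, hlo, hup⟩, h4, h0⟩ := (h3.and_eventually (h2.and (GG_pos_ev hU1 P c g τ₀ K δ hb))).exists
          have h5 := h4 ((ev1 n).2 hev)
          have h6 : min (ε / 2) (δ₀ / 2) ≤ ε / 2 := min_le_left _ _
          nlinarith [mul_le_mul_of_nonneg_right h6 h0.le, mul_pos hε h0]
        exact hne ⟨fun h => absurd h nP, fun h => absurd h nQ⟩
      obtain ⟨ε, hε, h2⟩ := hN1 Q c' g' τ₀' K' δ' _ hQ hb' nQ
      exact (hE3 P Q c c' g g' τ₀ K δ τ₀' K' δ' C ε δ₀ hP hQ hb hb' hC hε hδ₀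
        (h2.mono fun n hn he => hn ((ev1 n).2 he)) h1).1
  intro hB
  exact hG3 P Q hbad ((hT7 P Q).1 ((hT0 v₀ P Q).1 hB))

end HillRoots
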