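import Pool.Agent.Lib.MP_e63cf8_mp.Asm2
import Pool.Agent.Lib.MP_e63cf8_mp.StmG

/-!
# MP_e63cf8_mp, assembly of the classification theorem
-/

open Polynomial Filter Topology MeasureTheory Asymptotics

namespace HillRoots

/-- `P` is admissible for `g`: all top roots have the same `g`-th power, or `P` is quadratic and not exceptional, or
`g = 1`, `deg P ≥ 3` and the second coefficient `a_{M-1}` is not zero. -/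
def Adm (g : ℕ) (P : ℂ[X]) : Prop :=
  UniqueTop g P ∨ NonExc2 P ∨ (g = 1 ∧ 3 ≤ P.natDegree ∧ P.coeff (P.natDegree - 1) ≠ 0)

/-- The branches of `P` cancel: the top root is not unique, `P` is not a non-exceptional quadratic polynomial, and two
different top roots have asymptotically equally large branches. -/
def Canc (g : ℕ) (P : ℂ[X]) : Prop := ¬ UniqueTop g P ∧ ¬ NonExc2 P ∧ Cancels P

section

variable (hT0 : S_T0) (hT7 : S_T7) (hG2 : S_G2) (hG3 : S_G3) (hF11 : S_F11) (hF12 : S_F12)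
    (hR3 : S_R3) (hN1 : S_N1) (hN3 : S_N3) (hC2 : S_C2) (hC3 : S_C3) (hC4 : S_C4) (hX7 : S_X7) (hV5 : S_V5) (hV6 : S_V6)
    (hE3 : S_E3) (hY5 : S_Y5) (hZ1 : S_Z1) (hZ2 : S_Z2)

include hX7 hN1 hZ1 hZ2 in
theorem asm4_low (P : ℂ[X]) (c : ℂ) (f : ℂ → ℂ) (τ₀ K δ : ℝ) (g : ℕ)
    (hP : P.coeff 0 = 0) (hb : Branch P c f τ₀ K δ) (hg : 0 < g) (hs : SuppMul g P) (hf : Adm g P) (hc : ¬ Canc g P) :
    ∃ ε : ℝ, 0 < ε ∧ ∀ᶠ n : ℕ in atTop, n ∈ evenMul g →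
      ε * GG P.natDegree c f n (n - P.natDegree) ≤ ‖yy P.natDegree c f n (n - P.natDegree)‖ := by
  by_cases h1 : UniqueTop g P
  · obtain ⟨ε, hε, h1⟩ := hZ1 P c f τ₀ K δ g hP hb hg hs h1
    exact ⟨ε, hε, h1.mono fun n hn hm => hn hm.2⟩
  by_cases h2 : NonExc2 P
  · obtain ⟨ε, hε, h1⟩ := hN1 P c f τ₀ K δ _ hP hb (hX7 P hP h2.1 h2.2)
    exact ⟨ε, hε, h1.mono fun n hn hm => hn ⟨hm.1, one_dvd _⟩⟩
  rcases hf with h | h | ⟨-, h3, h4⟩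
  · exact absurd h h1
  · exact absurd h h2
  have h5 : ¬ Cancels P := fun h => hc ⟨h1, h2, h⟩
  obtain ⟨ε, hε, h6⟩ := (hZ2 P c f τ₀ K δ hP hb h3 h4).1 h5
  exact ⟨ε, hε, h6.mono fun n hn _ => hn⟩

/-- simultaneously large along an infinite set -/
theorem asm4_key : ∀ (y : ℂ) (G ε : ℝ), ε ≤ ‖y / (G : ℂ)‖ → 0 ≤ G → ε * G ≤ ‖y‖ := by
  intro y G ε h hG
  rw [norm_div, Complex.norm_real, Real.norm_of_nonneg hG] at h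
  rcases hG.eq_or_lt with h0 | h0
  · rw [← h0]; simp
  · rwa [le_div_iff₀ h0] at h

theorem Canc.third {g : ℕ} {P : ℂ[X]} (h : Canc g P) (ha : Adm g P) :
    g = 1 ∧ 3 ≤ P.natDegree ∧ P.coeff (P.natDegree - 1) ≠ 0 := by
  rcases ha with h1 | h1 | h1
  · exact absurd h1 h.1
  · exact absurd h1 h.2.1
  · exact h1

theorem tame_of_third {g : ℕ} {P : ℂ[X]} (h : g = 1 ∧ 3 ≤ P.natDegree ∧ P.coeff (P.natDegree - 1) ≠ 0) : Tame P :=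
  Or.inr (Or.inl ⟨h.2.1, h.2.2⟩)

include hV5 hV6 in
theorem asm4_freq (P : ℂ[X]) (c : ℂ) (f : ℂ → ℂ) (τ₀ K δ : ℝ) (hb : Branch P c f τ₀ K δ) (ht : Tame P) :
    ∃ (S : Set ℕ) (ε : ℝ), S.Infinite ∧ (∀ n ∈ S, Even n) ∧ 0 < ε ∧ ∀ n ∈ S,
      ε * GG P.natDegree c f n (n - P.natDegree) ≤ ‖yy P.natDegree c f n (n - P.natDegree)‖ := by
  have o1 := hV6 P c f τ₀ K δ hb ht
  obtain ⟨ε, hε, hfr⟩ := hV5 _ _ _ _ hb.ld.hM hb.ld.hM o1 o1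
  refine ⟨_, ε, Nat.frequently_atTop_iff_infinite.1 hfr, ?_, hε, ?_⟩
  · rintro n ⟨⟨t, ht⟩, -, -⟩
    exact ⟨P.natDegree * P.natDegree * t, by rw [ht]; ring⟩
  · intro n hn
    exact asm4_key _ _ _ hn.2.1 (Finset.prod_nonneg fun _ _ => norm_nonneg _)

include hT0 hT7 hG3 hF12 hR3 hN1 hN3 hC3 hC4 hX7 hV5 hV6 hY5 hZ1 hZ2 in
theorem asm4_nec (v₀ : ℂ) (P Q : ℂ[X]) (g : ℕ) (hP : P.coeff 0 = 0) (hQ : Q.coeff 0 = 0) (hP0 : P ≠ 0) (hQ0 : Q ≠ 0)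
    (hg : 0 < g) (hPg : SuppMul g P) (hQg : SuppMul g Q) (hPf : Adm g P) (hQf : Adm g Q) (hB : HasRootBasis v₀ P Q) :
    AlgCrit P Q := by
  by_contra hA
  have hcr : ¬ Crit P Q := fun h => hA ((hY5 P Q hP hQ hP0 hQ0).1 h)
  obtain ⟨c, f, τ₀, K, δ, hb⟩ := hR3 P (natDegree_pos_of P hP hP0)
  obtain ⟨c', f', τ₀', K', δ', hb'⟩ := hR3 Q (natDegree_pos_of Q hQ hQ0)
  have ht : Tendsto (fun n : ℕ => |Real.log (RR P c f n / RR Q c' f' n)|) atTop atTop := by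
    by_cases hd : P.natDegree = Q.natDegree
    · exact hC3 P Q c c' f f' τ₀ K δ τ₀' K' δ' hP hQ hd hb hb' hcr
    · exact (hC4 P Q c c' f f' τ₀ K δ τ₀' K' δ' hP hQ hd hb hb').2
  have hBH := (hT7 P Q).1 ((hT0 v₀ P Q).1 hB)
  by_cases cP : Canc g P
  · obtain ⟨hg1, hP3, hPc⟩ := cP.third hPf
    by_cases cQ : Canc g Q
    · exact asm_necessary hT0 hT7 hG3 hF12 hR3 hN3 hC3 hC4 hV5 hV6 v₀ P Q hP hQ hP0 hQ0
        (tame_of_third (cP.third hPf)) (tame_of_third (cQ.third hQf)) hcr hB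
    · obtain ⟨S, ε, hS, hE, hε, h1⟩ := asm4_freq hV5 hV6 P c f τ₀ K δ hb (tame_of_third (cP.third hPf))
      obtain ⟨ε', hε', h1'⟩ := asm4_low hN1 hX7 hZ1 hZ2 Q c' f' τ₀' K' δ' g hQ hb' hg hQg hQf cQ
      have r1 := hN3 P Q c f τ₀ K δ S ε hP hQ hb hε (Eventually.of_forall fun n hn => h1 n hn)
      have r2 := hN3 Q P c' f' τ₀' K' δ' S ε' hQ hP hb' hε'
        (h1'.mono fun n hn hm => hn ⟨hE n hm, hg1 ▸ one_dvd _⟩)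
      exact hG3 P Q (hF12 P Q _ _ _ hP hQ hS hE r1 r2 ht) hBH
  by_cases cQ : Canc g Q
  · obtain ⟨hg1, hQ3, hQc⟩ := cQ.third hQf
    obtain ⟨S, ε, hS, hE, hε, h1⟩ := asm4_freq hV5 hV6 Q c' f' τ₀' K' δ' hb' (tame_of_third (cQ.third hQf))
    obtain ⟨ε', hε', h1'⟩ := asm4_low hN1 hX7 hZ1 hZ2 P c f τ₀ K δ g hP hb hg hPg hPf cP
    have r2 := hN3 Q P c' f' τ₀' K' δ' S ε hQ hP hb' hε (Eventually.of_forall fun n hn => h1 n hn)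
    have r1 := hN3 P Q c f τ₀ K δ S ε' hP hQ hb hε'
      (h1'.mono fun n hn hm => hn ⟨hE n hm, hg1 ▸ one_dvd _⟩)
    exact hG3 P Q (hF12 P Q _ _ _ hP hQ hS hE r1 r2 ht) hBH
  obtain ⟨ε, hε, h1⟩ := asm4_low hN1 hX7 hZ1 hZ2 P c f τ₀ K δ g hP hb hg hPg hPf cP
  obtain ⟨ε', hε', h1'⟩ := asm4_low hN1 hX7 hZ1 hZ2 Q c' f' τ₀' K' δ' g hQ hb' hg hQg hQf cQ
  have r1 := hN3 P Q c f τ₀ K δ _ ε hP hQ hb hε h1
  have r2 := hN3 Q P c' f' τ₀' K' δ' _ ε' hQ hP hb' hε' h1'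
  exact hG3 P Q (hF12 P Q _ _ _ hP hQ (evenMul_infinite g hg) (fun n hn => hn.1) r1 r2 ht) hBH

include hT0 hT7 hG2 hG3 hF11 hF12 hR3 hN1 hN3 hC2 hC3 hC4 hX7 hV5 hV6 hE3 hY5 hZ1 hZ2 in
theorem asm4_class (v₀ : ℂ) (P Q : ℂ[X]) (g : ℕ) (hP : P.coeff 0 = 0) (hQ : Q.coeff 0 = 0) (hP0 : P ≠ 0) (hQ0 : Q ≠ 0)
    (hg : 0 < g) (hPg : SuppMul g P) (hQg : SuppMul g Q) (hPf : Adm g P) (hQf : Adm g Q) :
    (HasRootBasis v₀ P Q → AlgCrit P Q) ∧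
    (¬ (Canc g P ∧ Canc g Q) → (HasRootBasis v₀ P Q ↔ AlgCrit P Q ∧ ¬ Canc g P ∧ ¬ Canc g Q)) := by
  have hY : Crit P Q ↔ AlgCrit P Q := hY5 P Q hP hQ hP0 hQ0
  have hnec := asm4_nec hT0 hT7 hG3 hF12 hR3 hN1 hN3 hC3 hC4 hX7 hV5 hV6 hY5 hZ1 hZ2 v₀ P Q g hP hQ hP0 hQ0 hg hPg hQg hPf hQf
  refine ⟨hnec, fun hnot => ?_⟩
  obtain ⟨c, f, τ₀, K, δ, hb⟩ := hR3 P (natDegree_pos_of P hP hP0)
  obtain ⟨c', f', τ₀', K', δ', hb'⟩ := hR3 Q (natDegree_pos_of Q hQ hQ0)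
  constructor
  · intro hB
    have hA := hnec hB
    have hcr := hY.2 hA
    have hd := hA.1
    obtain ⟨C, hC⟩ := hC2 P Q c c' f f' τ₀ K δ τ₀' K' δ' hP hQ hd hb hb' hcr
    have hC' : ∀ᶠ n : ℕ in atTop, |Real.log (RR Q c' f' n / RR P c f n)| ≤ C := by
      filter_upwards [hC] with n hn
      rwa [← abs_neg, ← Real.log_inv, inv_div]
    have hBH := (hT7 P Q).1 ((hT0 v₀ P Q).1 hB)
    refine ⟨hA, fun cP => ?_, fun cQ => ?_⟩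
    · have cQ : ¬ Canc g Q := fun h => hnot ⟨cP, h⟩
      obtain ⟨hg1, hP3, hPc⟩ := cP.third hPf
      obtain ⟨δ₀, hδ₀, h1⟩ := (hZ2 P c f τ₀ K δ hP hb hP3 hPc).2 cP.2.2
      obtain ⟨ε, hε, h2⟩ := asm4_low hN1 hX7 hZ1 hZ2 Q c' f' τ₀' K' δ' g hQ hb' hg hQg hQf cQ
      exact hG3 P Q (hE3 P Q c c' f f' τ₀ K δ τ₀' K' δ' C ε δ₀ hP hQ hb hb' hC hε hδ₀
        (h2.mono fun n hn he => hn ⟨he, hg1 ▸ one_dvd _⟩) h1).1 hBH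
    · have cP : ¬ Canc g P := fun h => hnot ⟨h, cQ⟩
      obtain ⟨hg1, hQ3, hQc⟩ := cQ.third hQf
      obtain ⟨δ₀, hδ₀, h1⟩ := (hZ2 Q c' f' τ₀' K' δ' hQ hb' hQ3 hQc).2 cQ.2.2
      obtain ⟨ε, hε, h2⟩ := asm4_low hN1 hX7 hZ1 hZ2 P c f τ₀ K δ g hP hb hg hPg hPf cP
      exact hG3 P Q (hE3 Q P c' c f' f τ₀' K' δ' τ₀ K δ C ε δ₀ hQ hP hb' hb hC' hε hδ₀
        (h2.mono fun n hn he => hn ⟨he, hg1 ▸ one_dvd _⟩) h1).2 hBH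
  · rintro ⟨hA, cP, cQ⟩
    have hcr := hY.2 hA
    have hd := hA.1
    obtain ⟨C, hC⟩ := hC2 P Q c c' f f' τ₀ K δ τ₀' K' δ' hP hQ hd hb hb' hcr
    obtain ⟨ε, hε, h1⟩ := asm4_low hN1 hX7 hZ1 hZ2 P c f τ₀ K δ g hP hb hg hPg hPf cP
    obtain ⟨ε', hε', h1'⟩ := asm4_low hN1 hX7 hZ1 hZ2 Q c' f' τ₀' K' δ' g hQ hb' hg hQg hQf cQ
    have r1 := hN3 P Q c f τ₀ K δ _ ε hP hQ hb hε h1
    have r2 := hN3 Q P c' f' τ₀' K' δ' _ ε' hQ hP hb' hε' h1'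
    exact (hT0 v₀ P Q).2 ((hT7 P Q).2 (hG2 P Q (hF11 P Q _ _ g C hP hQ hPg hQg r1 r2 hC)))

end

end HillRoots
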