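import Mathlib

/-!
# MP_e63cf8_mp: root-function bases for periodic Hill operators with trigonometric potentials.

Definitions.  A trigonometric polynomial is written `V(x) = v₀ + P(e^{2ix}) + Q(e^{-2ix})` with polynomials
`P`, `Q` without constant term, so `v_j = P.coeff j`, `v_{-j} = Q.coeff j` for `j ≥ 1`.
-/

open Polynomial Filter Topology MeasureTheory Asymptotics
open scoped ContDiff

namespace HillRoots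

/-! ### Statement level -/

/-- `V(x) = v₀ + P(e^{2ix}) + Q(e^{-2ix})`. -/
noncomputable def pot (v₀ : ℂ) (P Q : ℂ[X]) (x : ℝ) : ℂ :=
  v₀ + P.eval (Complex.exp (2 * x * Complex.I)) + Q.eval (Complex.exp (-(2 * x * Complex.I)))

/-- `(L_V - μ) y = -y'' + V y - μ y`. -/
noncomputable def shiftOp (v₀ : ℂ) (P Q : ℂ[X]) (μ : ℂ) (y : ℝ → ℂ) : ℝ → ℂ :=
  fun x => -(deriv (deriv y) x) + (pot v₀ P Q x - μ) * y x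

/-- The root subspace of `L_V` (periodic boundary conditions) at `μ`: all smooth `π`-periodic `y` with
`(L_V - μ)^N y = 0` for some `N` (it is `{0}` if `μ` is not an eigenvalue). -/
def rootFun (v₀ : ℂ) (P Q : ℂ[X]) (μ : ℂ) : Set (ℝ → ℂ) :=
  {y | ContDiff ℝ ∞ y ∧ Function.Periodic y Real.pi ∧ ∃ N : ℕ, (shiftOp v₀ P Q μ)^[N] y = 0}

/-- `φ` is a Schauder basis of `L²(0,π)`: every `f ∈ L²(0,π)` has a unique expansion `∑ cₙ φₙ`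
converging in norm. -/
def IsSchauder (φ : ℕ → ℝ → ℂ) : Prop :=
  ∀ f : ℝ → ℂ, MemLp f 2 (volume.restrict (Set.Ioc 0 Real.pi)) →
    ∃! c : ℕ → ℂ, Tendsto (fun N : ℕ => eLpNorm (fun x => f x - ∑ n ∈ Finset.range N, c n * φ n x) 2
      (volume.restrict (Set.Ioc 0 Real.pi))) atTop (𝓝 0)

/-- Some system of root functions of `L_V` (the union of bases of all root subspaces, suitably enumerated)
is a Schauder basis of `L²(0,π)`. -/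
def HasRootBasis (v₀ : ℂ) (P Q : ℂ[X]) : Prop :=
  ∃ (φ : ℕ → ℝ → ℂ) (ev : ℕ → ℂ),
    (∀ μ : ℂ, LinearIndependent ℂ (fun n : {n : ℕ // ev n = μ} => φ n)) ∧
    (∀ μ : ℂ, (Submodule.span ℂ (φ '' {n | ev n = μ}) : Set (ℝ → ℂ)) = rootFun v₀ P Q μ) ∧
    IsSchauder φ

/-- all exponents of `P` are multiples of `g` -/
def SuppMul (g : ℕ) (P : ℂ[X]) : Prop := ∀ j, P.coeff j ≠ 0 → g ∣ j

/-- the smallest modulus of a solution of `P(w) = E` -/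
noncomputable def rmin (P : ℂ[X]) (E : ℝ) : ℝ := sInf {r : ℝ | ∃ w : ℂ, P.eval w = (E : ℂ) ∧ ‖w‖ = r}

/-- The criterion: the smallest solutions of `P(w) = E` and of `Q(w) = E` have the same modulus up to a
factor `exp(O(E^{-1/2}))` as `E → +∞`. -/
def Crit (P Q : ℂ[X]) : Prop :=
  (fun E : ℝ => Real.log (rmin P E / rmin Q E)) =O[atTop] (fun E : ℝ => E ^ (-(1 / 2) : ℝ))

/-- The even multiples of `g`. -/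
def evenMul (g : ℕ) : Set ℕ := {n | Even n ∧ g ∣ n}

/-- No cancellation along `S` between the branches `w₁,…,w_M` of `P(w) = E` (`M = deg P`): the sum over the
branches of `∏_{k=1}^{n-M} 1/w_l(4k(n-k))` is, for large `n ∈ S`, not much smaller than its largest term. -/
def NoCancelOn (P : ℂ[X]) (S : Set ℕ) : Prop :=
  ∃ (E₀ ε : ℝ) (w : Fin P.natDegree → ℝ → ℂ), 0 < ε ∧
    (∀ l, ContinuousOn (w l) (Set.Ici E₀)) ∧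
    (∀ E, E₀ ≤ E → (∀ l, P.eval (w l E) = (E : ℂ)) ∧ Function.Injective (fun l => w l E)) ∧
    ∀ n ∈ S, E₀ ≤ (n : ℝ) → ∀ l,
      ε * ∏ k ∈ Finset.Icc 1 (n - P.natDegree), ‖w l (4 * (k : ℝ) * ((n : ℝ) - k))‖⁻¹ ≤
        ‖∑ i, ∏ k ∈ Finset.Icc 1 (n - P.natDegree), (w i (4 * (k : ℝ) * ((n : ℝ) - k)))⁻¹‖

/-- For all large `E` one solution `w₀` of `P(w) = E` (up to multiplication by `g`-th roots of unity) is smaller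
than all the others, at least by a factor `1 - O(E^{-θ})` with `θ < 1/2`. -/
def Dominant (g : ℕ) (P : ℂ[X]) : Prop :=
  ∃ c θ E₀ : ℝ, 0 < c ∧ θ < 1 / 2 ∧ ∀ E : ℝ, E₀ ≤ E → ∃ w₀ : ℂ, P.eval w₀ = (E : ℂ) ∧
    ∀ w : ℂ, P.eval w = (E : ℂ) → w ^ g ≠ w₀ ^ g → (1 + c * E ^ (-θ)) * ‖w₀‖ ≤ ‖w‖

/-- `μ(P) = max { Re (c a_{M-1} / a_M) : c^M = a_M }`, where `P = a_M X^M + a_{M-1} X^{M-1} + …`. -/
noncomputable def muP (P : ℂ[X]) : ℝ :=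
  sSup {x : ℝ | ∃ c : ℂ, c ^ P.natDegree = P.leadingCoeff ∧
    x = (c * P.coeff (P.natDegree - 1) / P.leadingCoeff).re}

/-! ### Sequence level -/

/-- The Hilbert space `ℓ²(ℤ)`. -/
abbrev Hs : Type := lp (fun _ : ℤ => ℂ) 2

/-- The standard basis vectors of `ℓ²(ℤ)`. -/
noncomputable def ee (j : ℤ) : Hs := lp.single 2 j (1 : ℂ)

/-- multiplication by `V - v₀` on the Fourier side -/
noncomputable def Vop (P Q : ℂ[X]) (x : ℤ → ℂ) (s : ℤ) : ℂ :=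
  ∑ j ∈ Finset.range (P.natDegree + 1), P.coeff j * x (s - j) +
    ∑ j ∈ Finset.range (Q.natDegree + 1), Q.coeff j * x (s + j)

/-- the sum of the moduli of the coefficients -/
noncomputable def nu (P Q : ℂ[X]) : ℝ :=
  ∑ j ∈ Finset.range (P.natDegree + 1), ‖P.coeff j‖ + ∑ j ∈ Finset.range (Q.natDegree + 1), ‖Q.coeff j‖

/-- `L_V` with `v₀ = 0` on the Fourier side -/
noncomputable def Top (P Q : ℂ[X]) (x : ℤ → ℂ) (s : ℤ) : ℂ := 4 * (s : ℂ) ^ 2 * x s + Vop P Q x s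

/-- `L_V - μ` with `v₀ = 0` on the Fourier side -/
noncomputable def Tsh (P Q : ℂ[X]) (μ : ℂ) (x : ℤ → ℂ) (s : ℤ) : ℂ := Top P Q x s - μ * x s

/-- The root vectors of `L_V` on the Fourier side. -/
def seqRoot (P Q : ℂ[X]) (μ : ℂ) : Set Hs :=
  {x | (∀ i : ℕ, Memℓp ((Tsh P Q μ)^[i] x) 2) ∧ ∃ N : ℕ, (Tsh P Q μ)^[N] x = 0}

/-- Schauder bases of `ℓ²(ℤ)` -/
def SchauderH (φ : ℕ → Hs) : Prop :=
  ∀ f : Hs, ∃! c : ℕ → ℂ, Tendsto (fun N : ℕ => ∑ n ∈ Finset.range N, c n • φ n) atTop (𝓝 f)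

/-- The Fourier side version of `HasRootBasis`. -/
def SeqBasis (P Q : ℂ[X]) : Prop :=
  ∃ (φ : ℕ → Hs) (ev : ℕ → ℂ),
    (∀ μ : ℂ, LinearIndependent ℂ (fun n : {n : ℕ // ev n = μ} => φ n)) ∧
    (∀ μ : ℂ, (Submodule.span ℂ (φ '' {n | ev n = μ}) : Set Hs) = seqRoot P Q μ) ∧
    SchauderH φ

/-- Fourier coefficients with respect to `e^{2isx}` on `(0,π)` -/
noncomputable def fc (f : ℝ → ℂ) (s : ℤ) : ℂ :=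
  (1 / (Real.pi : ℂ)) * ∫ x in (0 : ℝ)..Real.pi, f x * Complex.exp (-(2 * s * x * Complex.I))

/-! ### Block decomposition -/

/-- index of the block of `i`: `0` for `|i| ≤ N`, else `|i|` -/
def blk (N : ℕ) (i : ℤ) : ℕ := if i.natAbs ≤ N then 0 else i.natAbs

/-- `W` transforms `L_V` into the block diagonal operator `D + Y`. -/
structure BD (P Q : ℂ[X]) (K : ℝ) (N : ℕ) (W : Hs ≃L[ℂ] Hs) (Y : Hs →L[ℂ] Hs) : Prop where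
  hW : ∀ x, ‖W x‖ ≤ 2 * ‖x‖
  hWs : ∀ x, ‖W.symm x‖ ≤ 2 * ‖x‖
  near : ∀ j : ℤ, N < j.natAbs → ‖W (ee j) - ee j‖ ≤ K / |(j : ℝ)|
  Yblk : ∀ i j : ℤ, blk N i ≠ blk N j → (Y (ee j) : ℤ → ℂ) i = 0
  Ybd : ∀ x, ‖Y x‖ ≤ 2 * nu P Q * ‖x‖
  inter : ∀ j s : ℤ, Top P Q (W (ee j)) s = (W ((4 * (j : ℂ) ^ 2) • ee j + Y (ee j)) : ℤ → ℂ) s

/-- Good pairs of root vectors near every large block. -/
def GoodPairs (P Q : ℂ[X]) : Prop :=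
  ∃ (k₀ : ℕ) (K : ℝ), 0 < K ∧ ∀ k : ℕ, k₀ ≤ k → 1 ≤ k →
    ∃ (f g : Hs) (a b p q p' q' : ℂ), f ∈ seqRoot P Q a ∧ g ∈ seqRoot P Q b ∧
      ‖a - 4 * (k : ℂ) ^ 2‖ ≤ K ∧ ‖b - 4 * (k : ℂ) ^ 2‖ ≤ K ∧
      ‖f - p • ee (-(k : ℤ)) - q • ee k‖ ≤ K / k ∧ ‖g - p' • ee (-(k : ℤ)) - q' • ee k‖ ≤ K / k ∧
      ‖p‖ ≤ K ∧ ‖q‖ ≤ K ∧ ‖p'‖ ≤ K ∧ ‖q'‖ ≤ K ∧ 1 / K ≤ ‖p * q' - p' * q‖

/-- Nearly parallel root vectors for different eigenvalues. -/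
def BadPairs (P Q : ℂ[X]) : Prop :=
  ∃ K : ℝ, ∀ ε : ℝ, 0 < ε → ∃ (k : ℕ) (f g : Hs) (a b : ℂ) (j : ℤ), 1 / ε ≤ k ∧ a ≠ b ∧
    ‖a - 4 * (k : ℂ) ^ 2‖ ≤ K ∧ ‖b - 4 * (k : ℂ) ^ 2‖ ≤ K ∧
    f ∈ seqRoot P Q a ∧ g ∈ seqRoot P Q b ∧ ‖f - ee j‖ ≤ ε ∧ ‖g - ee j‖ ≤ ε

/-! ### The Feshbach problem -/

/-- `E_s = 4 s (n - s)` -/
noncomputable def En (n : ℕ) (s : ℤ) : ℝ := 4 * (s : ℝ) * ((n : ℝ) - s)

/-- bounded solutions of `(E_s + z) x_s = (V x)_s + φ_s`, `s ≠ 0, n`, with `x_0 = p`, `x_n = q` -/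
structure Sol (P Q : ℂ[X]) (n : ℕ) (z p q : ℂ) (φ x : ℤ → ℂ) : Prop where
  bdd : ∃ C : ℝ, ∀ s, ‖x s‖ ≤ C
  zero : x 0 = p
  top : x n = q
  eqn : ∀ s : ℤ, s ≠ 0 → s ≠ n → ((En n s : ℂ) + z) * x s = Vop P Q x s + φ s

/-- the solution with `x_0 = 1`, `x_n = 0`, `φ = 0` -/
noncomputable def C0 (P Q : ℂ[X]) (n : ℕ) (z : ℂ) : ℤ → ℂ :=
  Classical.epsilon (fun x => Sol P Q n z 1 0 0 x)

noncomputable def beta (P Q : ℂ[X]) (n : ℕ) (z : ℂ) : ℂ := Vop P Q (C0 P Q n z) n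

noncomputable def alpha (P Q : ℂ[X]) (n : ℕ) (z : ℂ) : ℂ := Vop P Q (C0 P Q n z) 0

/-! ### Branches -/

/-- `e^{2πi/M}` -/
noncomputable def om (M : ℕ) : ℂ := Complex.exp (2 * Real.pi * Complex.I / M)

/-- the branches `λ_l(τ) = ω^l g(c ω^l τ)` -/
noncomputable def br (M : ℕ) (c : ℂ) (g : ℂ → ℂ) (l : ℕ) (t : ℝ) : ℂ := om M ^ l * g (c * om M ^ l * t)

/-- `τ_k = (4k(n-k))^{-1/M}`; note `tau M n 0 = 0`. -/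
noncomputable def tau (M n k : ℕ) : ℝ := (4 * (k : ℝ) * ((n : ℝ) - k)) ^ (-(1 / (M : ℝ)))

/-- Data for the recursion lemma. -/
structure LDat (M : ℕ) (A : ℕ → ℂ) (L : ℕ → ℝ → ℂ) (τ₀ K δ : ℝ) : Prop where
  hM : 1 ≤ M
  ht : 0 < τ₀
  hδ : 0 < δ
  zero : ∀ l < M, L l 0 = om M ^ l
  eqn : ∀ l < M, ∀ t ∈ Set.Icc 0 τ₀,
    L l t ^ M = 1 + ∑ j ∈ Finset.Ico 1 M, A j * (t : ℂ) ^ (M - j) * L l t ^ (M - j)
  dom : ∀ l < M, ∀ t ∈ Set.Icc 0 τ₀, ‖L l t‖ ≤ ‖L 0 t‖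
  low : ∀ l < M, ∀ t ∈ Set.Icc 0 τ₀, 1 / 2 ≤ ‖L l t‖
  upp : ∀ l < M, ∀ t ∈ Set.Icc 0 τ₀, ‖L l t‖ ≤ 2
  lip : ∀ l < M, ∀ t ∈ Set.Icc 0 τ₀, ∀ t' ∈ Set.Icc 0 τ₀, ‖L l t - L l t'‖ ≤ K * |t - t'|
  sep : ∀ l < M, ∀ l' < M, l ≠ l' → ∀ t ∈ Set.Icc 0 τ₀, δ ≤ ‖L l t - L l' t‖

/-- Branch data of `P`: `c^M = a_M`, `g` analytic near `0` with `g(0) = 1` and
`g(x)^M = ∑_{j=1}^M (a_j/a_M) (x g(x))^{M-j}`; then `1/(c τ λ_l(τ))`, `τ = E^{-1/M}`, are the solutions of `P(w) = E`;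
the branch `l = 0` is a largest one. -/
structure Branch (P : ℂ[X]) (c : ℂ) (g : ℂ → ℂ) (τ₀ K δ : ℝ) : Prop where
  hc : c ^ P.natDegree = P.leadingCoeff
  c0 : c ≠ 0
  an : ∃ r : ℝ, ‖c‖ * τ₀ < r ∧ AnalyticOnNhd ℂ g (Metric.ball 0 r)
  one : g 0 = 1
  eqn : ∀ x : ℂ, ‖x‖ ≤ ‖c‖ * τ₀ → g x ^ P.natDegree =
    ∑ j ∈ Finset.Icc 1 P.natDegree, P.coeff j / P.leadingCoeff * (x * g x) ^ (P.natDegree - j)
  ld : LDat P.natDegree (fun j => P.coeff j / c ^ j) (br P.natDegree c g) τ₀ K δ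

/-- `h_s = c^s (4M²)^{-s/M} Γ((n-s)/M) / (Γ(n/M) Γ(1+s/M))`, `0 ≤ s < n` -/
noncomputable def hh (M : ℕ) (c : ℂ) (n s : ℕ) : ℂ :=
  c ^ s * (((4 * (M : ℝ) ^ 2) ^ (-((s : ℝ) / M)) * Real.Gamma (((n : ℝ) - s) / M) /
    (Real.Gamma ((n : ℝ) / M) * Real.Gamma (1 + (s : ℝ) / M)) : ℝ) : ℂ)

/-- `G_k = ∏_{i ≤ k} |λ_0(τ_i)|` -/
noncomputable def GG (M : ℕ) (c : ℂ) (g : ℂ → ℂ) (n k : ℕ) : ℝ :=
  ∏ i ∈ Finset.Icc 1 k, ‖br M c g 0 (tau M n i)‖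

/-- `y_s = (1/M) ∑_l ∏_{i ≤ s} λ_l(τ_i)` -/
noncomputable def yy (M : ℕ) (c : ℂ) (g : ℂ → ℂ) (n s : ℕ) : ℂ :=
  (1 / (M : ℂ)) * ∑ l ∈ Finset.range M, ∏ i ∈ Finset.Icc 1 s, br M c g l (tau M n i)

/-- the size `R_n = |a_M h_{n-M}| G_{n-M}` of `β_n` -/
noncomputable def RR (P : ℂ[X]) (c : ℂ) (g : ℂ → ℂ) (n : ℕ) : ℝ :=
  ‖P.leadingCoeff‖ * ‖hh P.natDegree c n (n - P.natDegree)‖ * GG P.natDegree c g n (n - P.natDegree)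

/-- the recursion coefficients `f_j(s)` -/
noncomputable def ff (P : ℂ[X]) (c : ℂ) (n s j : ℕ) : ℂ :=
  if j ≤ s then P.coeff j * hh P.natDegree c n (s - j) / ((En n s : ℂ) * hh P.natDegree c n s)
  else P.coeff j / c ^ j * (tau P.natDegree n s : ℂ) ^ (P.natDegree - j)

/-- `β_n` has size `R_n` along `S`, with small Lipschitz constant. -/
def Reg (β : ℕ → ℂ → ℂ) (R : ℕ → ℝ) (S : Set ℕ) : Prop :=
  ∃ ε : ℝ, 0 < ε ∧ ∀ η : ℝ, 0 < η → ∃ n₀ : ℕ, ∀ n ∈ S, n₀ ≤ n → 0 < R n ∧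
    ∀ z z' : ℂ, ‖z‖ ≤ 1 → ‖z'‖ ≤ 1 →
      ε * R n ≤ ‖β n z‖ ∧ ‖β n z‖ ≤ 2 * R n ∧ ‖β n z - β n z'‖ ≤ η * ‖z - z'‖ * R n

end HillRoots
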