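import Pool.Agent.Lib.MP_e63cf8_mp.Defs

/-!
# MP_e63cf8_mp, statements A: Fourier transfer, Schauder bases, block decomposition

Every `S_xx : Prop` is one piece; its complete proof is in the docstring.
-/

open Polynomial Filter Topology MeasureTheory Asymptotics
open scoped ContDiff

namespace HillRoots

/-! ## T: transfer from functions to Fourier coefficients -/

/-- [T0] the constant term only shifts the spectrum.
Proof: `shiftOp v₀ P Q μ = shiftOp 0 P Q (μ - v₀)` (unfold), hence `rootFun v₀ P Q μ = rootFun 0 P Q (μ - v₀)`;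
pass from `ev` to `ev - v₀` (resp. `ev + v₀`); the index sets `{n | ev n = μ}` correspond. -/
def S_T0 : Prop := ∀ (v₀ : ℂ) (P Q : ℂ[X]), HasRootBasis v₀ P Q ↔ HasRootBasis 0 P Q

/-- [T1] the operator on the Fourier side.
Proof: smoothness and periodicity of `y''` and of `pot` are clear (`pot 0 P Q` is smooth and `π`-periodic, as
`e^{2i(x+π)} = e^{2ix}`). Fourier coefficients: `fc` of `e^{2ijx} y` at `s` is `fc y (s-j)`, and
`P.eval (e^{2ix}) = ∑_j P.coeff j e^{2ijx}` (`Polynomial.eval_eq_sum_range`), the same for `Q`; `fc (y'') s = -4 s² fc y s` by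
two integrations by parts (the boundary terms cancel by periodicity of `y, y'`); linearity of the integral
(all functions are continuous, hence interval integrable). -/
def S_T1 : Prop := ∀ (P Q : ℂ[X]) (μ : ℂ) (y : ℝ → ℂ), ContDiff ℝ ∞ y → Function.Periodic y Real.pi →
  ContDiff ℝ ∞ (shiftOp 0 P Q μ y) ∧ Function.Periodic (shiftOp 0 P Q μ y) Real.pi ∧
  fc (shiftOp 0 P Q μ y) = Tsh P Q μ (fc y)

/-- [T2] Parseval. Proof: `fc f s = fourierCoeffOn Real.pi_pos f s` (`fourierCoeffOn_eq_integral` with `b - a = π`,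
`fourier (-s) x = exp(-2πi s x/π)`), and `hasSum_sq_fourierCoeffOn`: `∑|fc f s|² = π⁻¹ ∫_0^π |f|²`, while
`(eLpNorm f 2 μ).toReal ^ 2 = ∫ |f|²`. -/
def S_T2 : Prop := ∀ f : ℝ → ℂ, MemLp f 2 (volume.restrict (Set.Ioc 0 Real.pi)) →
  ∃ x : Hs, (∀ s, x s = fc f s) ∧
    (eLpNorm f 2 (volume.restrict (Set.Ioc 0 Real.pi))).toReal = Real.sqrt Real.pi * ‖x‖

/-- [T3] Riesz-Fischer. Proof: `fourierBasis` for `T = π` (with `Fact (0 < π)`) is a Hilbert basis of `L²(AddCircle π)`;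
take `F = fourierBasis.repr.symm x` and `f t = F (t : AddCircle π)`, `t ∈ ℝ`; the map `Ioc 0 π → AddCircle π` is measure preserving up to
the normalisation (`AddCircle.measurePreserving_mk`), so `f ∈ L²`, and `fc f s = fourierCoeff F s = x s`
(`fourierBasis_repr`, `fourierCoeff_eq_intervalIntegral`). -/
def S_T3 : Prop := ∀ x : Hs, ∃ f : ℝ → ℂ, MemLp f 2 (volume.restrict (Set.Ioc 0 Real.pi)) ∧ ∀ s, fc f s = x s

/-- [T4] root vectors decay rapidly. Proof: let `x_i = (Tsh)^[i] x ∈ ℓ²`, `x_N = 0`, `x_{i+1} = Tsh x_i`. Claim: for every `i ≤ N`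
and every `p : ℕ` there is `C` with `‖x_i s‖ (1+|s|)^p ≤ C`. Downward induction on `i`; `i = N` is trivial. If it holds for `x_{i+1}`:
`(4 s² - μ) x_i s = x_{i+1} s - Vop x_i s`. Induction on `p` in steps of `2`: `x_i` is bounded (`p = 0`, an `ℓ²` sequence);
if `‖x_i s‖ ≤ C (1+|s|)^{-p}` then `‖Vop x_i s‖ ≤ C' (1+|s|)^{-p}` (finitely many shifts), hence
`‖x_i s‖ ≤ C'' (1+|s|)^{-p-2}` for `4 s² ≥ 2|μ|+1`, and for the finitely many other `s` by enlarging `C''`. -/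
def S_T4 : Prop := ∀ (P Q : ℂ[X]) (μ : ℂ) (x : Hs), x ∈ seqRoot P Q μ →
  ∀ p : ℕ, ∃ C : ℝ, ∀ s : ℤ, ‖x s‖ * (1 + |(s : ℝ)|) ^ p ≤ C

/-- [T5] rapidly decaying sequences are Fourier coefficients of smooth functions. Proof: `y t = ∑ₛ x s e^{2ist}`, smooth by
`contDiff_tsum` (the `k`-th derivative of a term is bounded by `|x s| (2|s|)^k`, summable), periodic, and `fc y s = x s` by
exchanging sum and integral (or orthogonality and uniform convergence). -/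
def S_T5 : Prop := ∀ x : ℤ → ℂ, (∀ p : ℕ, ∃ C : ℝ, ∀ s : ℤ, ‖x s‖ * (1 + |(s : ℝ)|) ^ p ≤ C) →
  ∃ y : ℝ → ℂ, ContDiff ℝ ∞ y ∧ Function.Periodic y Real.pi ∧ fc y = x

/-- [T6] uniqueness. Proof: by Parseval (`hasSum_sq_fourierCoeffOn`) `∫_0^π |y|² = 0`, so `y = 0` on `(0,π)` by continuity and
everywhere by periodicity. -/
def S_T6 : Prop := ∀ y : ℝ → ℂ, Continuous y → Function.Periodic y Real.pi → fc y = 0 → y = 0

/-- [T7] the transfer theorem, from T1-T6 (take them as hypotheses).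
Proof. (a) If `y ∈ rootFun 0 P Q μ` then its sequence `x` (T2, a continuous function is in `L²`) lies in `seqRoot P Q μ`: by T1 and
induction `(Tsh)^[i] x = fc ((shiftOp)^[i] y) ∈ ℓ²`, and it is `0` for `i = N`.
(b) If `x ∈ seqRoot P Q μ` there is `y` smooth periodic with `fc y = x` (T4, T5) and `(shiftOp)^[N] y` has Fourier coefficients
`(Tsh)^[N] x = 0`, so it is `0` (T1, T6): `y ∈ rootFun`. (c) `fc` is linear on continuous functions and injective on smooth periodic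
functions (T6), so linear independence and spans correspond.
(→) given `φ, ev`, let `φ' n` be the element of `Hs` of `φ n ∈ rootFun` (it lies in the span). Schauder: for `a : Hs` choose `f` by T3; by T2
applied to `f - ∑ c_n φ_n`, `eLpNorm(f - ∑_{n<N} c_n φ_n) → 0` iff `‖a - ∑_{n<N} c_n φ'_n‖ → 0` (T2 gives an `x` with the Fourier
coefficients of `f - ∑`, so `x = a - ∑ c_n φ'_n`); so existence and uniqueness of `c` transfer.
(←) given `φ', ev`, let `φ n` be the smooth periodic function of `φ' n ∈ seqRoot` from (b); Schauder: for `f ∈ L²` take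
`a ∈ Hs` from T2 and use the same equivalence. -/
def S_T7 : Prop := ∀ P Q : ℂ[X], HasRootBasis 0 P Q ↔ SeqBasis P Q

/-! ## S: Schauder bases -/

/-- [S1] the image of the standard basis under an isomorphism, in any enumeration, is a Schauder basis.
Proof: for `f` put `a = U.symm f`, `c n = a (σ n)`; `∑_{n<N} a(σ n) ee(σ n) → a` (unconditional convergence `lp.hasSum_single` composed with
the equivalence `σ`, then `HasSum.tendsto_sum_nat`); apply `U`. Uniqueness: apply `U.symm` and the coordinate `σ m`. -/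
def S_S1 : Prop := ∀ (U : Hs ≃L[ℂ] Hs) (σ : ℕ ≃ ℤ), SchauderH (fun n => U (ee (σ n)))

/-- [S2] the coordinate functionals of a Schauder basis are continuous, uniformly.
Proof (Banach): `φ n ≠ 0` by uniqueness. Let `Y = {c : ℕ → ℂ | ∑_{n<N} c_n φ_n converges}`, with norm `‖c‖ = sup_N ‖∑_{n<N} c_n φ_n‖`. It is a
Banach space: if `c^{(j)}` is Cauchy, each coordinate is Cauchy (`|c_n| ‖φ_n‖ ≤ 2‖c‖`), the partial sums
`S_N^{(j)}` converge uniformly in `N` as `j → ∞`, and the limit sequence is in `Y`. The map `Y → Hs`, `c ↦ ∑ c_n φ_n` is linear, bounded by `1`,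
bijective by hypothesis; by the open mapping theorem its inverse is bounded: `|c_n(f)| ‖φ_n‖ ≤ 2 ‖c(f)‖_Y ≤ K ‖f‖`. For `f = φ n - t φ n'` the
coefficients are `1` at `n`, `-t` at `n'`, so `‖φ n‖ ≤ K ‖φ n - t φ n'‖`. -/
def S_S2 : Prop := ∀ φ : ℕ → Hs, SchauderH φ →
  ∃ K : ℝ, 0 < K ∧ ∀ n n' : ℕ, n ≠ n' → ∀ t : ℂ, ‖φ n‖ ≤ K * ‖φ n - t • φ n'‖

/-! ## B: block decomposition -/

/-- [B0] `Vop` is a bounded operator of norm at most `nu`.
Proof: a shift `x ↦ (s ↦ x (s - j))` preserves `Memℓp` and the `ℓ²` norm (reindexing `tsum` by an equivalence); sum up. -/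
def S_B0 : Prop := ∀ P Q : ℂ[X], ∃ V : Hs →L[ℂ] Hs, (∀ x s, (V x : ℤ → ℂ) s = Vop P Q x s) ∧ ∀ x, ‖V x‖ ≤ nu P Q * ‖x‖

/-- [B1] invariant columns of one block (take `S_B0` as hypothesis).
Proof: let `ν = nu`, `n = card b ≥ 1` (if `b` is empty take `X = 0`). On the complete space `b → Hs` (sup norm) consider
`F(X)_j = Γ_j (-V(e_j + X_j) + ∑_{l ∈ b} (V(e_j+X_j))_l X_l)`, where `Γ_j` multiplies the `i`-th coordinate by `1/(4i²-4j²)` for `i ∉ b` and by `0`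
for `i ∈ b`; `‖Γ_j‖ ≤ 1/γ`. For `‖X‖,‖X'‖ ≤ 1`: `∑_{l∈b} |(V u)_l| ≤ √n ‖V u‖ ≤ √n ν ‖u‖`, so
`‖F(X)_j - F(X')_j‖ ≤ (1/γ)(ν + √n ν + 2 √n ν) ‖X - X'‖ ≤ (4 √n ν/γ)‖X-X'‖ ≤ ½‖X-X'‖`, and `‖F(0)‖ ≤ ν/γ`. So `F` maps the closed ball of
radius `2ν/γ ≤ 1` into itself and is a contraction there; its fixed point `X` satisfies `X_j i = 0` (`i ∈ b`) and, for `s ∉ b`,
`(4s² - 4j²) X_j s = -(V(e_j+X_j))_s + ∑_l (V(e_j+X_j))_l X_l s`, which is the last claim for `s ∉ b`; for `s ∈ b` it reads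
`4s² δ_{js} + (V(e_j+X_j))_s = 4 j² δ_{js} + (V(e_j+X_j))_s`. (For `ν = 0` take `X = 0`.) -/
def S_B1 : Prop := ∀ (P Q : ℂ[X]) (b : Finset ℤ) (γ : ℝ), 0 < γ →
  (∀ i : ℤ, i ∉ b → ∀ j ∈ b, γ ≤ |4 * (i : ℝ) ^ 2 - 4 * (j : ℝ) ^ 2|) →
  8 * nu P Q * Real.sqrt b.card ≤ γ →
  ∃ X : ℤ → Hs, (∀ j ∈ b, ∀ i ∈ b, (X j : ℤ → ℂ) i = 0) ∧ (∀ j ∈ b, ‖X j‖ ≤ 2 * nu P Q / γ) ∧
    ∀ j ∈ b, ∀ s : ℤ, Top P Q (ee j + X j) s =
      4 * (j : ℂ) ^ 2 * (ee j + X j : ℤ → ℂ) s + ∑ l ∈ b, Vop P Q (ee j + X j) l * (ee l + X l : ℤ → ℂ) s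

/-- [B2] quadratically small perturbations of the standard basis.
Proof: `X a = ∑ a_j X_j` converges (Cauchy-Schwarz) and `‖X a‖ ≤ (∑‖X_j‖²)^{1/2} ‖a‖ ≤ ½‖a‖`; so `W = 1 + X` is invertible
(Neumann series), `‖W a‖ ≤ (3/2)‖a‖`, `‖W a‖ ≥ ½‖a‖`. -/
def S_B2 : Prop := ∀ X : ℤ → Hs, Summable (fun j => ‖X j‖ ^ 2) → ∑' j, ‖X j‖ ^ 2 ≤ 1 / 4 →
  ∃ W : Hs ≃L[ℂ] Hs, (∀ j, W (ee j) = ee j + X j) ∧ (∀ x, ‖W x‖ ≤ 2 * ‖x‖) ∧ ∀ x, ‖W.symm x‖ ≤ 2 * ‖x‖

/-- [B3] existence of the block diagonalisation, for all large `N` (take `S_B0`, `S_B1`, `S_B2` as hypotheses).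
Proof: let `ν = nu`. Blocks: `b₀ = Icc (-N) N` (`γ = 8N+4`: for `|i| ≥ N+1`, `|j| ≤ N`, `4i²-4j² ≥ 4(2N+1)`), and `{k,-k}`, `k > N`
(`γ = 8k-4`: the nearest other square is `(k-1)²`). Condition `8ν√card ≤ γ`: `8ν√(2N+1) ≤ 8N+4` and `8ν√2 ≤ 8k-4` for `N` large.
Let `X_j` be the columns from B1: `‖X_j‖ ≤ 2ν/(8N+4)` for `|j| ≤ N` and `≤ 2ν/(8|j|-4) ≤ ν/(2|j|)` for `|j| > N` (so `K = ν/2` works);
`∑_j ‖X_j‖² ≤ (2N+1)(2ν)²/(8N+4)² + 2∑_{k>N}(2ν)²/(8k-4)² → 0`, so it is `≤ 1/4` for `N` large; `W` from B2.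
`Y` : `(Y a)_i = (V W P_b a)_i` where `b` is the block of `i` and `P_b` the coordinate projection: on vectors supported in one block
`‖Y a‖ = ‖P_b V W a‖ ≤ 2ν‖a‖`, blocks are orthogonal, so `Y` is well defined and `‖Y a‖ ≤ 2ν‖a‖` in general. `Yblk` is clear and
`inter` is the last claim of B1: `Top (W e_j) = 4j² W e_j + ∑_{l∈b} (V W e_j)_l W e_l = W (4j² e_j + Y e_j)`. -/
def S_B3 : Prop := ∀ P Q : ℂ[X], ∃ (K : ℝ) (N₀ : ℕ), ∀ N : ℕ, N₀ ≤ N → ∃ (W : Hs ≃L[ℂ] Hs) (Y : Hs →L[ℂ] Hs), BD P Q K N W Y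

/-- [B4] equations for `T` are equations for `D + Y` (take `S_B0` as hypothesis).
Proof: let `ν = nu`, choose real `t ≥ 4ν+1`. (i) `T + t` is injective on `ℓ²`: if `x ∈ Hs` and `4s² x_s + (Vx)_s + t x_s = 0` for all `s` then
`‖x‖ ≤ (ν/t)‖x‖`, so `x = 0`. (ii) for `h ∈ Hs` there is `u ∈ Hs` with `(4i² + t) u_i + (Y u)_i = h_i` for all `i`: fixed point of
`u ↦ (D+t)^{-1}(h - Y u)`, a contraction as `‖(D+t)^{-1}‖ ≤ 1/t` and `‖Y‖ ≤ 2ν`. Then `v_i := 4i² u_i + (Yu)_i = h_i - t u_i` defines `v ∈ Hs`.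
(iii) `Top (W u) s = (W v)_s`: for the truncations `u^M = ∑_{|i| ≤ M} u_i e_i`, `M ≥ N`, linearity of `Top` on finite sums and `inter` give
`Top (W u^M) = W ((D+Y) u^M)` and `(D+Y) u^M = P_M (D+Y) u = P_M v` (as `Y` is block diagonal, `Yblk`, `M ≥ N`); let `M → ∞`: `u^M → u`,
`P_M v → v` in `Hs`, and both sides are continuous in `Hs` for fixed `s`.
Now given `x, x'` with `Top x s - μ x s = x' s`: let `h = W.symm (x' + (μ + t) x)`, `u, v` from (ii): `Top (W u) + t W u = W (v + t u) = W h = x' + (μ+t) x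
= Top x + t x`, so `W u = x` by (i), i.e. `u = W.symm x`, and `4i² u_i + (Yu)_i + t u_i = h_i = (W.symm x')_i + (μ+t) u_i`. -/
def S_B4 : Prop := ∀ (P Q : ℂ[X]) (K : ℝ) (N : ℕ) (W : Hs ≃L[ℂ] Hs) (Y : Hs →L[ℂ] Hs), BD P Q K N W Y →
  ∀ (μ : ℂ) (x x' : Hs), (∀ s, Top P Q x s - μ * x s = x' s) →
    ∀ i : ℤ, 4 * (i : ℂ) ^ 2 * W.symm x i + Y (W.symm x) i - μ * W.symm x i = W.symm x' i

/-- [B5] location of root vectors (take `S_B4` as hypothesis).
Proof: for the block index `m` let `P_m` be the coordinate projection on `{i | blk N i = m}` (finite). Let `x ∈ seqRoot P Q μ`, `x_i = Tsh^[i] x ∈ Hs`,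
`x_0 = x`, `x_n = 0`, `a_i = W.symm x_i`. By B4, `a_{i+1} = (D + Y - μ) a_i` coordinatewise; `Y` commutes with `P_m` (`Yblk`), so
`P_m a_{i+1} = (D+Y-μ) P_m a_i`, `P_m a_n = 0`. If `P_m a_0 ≠ 0` take the last `i` with `u := P_m a_i ≠ 0`: `(D+Y-μ) u = 0`, so
`min_{blk i = m} |4i²-μ| ‖u‖ ≤ ‖(D-μ)u‖ = ‖Y u‖ ≤ 2ν‖u‖`: there is `i` in the block with `|4i²-μ| ≤ 2ν`. For `N ≥ N₀` (with `8N+4 > 4ν`) the sets
`{μ : ∃ i in block m, |4i²-μ| ≤ 2ν}` are pairwise disjoint, so if `x ≠ 0`, exactly one block occurs. -/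
def S_B5 : Prop := ∀ P Q : ℂ[X], ∃ N₀ : ℕ, ∀ (K : ℝ) (N : ℕ), N₀ ≤ N → ∀ (W : Hs ≃L[ℂ] Hs) (Y : Hs →L[ℂ] Hs), BD P Q K N W Y →
  ∀ (μ : ℂ) (x : Hs), x ∈ seqRoot P Q μ → x ≠ 0 →
    ∃ i : ℤ, ‖4 * (i : ℂ) ^ 2 - μ‖ ≤ 2 * nu P Q ∧ ∀ j : ℤ, blk N j ≠ blk N i → W.symm x j = 0

/-- [B6] every block space is spanned by root vectors: there is a basis of root vectors.
Proof: let `b = {i | blk N i = m}` (finite, nonempty by hypothesis), `U = span {W e_i : i ∈ b}`. By `inter` and `Yblk`, `T` maps `U` to `U`: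
it is represented on `U ≅ (b → ℂ)` by a matrix `B`. `ℂ^b` is the direct sum of the generalised eigenspaces of `B`
(`Module.End.iSup_maxGenEigenspace_eq_top`, independence), choose bases of them and collect them to a basis `u_i`, `i ∈ b`, of `ℂ^b` with
`(B - ev_i)^{card} u_i = 0`. Put `ψ_i = W u_i ∈ Hs`: `Tsh^[r] ψ_i = W (B - ev_i)^r u_i` is in `Hs` for all `r` and `0` for `r` large, so
`ψ_i ∈ seqRoot P Q (ev_i)`. -/
def S_B6 : Prop := ∀ (P Q : ℂ[X]) (K : ℝ) (N : ℕ) (W : Hs ≃L[ℂ] Hs) (Y : Hs →L[ℂ] Hs), BD P Q K N W Y →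
  ∀ m : ℕ, ∃ (ψ : {i : ℤ // blk N i = m} → Hs) (ev : {i : ℤ // blk N i = m} → ℂ),
    (∀ i, ψ i ∈ seqRoot P Q (ev i)) ∧ LinearIndependent ℂ ψ ∧
    Submodule.span ℂ (Set.range ψ) = Submodule.span ℂ (Set.range fun i : {i : ℤ // blk N i = m} => W (ee i))

/-- [B7] root subspaces for different `μ` are independent, and `seqRoot` is a submodule.
Proof: submodule: `Tsh` is linear on functions, `Memℓp` is closed under sums and scalars, use the larger `N`. Independence: `Tsh μ = Top - μ` is a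
linear map on `ℤ → ℂ`, and `seqRoot P Q μ` is contained in its generalised eigenspace `⋃ ker (Top - μ)^N`; generalised
eigenspaces of a linear map for distinct eigenvalues are independent (`Module.End.independent_maxGenEigenspace`). Concretely: if
`∑_{a ∈ s} x_a = 0` with `x_a ∈ seqRoot P Q a` then all `x_a = 0`. -/
def S_B7 : Prop := ∀ P Q : ℂ[X],
  (∀ μ : ℂ, ∃ S : Submodule ℂ Hs, (S : Set Hs) = seqRoot P Q μ) ∧
  ∀ (s : Finset ℂ) (x : ℂ → Hs), (∀ a ∈ s, x a ∈ seqRoot P Q a) → ∑ a ∈ s, x a = 0 → ∀ a ∈ s, x a = 0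

/-! ## G: bases from pairs -/

/-- [G1] block diagonal isomorphisms.
Proof: define `S` on finitely supported vectors by `S e_i = u_i`. On `{±k}`, `k > N`, it is the matrix with columns `u_{-k}, u_k` with entries bounded by `K`,
so of norm `≤ 2K`, with inverse `adj/det` of norm `≤ 2K·K`; on the block `0` (finite dimensional) the `u_i` are a basis, so `S` is bounded and invertible
there. The blocks are orthogonal, so `S` and its inverse are bounded on `Hs`. (Concretely: define `S a` coordinatewise,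
`(S a)_i = ∑_{j : blk j = blk i} a_j (u_j)_i`, show `Memℓp` and the norm bound blockwise, and the same for the inverse.) -/
def S_G1 : Prop := ∀ (N : ℕ) (K : ℝ) (u : ℤ → Hs), 0 < K →
  (∀ i j : ℤ, blk N i ≠ blk N j → (u j : ℤ → ℂ) i = 0) →
  LinearIndependent ℂ (fun i : {i : ℤ // blk N i = 0} => u i) →
  (∀ i j : ℤ, N < j.natAbs → ‖(u j : ℤ → ℂ) i‖ ≤ K) →
  (∀ k : ℕ, N < k → 1 / K ≤ ‖(u (-(k : ℤ)) : ℤ → ℂ) (-(k : ℤ)) * (u k : ℤ → ℂ) k -
    (u k : ℤ → ℂ) (-(k : ℤ)) * (u (-(k : ℤ)) : ℤ → ℂ) k‖) →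
  ∃ S : Hs ≃L[ℂ] Hs, ∀ j, S (ee j) = u j

/-- [G2] good pairs give a basis (take `S_S1`, `S_B3`, `S_B5`, `S_B6`, `S_B7`, `S_G1` as hypotheses).
Proof: let `K₁` be the constant of `GoodPairs`, `K, N₀` of B3, B5. Take `N` large (`≥ N₀, k₀`, further conditions below) and `W, Y` with `BD`. For `k > N` let
`f, g, a, b, …` be the pair. `f ≠ 0` and `g ≠ 0` and, by B5, `W.symm f` is supported on the block of some `i` with `|4i²-a| ≤ 2ν`, while `|a - 4k²| ≤ K₁`: for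
`N` large this forces `|i| = k`. So `F = W.symm f`, `G = W.symm g` are supported on `{±k}`, and
`‖F - p e_{-k} - q e_k‖ = ‖W.symm (f - p W e_{-k} - q W e_k)‖ ≤ 2(K₁/k + (|p|+|q|)K/k)` is `O(1/k)`. [`f ≠ 0`: otherwise `|p|,|q| ≤ K₁/k`, contradicting
`|pq'-p'q| ≥ 1/K₁` for `k` large.] Hence for `N` large the entries of `F, G` are bounded by `2K₁` and the determinant is `≥ 1/(2K₁)`. Let
`u_{-k} = F`, `u_k = G` for `k > N`, and for `|i| ≤ N`, `u_i = W.symm ψ_i` with `ψ` from B6 for `m = 0` (they are supported on block `0` as `ψ_i` is in the span of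
the `W e_j`, `|j| ≤ N`). G1 gives `S` with `S e_i = u_i`; `U = S.trans W`. For an equivalence `σ : ℕ ≃ ℤ`, `φ n = U (ee (σ n))` is Schauder by S1, and
`φ n ∈ seqRoot (ev n)` with `ev n = a` or `b` (for `σ n = -k`, `k`) or the value of B6. Linear independence of every subfamily: injectivity of `U`. Span: `⊆` since
`seqRoot` is a submodule. `⊇`: `x ∈ seqRoot μ`, `x ≠ 0`: by B5 `W.symm x` is supported on one block `m`, so `x` is a combination of the finitely many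
`φ n` with `σ n` in the block `m` (they span `W(block m)`: for `m = 0` by B6, for `m = k` two independent vectors in a two dimensional space); grouping the terms by
the value of `ev` and using B7 (independence), the terms with `ev n ≠ μ` sum to zero for every value, hence `x` is the sum of the terms with `ev n = μ`. -/
def S_G2 : Prop := ∀ P Q : ℂ[X], GoodPairs P Q → SeqBasis P Q

/-- [G3] bad pairs exclude a basis (take `S_S2`, `S_B3`, `S_B5`, `S_B7` as hypotheses).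
Proof: suppose `SeqBasis P Q` with `φ, ev`, and `K` from S2. Let `K₁` be the constant of `BadPairs`. Fix `N, W, Y` with `BD` (B3), `N ≥ N₀` of B5. Take `ε`
small and `k, f, g, a, b, j` from `BadPairs`; `k ≥ 1/ε` is large, so by B5 (as in G2) any nonzero `x ∈ seqRoot a` or `∈ seqRoot b` has `W.symm x` supported on
`{±k}`. Claim: every `x ∈ seqRoot a` is a multiple of `f` (`f ≠ 0` as `‖f - e_j‖ ≤ ε < 1`). Otherwise `x, f` span the two dimensional space `W span(e_k,e_{-k})`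
containing `g`, so `g ∈ seqRoot a ∩ seqRoot b = 0` (B7), contradiction. As the span of `{φ n : ev n = a}` is `seqRoot a ∋ f ≠ 0`, there is `n` with `ev n = a`, and
`φ n = t f`, `t ≠ 0` (`φ n ≠ 0` by independence). Similarly `φ n' = t' g`, `ev n' = b`, `n ≠ n'`. By S2,
`‖φ n‖ ≤ K‖φ n - (t/t') φ n'‖`, i.e. `‖f‖ ≤ K‖f - g‖ ≤ 2Kε`, but `‖f‖ ≥ 1 - ε`: contradiction for small `ε`. -/
def S_G3 : Prop := ∀ P Q : ℂ[X], BadPairs P Q → ¬ SeqBasis P Q

end HillRoots
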